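import Pool.Agent.H99.SF.Faces

/-!
# Nice vertices and the total degree of the others
-/

namespace Pool.Agent.H99.SF

open Classical

variable {V : Type} [Fintype V] {G : SimpleGraph V}

/-- nice vertices: degree 4, and the faces around have length alternately 3 and 6 -/
def Nice (R : Rot G) (u : V) : Prop :=
  (nb G u).card = 4 ∧ ∀ d : G.Dart, d.fst = u →
    (R.len d = 3 ∧ R.len d.symm = 6) ∨ (R.len d = 6 ∧ R.len d.symm = 3)

/-- total degree of the non-nice vertices -/
noncomputable def badDeg (R : Rot G) : ℕ :=
  (Finset.univ.filter (fun d : G.Dart => ¬ Nice R d.fst)).card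

theorem card_darts_at (u : V) :
    (Finset.univ.filter (fun d : G.Dart => d.fst = u)).card = (nb G u).card := by
  refine Finset.card_bij (fun d _ => d.snd) ?_ ?_ ?_
  · intro d hd
    simp only [Finset.mem_filter, Finset.mem_univ, true_and] at hd
    rw [mem_nb, ← hd]
    exact d.adj
  · intro d hd e he h
    simp only [Finset.mem_filter, Finset.mem_univ, true_and] at hd he
    apply SimpleGraph.Dart.ext
    exact Prod.ext (hd.trans he.symm) h
  · intro v hv
    rw [mem_nb] at hv
    exact ⟨⟨(u, v), hv⟩, by simp, rfl⟩

theorem sum_nb_card : ∑ u : V, (nb G u).card = 2 * ne G := by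
  have h1 : ∑ u : V, (nb G u).card = Fintype.card G.Dart := by
    rw [← Finset.card_univ (α := G.Dart),
      Finset.card_eq_sum_card_fiberwise (s := (Finset.univ : Finset G.Dart))
        (t := (Finset.univ : Finset V)) (f := fun d => d.fst) (fun _ _ => Finset.mem_coe.2 (Finset.mem_univ _))]
    exact Finset.sum_congr rfl fun u _ => (card_darts_at u).symm
  rw [h1, ne, Nat.card_eq_fintype_card, SimpleGraph.dart_card_eq_twice_card_edges,
    ← SimpleGraph.edgeFinset_card]

theorem len_σ (R : Rot G) (d : G.Dart) : R.len (R.σ d) = R.len d.symm := by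
  have h := len_φ R d.symm
  rw [R.hφ, SimpleGraph.Dart.symm_symm] at h
  exact h

/-- pointwise bound -/
theorem bad_at (R : Rot G) (hf : Free45 G) (hd : ∀ v, 3 ≤ (nb G v).card) (u : V) :
    (if Nice R u then (0 : ℤ) else (nb G u).card) ≤
      9 * ((Ndarts R).filter (fun d => d.fst = u)).card
        + 4 * ((L7 R).filter (fun d => d.fst = u)).card + 5 * (((nb G u).card : ℤ) - 4) := by
  have h3 := hd u
  by_cases hN : ∃ d : G.Dart, d.fst = u ∧ R.len d ≠ 3 ∧ R.len d.symm ≠ 3
  · obtain ⟨d, hdu, hd1, hd2⟩ := hN
    have hpos : 1 ≤ ((Ndarts R).filter (fun d => d.fst = u)).card := by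
      refine Finset.card_pos.2 ⟨d, ?_⟩
      simp [Ndarts, hdu, hd1, hd2]
    split_ifs <;> omega
  · push Not at hN
    -- alternation
    have halt : ∀ d : G.Dart, d.fst = u → (R.len d = 3 ↔ R.len (R.σ d) ≠ 3) := by
      intro d hdu
      rw [len_σ]
      constructor
      · exact fun h => no_adj_tri R hf hd d h
      · intro h
        by_contra h'
        exact h (hN d hdu h')
    have hσu : ∀ d : G.Dart, (R.σ d).fst = u ↔ d.fst = u := by
      intro d; rw [R.hσ]
    set A := Finset.univ.filter (fun d : G.Dart => d.fst = u ∧ R.len d = 3) with hA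
    set B := Finset.univ.filter (fun d : G.Dart => d.fst = u ∧ ¬ R.len d = 3) with hB
    have hAB : A.card ≤ B.card := by
      refine Finset.card_le_card_of_injOn (fun d => R.σ d) ?_ (R.σ.injective.injOn)
      intro d hdA
      simp only [hA, hB, Finset.coe_filter, Finset.mem_univ, true_and, Set.mem_ofPred_eq] at hdA ⊢
      exact ⟨(hσu d).2 hdA.1, (halt d hdA.1).1 hdA.2⟩
    have hBA : B.card ≤ A.card := by
      refine Finset.card_le_card_of_injOn (fun d => R.σ d) ?_ (R.σ.injective.injOn)
      intro d hdB
      simp only [hA, hB, Finset.coe_filter, Finset.mem_univ, true_and, Set.mem_ofPred_eq] at hdB ⊢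
      refine ⟨(hσu d).2 hdB.1, ?_⟩
      by_contra h'
      exact hdB.2 ((halt d hdB.1).2 h')
    have hsum : A.card + B.card = (nb G u).card := by
      rw [← card_darts_at u, ← Finset.card_filter_add_card_filter_not (s := Finset.univ.filter (fun d : G.Dart => d.fst = u)) (fun d => R.len d = 3), Finset.filter_filter, Finset.filter_filter]
    by_cases h5 : 5 ≤ (nb G u).card
    · split_ifs <;> omega
    have h4 : (nb G u).card = 4 := by omega
    by_cases hL : ∃ d : G.Dart, d.fst = u ∧ 7 ≤ R.len d
    · obtain ⟨d, hdu, hd7⟩ := hL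
      have hpos : 1 ≤ ((L7 R).filter (fun d => d.fst = u)).card := by
        refine Finset.card_pos.2 ⟨d, ?_⟩
        simp [L7, hdu, hd7]
      split_ifs <;> omega
    · push Not at hL
      have hnice : Nice R u := by
        refine ⟨h4, ?_⟩
        intro d hdu
        have e1 := len_cases R hf hd d
        have e2 := len_cases R hf hd (R.σ d)
        have e3 := hL d hdu
        have e4 := hL (R.σ d) ((hσu d).2 hdu)
        have e5 := halt d hdu
        rw [len_σ] at e2 e4 e5
        by_cases h : R.len d = 3
        · left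
          refine ⟨h, ?_⟩
          have := e5.1 h
          omega
        · right
          have : R.len d.symm = 3 := by
            by_contra h'
            exact h (e5.2 h')
          omega
      rw [if_pos hnice]
      omega

theorem badDeg_le (R : Rot G) (hf : Free45 G) (hd : ∀ v, 3 ≤ (nb G v).card)
    (hE : Fintype.card V + R.nf = ne G + 2) :
    badDeg R ≤ 9 * (Ndarts R).card + 4 * (L7 R).card := by
  have hEu := euler_ineq R hf hd hE
  have hB : (badDeg R : ℤ) = ∑ u : V, (if Nice R u then (0 : ℤ) else (nb G u).card) := by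
    unfold badDeg
    rw [Finset.card_eq_sum_card_fiberwise (t := (Finset.univ : Finset V)) (f := fun d => d.fst)
      (fun _ _ => Finset.mem_coe.2 (Finset.mem_univ _))]
    push_cast
    refine Finset.sum_congr rfl fun u _ => ?_
    rw [Finset.filter_filter]
    split_ifs with h
    · rw [Finset.filter_false_of_mem]
      · simp
      · rintro d - ⟨h1, h2⟩
        rw [h2] at h1
        exact h1 h
    · rw [← card_darts_at u]
      congr 2
      ext d
      simp only [Finset.mem_filter, Finset.mem_univ, true_and]
      constructor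
      · exact fun h => h.2
      · intro h'
        refine ⟨?_, h'⟩
        rw [h']
        exact h
  have hNs : ((Ndarts R).card : ℤ) = ∑ u : V, (((Ndarts R).filter (fun d => d.fst = u)).card : ℤ) := by
    rw [Finset.card_eq_sum_card_fiberwise (s := Ndarts R) (t := (Finset.univ : Finset V)) (f := fun d => d.fst)
      (fun _ _ => Finset.mem_coe.2 (Finset.mem_univ _))]
    push_cast
    rfl
  have hLs : ((L7 R).card : ℤ) = ∑ u : V, (((L7 R).filter (fun d => d.fst = u)).card : ℤ) := by
    rw [Finset.card_eq_sum_card_fiberwise (s := L7 R) (t := (Finset.univ : Finset V)) (f := fun d => d.fst)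
      (fun _ _ => Finset.mem_coe.2 (Finset.mem_univ _))]
    push_cast
    rfl
  have hS : ∑ u : V, ((nb G u).card : ℤ) = 2 * ne G := by
    have := sum_nb_card (G := G)
    exact_mod_cast this
  have hmain := Finset.sum_le_sum (s := (Finset.univ : Finset V)) (fun u _ => bad_at R hf hd u)
  rw [← hB, Finset.sum_add_distrib, Finset.sum_add_distrib, ← Finset.mul_sum, ← Finset.mul_sum,
    ← Finset.mul_sum, ← hNs, ← hLs, Finset.sum_sub_distrib, hS] at hmain
  simp only [Finset.sum_const, Finset.card_univ, smul_eq_mul, nsmul_eq_mul] at hmain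
  have h2 : (42 * ne G + 7 * (Ndarts R).card + 2 * (L7 R).card + 168 : ℤ) ≤ 84 * Fintype.card V := by
    exact_mod_cast hEu
  have h3 : (badDeg R : ℤ) ≤ 9 * (Ndarts R).card + 4 * (L7 R).card := by
    have hn : (0 : ℤ) ≤ (Ndarts R).card := by positivity
    have hl : (0 : ℤ) ≤ (L7 R).card := by positivity
    linarith
  exact_mod_cast h3

/-- a nice vertex has exactly two darts of length 6 (and two of length 3) -/
theorem nice_six (R : Rot G) (u : V) (h : Nice R u) :
    (Finset.univ.filter (fun d : G.Dart => d.fst = u ∧ R.len d = 6)).card = 2 := by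
  have hσu : ∀ d : G.Dart, (R.σ d).fst = u ↔ d.fst = u := by
    intro d; rw [R.hσ]
  set A := Finset.univ.filter (fun d : G.Dart => d.fst = u ∧ R.len d = 6) with hA
  set B := Finset.univ.filter (fun d : G.Dart => d.fst = u ∧ ¬ R.len d = 6) with hB
  have hAB : A.card ≤ B.card := by
    refine Finset.card_le_card_of_injOn (fun d => R.σ d) ?_ (R.σ.injective.injOn)
    intro d hdA
    simp only [hA, hB, Finset.coe_filter, Finset.mem_univ, true_and, Set.mem_ofPred_eq] at hdA ⊢
    refine ⟨(hσu d).2 hdA.1, ?_⟩
    rw [len_σ]
    rcases h.2 d hdA.1 with h1 | h1 <;> omega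
  have hBA : B.card ≤ A.card := by
    refine Finset.card_le_card_of_injOn (fun d => R.σ d) ?_ (R.σ.injective.injOn)
    intro d hdB
    simp only [hA, hB, Finset.coe_filter, Finset.mem_univ, true_and, Set.mem_ofPred_eq] at hdB ⊢
    refine ⟨(hσu d).2 hdB.1, ?_⟩
    rw [len_σ]
    rcases h.2 d hdB.1 with h1 | h1 <;> omega
  have hsum : A.card + B.card = (nb G u).card := by
    rw [← card_darts_at u, ← Finset.card_filter_add_card_filter_not (s := Finset.univ.filter (fun d : G.Dart => d.fst = u)) (fun d => R.len d = 6), Finset.filter_filter, Finset.filter_filter]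
  have := h.1
  omega

end Pool.Agent.H99.SF
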