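import Pool.Agent.H99.SF.Defs

/-!
# Working definitions
-/

namespace Pool.Agent.H99.SF

open Classical

/-- no 4-cycles and no 5-cycles, in terms of adjacency -/
structure Free45 {V : Type} (G : SimpleGraph V) : Prop where
  c4 : ∀ a b c d : V, G.Adj a b → G.Adj b c → G.Adj c d → G.Adj d a → a ≠ c → b ≠ d → False
  c5 : ∀ a b c d e : V, G.Adj a b → G.Adj b c → G.Adj c d → G.Adj d e → G.Adj e a →
    a ≠ c → a ≠ d → b ≠ d → b ≠ e → c ≠ e → False

section
variable {V : Type} [Fintype V]

/-- the neighbours of `v` -/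
noncomputable def nb (G : SimpleGraph V) (v : V) : Finset V :=
  Finset.univ.filter (fun u => G.Adj v u)

@[simp] theorem mem_nb {G : SimpleGraph V} {v u : V} : u ∈ nb G v ↔ G.Adj v u := by
  simp [nb]

/-- number of neighbours of `v` outside `S` -/
noncomputable def out (G : SimpleGraph V) (S : Finset V) (v : V) : ℕ := (nb G v \ S).card

/-- residual list size of `v` (in units of `b`) after colouring the vertices outside `S` -/
noncomputable def cc (G : SimpleGraph V) (S : Finset V) (v : V) : ℕ := 4 - out G S v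

/-- number of edges meeting `S` -/
noncomputable def inc (G : SimpleGraph V) (S : Finset V) : ℕ :=
  (Finset.univ.filter (fun e : Sym2 V => e ∈ G.edgeSet ∧ ∃ v ∈ S, v ∈ e)).card

/-- number of edges -/
noncomputable def ne (G : SimpleGraph V) : ℕ := Nat.card G.edgeSet

end

/-- a rotation system -/
structure Rot {V : Type} (G : SimpleGraph V) where
  σ : Equiv.Perm G.Dart
  φ : Equiv.Perm G.Dart
  hσ : ∀ d, (σ d).fst = d.fst
  tr : ∀ d d' : G.Dart, d.fst = d'.fst → ∃ n : ℕ, (σ ^ n) d = d'
  hφ : ∀ d, φ d = σ d.symm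

theorem Rot.fst_φ {V : Type} {G : SimpleGraph V} (R : Rot G) (d : G.Dart) :
    (R.φ d).fst = d.snd := by
  rw [R.hφ, R.hσ]; rfl

/-- number of faces -/
noncomputable def Rot.nf {V : Type} {G : SimpleGraph V} (R : Rot G) : ℕ :=
  Nat.card (Quotient (Equiv.Perm.SameCycle.setoid R.φ))

/-- length of the face of the dart `d` -/
noncomputable def Rot.len {V : Type} [Fintype V] {G : SimpleGraph V} (R : Rot G) (d : G.Dart) : ℕ :=
  (Finset.univ.filter (fun e : G.Dart => Equiv.Perm.SameCycle R.φ d e)).card

end Pool.Agent.H99.SF
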