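import Mathlib

/-!
# The 6-cycle is `(2m,m)`-choosable
-/

namespace Pool.Agent.H99.SF

/-- every subset of the cyclically oriented 6-cycle has a kernel -/
theorem kernel6 : ∀ S : Fin 6 → Bool, ∃ K : Fin 6 → Bool, (∀ i, K i = true → S i = true) ∧
    (∀ i, K i = true → K (i + 1) = false) ∧ ∀ i, S i = true → K i = false → K (i + 1) = true := by
  decide +kernel

/-- the induction behind the kernel argument: demands `g`, lists of size at least
`g i + g (i + 1)` where `g i > 0` -/
theorem c6_aux : ∀ (N : ℕ) (g : Fin 6 → ℕ) (L : Fin 6 → Finset ℤ), ∑ i, g i = N →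
    (∀ i, 0 < g i → g i + g (i + 1) ≤ (L i).card) →
    ∃ φ : Fin 6 → Finset ℤ, (∀ i, φ i ⊆ L i ∧ (φ i).card = g i) ∧
      ∀ i, Disjoint (φ i) (φ (i + 1)) := by
  intro N
  induction N using Nat.strong_induction_on with
  | _ N ih =>
    intro g L hN hL
    classical
    by_cases h0 : ∀ i, g i = 0
    · exact ⟨fun _ => ∅, fun i => ⟨Finset.empty_subset _, by simp [h0 i]⟩, fun i => by simp⟩
    push Not at h0
    obtain ⟨i0, hi0⟩ := h0
    have hi0' : 0 < g i0 := Nat.pos_of_ne_zero hi0
    have hne : (L i0).Nonempty := by
      rw [← Finset.card_pos]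
      have := hL i0 hi0'
      omega
    obtain ⟨c, hc⟩ := hne
    obtain ⟨K, hK1, hK2, hK3⟩ := kernel6 (fun i => decide (c ∈ L i ∧ 0 < g i))
    simp only [decide_eq_true_eq] at hK1 hK3
    set g' : Fin 6 → ℕ := fun i => if K i = true then g i - 1 else g i with hg'
    have hle : ∀ i, g' i ≤ g i := by
      intro i; simp only [hg']; split_ifs <;> omega
    have hlt : ∑ i, g' i < ∑ i, g i := by
      apply Finset.sum_lt_sum (fun i _ => hle i)
      by_cases hk : K i0 = true
      · exact ⟨i0, Finset.mem_univ _, by simp only [hg', hk, if_true]; omega⟩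
      · have hk' : K (i0 + 1) = true := hK3 i0 ⟨hc, hi0'⟩ (by simpa using hk)
        have := (hK1 _ hk').2
        exact ⟨i0 + 1, Finset.mem_univ _, by simp only [hg', hk', if_true]; omega⟩
    have hL' : ∀ i, 0 < g' i → g' i + g' (i + 1) ≤ ((L i).erase c).card := by
      intro i hi
      have hgi : 0 < g i := lt_of_lt_of_le hi (hle i)
      have h1 := hL i hgi
      by_cases hci : c ∈ L i
      · rw [Finset.card_erase_of_mem hci]
        by_cases hk : K i = true
        · have e1 : g' i = g i - 1 := by simp only [hg', hk, if_true]
          have e2 := hle (i + 1)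
          omega
        · have hk' : K (i + 1) = true := hK3 i ⟨hci, hgi⟩ (by simpa using hk)
          have e1 : g' (i + 1) = g (i + 1) - 1 := by simp only [hg', hk', if_true]
          have e2 := hle i
          have e3 := (hK1 _ hk').2
          omega
      · rw [Finset.erase_eq_of_notMem hci]
        have e1 := hle i
        have e2 := hle (i + 1)
        omega
    obtain ⟨φ, hφ1, hφ2⟩ := ih (∑ i, g' i) (hN ▸ hlt) g' (fun i => (L i).erase c) rfl hL'
    have hcφ : ∀ i, c ∉ φ i := fun i h => (Finset.mem_erase.mp ((hφ1 i).1 h)).1 rfl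
    refine ⟨fun i => if K i = true then insert c (φ i) else φ i, ?_, ?_⟩
    · intro i
      by_cases hk : K i = true
      · simp only [hk, if_true]
        refine ⟨?_, ?_⟩
        · intro x hx
          rcases Finset.mem_insert.mp hx with rfl | hx
          · exact (hK1 i hk).1
          · exact (Finset.mem_erase.mp ((hφ1 i).1 hx)).2
        · rw [Finset.card_insert_of_notMem (hcφ i), (hφ1 i).2]
          have e1 : g' i = g i - 1 := by simp only [hg', hk, if_true]
          have := (hK1 i hk).2
          omega
      · simp only [hk]
        refine ⟨?_, ?_⟩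
        · intro x hx
          exact (Finset.mem_erase.mp ((hφ1 i).1 hx)).2
        · have e1 : g' i = g i := by simp only [hg', hk]; simp
          have := (hφ1 i).2
          simpa [e1] using this
    · intro i
      have hd := hφ2 i
      by_cases hk : K i = true
      · have hk' : K (i + 1) = false := hK2 i hk
        simp only [hk, hk', if_true]
        simp only [Bool.false_eq_true, if_false]
        rw [Finset.disjoint_insert_left]
        exact ⟨hcφ _, hd⟩
      · by_cases hk' : K (i + 1) = true
        · simp only [hk, hk', if_true]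
          simp only [Bool.false_eq_true, if_false]
          rw [Finset.disjoint_insert_right]
          exact ⟨hcφ _, hd⟩
        · simp only [hk, hk']
          simpa using hd

/-- Galvin's kernel argument for the cyclically oriented 6-cycle: if every list has at least
`2 m` colours then there are `m`-element subsets, disjoint for consecutive indices. -/
theorem c6 (m : ℕ) (L : Fin 6 → Finset ℤ) (h : ∀ i, 2 * m ≤ (L i).card) :
    ∃ φ : Fin 6 → Finset ℤ, (∀ i, φ i ⊆ L i ∧ (φ i).card = m) ∧
      ∀ i, Disjoint (φ i) (φ (i + 1)) :=
  c6_aux _ (fun _ => m) L rfl (fun i _ => by have := h i; omega)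

end Pool.Agent.H99.SF
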