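import Pool.Agent.H99.SF.DTree

/-!
# Decomposition of planar graphs into bounded clusters
-/

namespace Pool.Agent.H99.SF

open Classical

section
variable {V : Type} {G : SimpleGraph V}

/-- block of a vertex: levels in groups of `k`, offset `o` -/
def Clusters_blk (P : Par G) (k o : ℕ) (v : V) : ℕ := (P.l v + o) / k

/-- the edge `e` joins different blocks -/
def Clusters_cross (P : Par G) (k o : ℕ) (e : Sym2 V) : Prop :=
  ∃ u ∈ e, ∃ v ∈ e, Clusters_blk P k o u ≠ Clusters_blk P k o v

theorem Clusters_unique (P : Par G) {k : ℕ} {e : Sym2 V} (he : e ∈ G.edgeSet)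
    {o o' : ℕ} (ho : o < k) (ho' : o' < k)
    (h : Clusters_cross P k o e) (h' : Clusters_cross P k o' e) : o = o' := by
  induction e using Sym2.ind with
  | _ a b =>
    rw [SimpleGraph.mem_edgeSet] at he
    have key : ∀ q : ℕ, Clusters_cross P k q s(a, b) →
        Clusters_blk P k q a ≠ Clusters_blk P k q b := by
      rintro q ⟨u, hu, v, hv, huv⟩
      rw [Sym2.mem_iff] at hu hv
      rcases hu with rfl | rfl <;> rcases hv with rfl | rfl
      · exact absurd rfl huv
      · exact huv
      · exact huv.symm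
      · exact absurd rfl huv
    have h1 := key o h
    have h2 := key o' h'
    unfold Clusters_blk at h1 h2
    have hab := P.ladj a b he
    have hba := P.ladj b a he.symm
    have aux : ∀ m q : ℕ, (m + 1 + q) / k ≠ (m + q) / k → k ∣ m + q + 1 := by
      intro m q hmq
      by_contra hcon
      apply hmq
      rw [show m + 1 + q = (m + q) + 1 by ring, Nat.succ_div, if_neg hcon, add_zero]
    have fin : ∀ m : ℕ, k ∣ m + o + 1 → k ∣ m + o' + 1 → o = o' := by
      intro m p1 p2
      have e1 : (m + 1) + o ≡ (m + 1) + o' [MOD k] := by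
        have q1 : (m + 1) + o ≡ 0 [MOD k] := by
          rw [Nat.modEq_zero_iff_dvd]; convert p1 using 1; ring
        have q2 : (m + 1) + o' ≡ 0 [MOD k] := by
          rw [Nat.modEq_zero_iff_dvd]; convert p2 using 1; ring
        exact q1.trans q2.symm
      have e2 := Nat.ModEq.add_left_cancel' _ e1
      exact Nat.ModEq.eq_of_lt_of_lt e2 ho ho'
    rcases Nat.lt_trichotomy (P.l a) (P.l b) with hl | hl | hl
    · have e : P.l b = P.l a + 1 := by omega
      rw [e] at h1 h2
      exact fin (P.l a) (aux _ _ h1.symm) (aux _ _ h2.symm)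
    · rw [hl] at h1
      exact absurd rfl h1
    · have e : P.l a = P.l b + 1 := by omega
      rw [e] at h1 h2
      exact fin (P.l b) (aux _ _ h1) (aux _ _ h2)

theorem Clusters_const (R : Rot G) (s : G.Dart → Prop) (u : V)
    (h : ∀ d : G.Dart, d.fst = u → (s (R.σ d) ↔ s d)) :
    ∀ d d' : G.Dart, d.fst = u → d'.fst = u → (s d' ↔ s d) := by
  intro d d' hd hd'
  obtain ⟨n, hn⟩ := R.tr d d' (hd.trans hd'.symm)
  have key : ∀ n : ℕ, ((R.σ ^ n) d).fst = u ∧ (s ((R.σ ^ n) d) ↔ s d) := by
    intro n
    induction n with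
    | zero => exact ⟨by simpa using hd, by simp⟩
    | succ n ih =>
      rw [pow_succ', Equiv.Perm.mul_apply]
      refine ⟨(R.hσ _).trans ih.1, (h _ ih.1).trans ih.2⟩
  have := (key n).2
  rwa [hn] at this

end

section
variable {V : Type} [Fintype V] {G : SimpleGraph V}

/-- the edges as a finset -/
noncomputable def Clusters_E (G : SimpleGraph V) : Finset (Sym2 V) :=
  Finset.univ.filter (fun e : Sym2 V => e ∈ G.edgeSet)

theorem Clusters_card_E (G : SimpleGraph V) : (Clusters_E G).card = ne G := by
  unfold Clusters_E ne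
  rw [Nat.card_eq_fintype_card, Fintype.card_subtype]

theorem Clusters_offset (P : Par G) (k : ℕ) (hk : 1 ≤ k) :
    ∃ o : ℕ, k * ((Clusters_E G).filter (fun e => Clusters_cross P k o e)).card ≤ ne G := by
  by_contra hcon
  push Not at hcon
  have h1 : ∑ o ∈ Finset.range k,
      ((Clusters_E G).filter (fun e => Clusters_cross P k o e)).card ≤ ne G := by
    rw [← Clusters_card_E]
    simp only [Finset.card_filter]
    rw [Finset.sum_comm, Finset.card_eq_sum_ones]
    refine Finset.sum_le_sum ?_
    intro e he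
    rw [← Finset.card_filter, Finset.card_le_one]
    intro a ha b hb
    rw [Finset.mem_filter, Finset.mem_range] at ha hb
    exact Clusters_unique P (by simpa [Clusters_E] using he) ha.1 hb.1 ha.2 hb.2
  have h2 : ∑ o ∈ Finset.range k, (ne G + 1) ≤ ∑ o ∈ Finset.range k,
      k * ((Clusters_E G).filter (fun e => Clusters_cross P k o e)).card :=
    Finset.sum_le_sum (fun o _ => hcon o)
  rw [← Finset.mul_sum, Finset.sum_const, Finset.card_range, smul_eq_mul] at h2
  have h3 : ne G + 1 ≤ _ := Nat.le_of_mul_le_mul_left h2 (by omega)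
  omega

theorem Clusters_dart (hc : G.Connected) (hn : 2 ≤ Fintype.card V) (v : V) :
    ∃ d : G.Dart, d.fst = v := by
  have : Nontrivial V := Fintype.one_lt_card_iff_nontrivial.1 (by omega)
  obtain ⟨u, hu⟩ := hc.preconnected.exists_adj_of_nontrivial v
  exact ⟨⟨(v, u), hu⟩, rfl⟩

/-- the edge `e` meets the cluster of `i` -/
def Clusters_meets (W : Finset V) {ι : Type} (κ : V → ι) (i : ι) (e : Sym2 V) : Prop :=
  ∃ v, v ∉ W ∧ κ v = i ∧ v ∈ e

/-- double counting: clusters given by a labelling `κ` of the vertices outside `W` such that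
an edge sees two labels only if it crosses -/
theorem Clusters_count (W : Finset V) {ι : Type} [DecidableEq ι] (κ : V → ι) (Q : Sym2 V → Prop)
    (hκ : ∀ u v, G.Adj u v → u ∉ W → v ∉ W → ¬ Q s(u, v) → κ u = κ v) (E' : ℕ)
    (hQ : ((Clusters_E G).filter (fun e => Q e)).card = E') :
    ∑ i ∈ (Finset.univ \ W).image κ,
      inc G ((Finset.univ \ W).filter (fun u => κ u = i)) ≤ ne G + E' := by
  have e1 : ∀ i, inc G ((Finset.univ \ W).filter (fun u => κ u = i)) =
      ∑ e ∈ Clusters_E G, if Clusters_meets W κ i e then 1 else 0 := by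
    intro i
    rw [← Finset.card_filter]
    unfold inc Clusters_E Clusters_meets
    congr 1
    ext e
    simp only [Finset.mem_filter, Finset.mem_univ, true_and, Finset.mem_sdiff]
    constructor
    · rintro ⟨h1, v, ⟨h2, h3⟩, h4⟩
      exact ⟨h1, v, h2, h3, h4⟩
    · rintro ⟨h1, v, h2, h3, h4⟩
      exact ⟨h1, v, ⟨h2, h3⟩, h4⟩
  simp only [e1]
  rw [Finset.sum_comm, ← hQ, ← Clusters_card_E]
  rw [Finset.card_eq_sum_ones (Clusters_E G), Finset.card_filter, ← Finset.sum_add_distrib]
  refine Finset.sum_le_sum ?_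
  intro e he
  rw [← Finset.card_filter]
  have he' : e ∈ G.edgeSet := by simpa [Clusters_E] using he
  clear he
  induction e using Sym2.ind with
  | _ a b =>
    rw [SimpleGraph.mem_edgeSet] at he'
    have hsub : ((Finset.univ \ W).image κ).filter
        (fun i => Clusters_meets W κ i s(a, b)) ⊆ {κ a, κ b} := by
      intro i hi
      rw [Finset.mem_filter] at hi
      obtain ⟨_, v, hv, hv2, hv'⟩ := hi
      rw [Sym2.mem_iff] at hv'
      rw [Finset.mem_insert, Finset.mem_singleton]
      rcases hv' with rfl | rfl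
      · exact Or.inl hv2.symm
      · exact Or.inr hv2.symm
    by_cases hq : Q s(a, b)
    · rw [if_pos hq]
      exact (Finset.card_le_card hsub).trans Finset.card_le_two
    · rw [if_neg hq, add_zero, Finset.card_le_one]
      intro i hi j hj
      rw [Finset.mem_filter] at hi hj
      obtain ⟨_, u, hu, hu2, hu'⟩ := hi
      obtain ⟨_, v, hv, hv2, hv'⟩ := hj
      rw [← hu2, ← hv2]
      rw [Sym2.mem_iff] at hu' hv'
      rcases hu' with rfl | rfl <;> rcases hv' with rfl | rfl
      · rfl
      · exact hκ _ _ he' hu hv hq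
      · exact (hκ _ _ he' hv hu hq).symm
      · rfl

/-- size of the exceptional set -/
theorem Clusters_W (P : Par G) (k o M : ℕ) (hk : 1 ≤ k) (C : ℕ → Finset G.Dart)
    (X : G.Dart → Finset V) (hX : ∀ j, ∀ y ∈ C j, (X y).card ≤ 6)
    (hC : ∀ j, (C j).card * M ≤
      (Finset.univ.filter (fun v => Clusters_blk P k o v = j)).card) :
    M * (Finset.univ.filter (fun u => ∃ y ∈ C (Clusters_blk P k o u), P.anc (X y) u)).card ≤
      6 * k * Fintype.card V := by
  set J : Finset ℕ := Finset.univ.image (Clusters_blk P k o) with hJ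
  have hsub : Finset.univ.filter (fun u => ∃ y ∈ C (Clusters_blk P k o u), P.anc (X y) u) ⊆
      J.biUnion (fun j => (C j).biUnion (fun y => Finset.univ.filter (fun u : V =>
        P.anc (X y) u ∧ (j * k - o) ≤ P.l u ∧ P.l u < (j * k - o) + k))) := by
    intro u hu
    rw [Finset.mem_filter] at hu
    obtain ⟨_, y, hy, hyu⟩ := hu
    rw [Finset.mem_biUnion]
    refine ⟨Clusters_blk P k o u, Finset.mem_image_of_mem _ (Finset.mem_univ _), ?_⟩
    rw [Finset.mem_biUnion]
    refine ⟨y, hy, ?_⟩
    rw [Finset.mem_filter]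
    refine ⟨Finset.mem_univ _, hyu, ?_⟩
    unfold Clusters_blk
    have h1 := Nat.div_mul_le_self (P.l u + o) k
    have h2 : P.l u + o < ((P.l u + o) / k + 1) * k := by
      have := Nat.lt_div_mul_add (a := P.l u + o) (b := k) (by omega)
      rw [add_mul, one_mul]
      exact this
    rw [add_mul, one_mul] at h2
    omega
  have h1 : (Finset.univ.filter (fun u => ∃ y ∈ C (Clusters_blk P k o u),
      P.anc (X y) u)).card ≤ ∑ j ∈ J, (C j).card * (6 * k) := by
    refine (Finset.card_le_card hsub).trans ?_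
    refine Finset.card_biUnion_le.trans ?_
    refine Finset.sum_le_sum ?_
    intro j _
    refine Finset.card_biUnion_le_card_mul _ _ _ ?_
    intro y hy
    exact (card_anc_le P (X y) _ k).trans (Nat.mul_le_mul_right k (hX j y hy))
  have h2 : ∑ j ∈ J, (Finset.univ.filter (fun v => Clusters_blk P k o v = j)).card =
      Fintype.card V := by
    rw [← Finset.card_univ]
    exact (Finset.card_eq_sum_card_image (Clusters_blk P k o) Finset.univ).symm
  calc _ ≤ M * ∑ j ∈ J, (C j).card * (6 * k) := Nat.mul_le_mul_left M h1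
    _ = ∑ j ∈ J, ((C j).card * M) * (6 * k) := by
        rw [Finset.mul_sum]
        exact Finset.sum_congr rfl (fun j _ => by ring)
    _ ≤ ∑ j ∈ J, (Finset.univ.filter (fun v => Clusters_blk P k o v = j)).card * (6 * k) :=
        Finset.sum_le_sum (fun j _ => Nat.mul_le_mul_right _ (hC j))
    _ = 6 * k * Fintype.card V := by
        rw [← Finset.sum_mul, h2]; ring

end

/-- If a connected planar graph has noticeably fewer than `2 n` edges then some bounded set `S` of
vertices meets fewer than `2 |S|` edges. -/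
theorem decomp {V : Type} [Fintype V] {G : SimpleGraph V} (R : Rot G)
    (hc : G.Connected) (hn : 2 ≤ Fintype.card V) (hE : Fintype.card V + R.nf = ne G + 2)
    (k M : ℕ) (hk : 1 ≤ k) (hM : 1 ≤ M)
    (hyp : M * (k + 1) * ne G + 12 * k * k * Fintype.card V < 2 * k * M * Fintype.card V) :
    ∃ S : Finset V, S.card ≤ 4 * M ∧ inc G S < 2 * S.card := by
  obtain ⟨P⟩ := exists_par G hc
  obtain ⟨T, hT, hX⟩ := dart_tree R P hc hn hE
  choose! X hX6 hXφ hXt using hX
  choose c hcf using Clusters_dart (G := G) hc hn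
  have hcinj : Function.Injective c := fun u v h => by rw [← hcf u, ← hcf v, h]
  obtain ⟨o, ho⟩ := Clusters_offset P k hk
  have hcut := fun j : ℕ => tree_cut T
    (fun x => by convert hT x) ((Finset.univ.filter (fun v => Clusters_blk P k o v = j)).image c) M hM
  choose C top hρC hCcard htop hdesc using hcut
  have hCy : ∀ j, ∀ y ∈ C j, y ≠ T.ρ := by
    rintro j y hy rfl
    exact hρC j hy
  set W : Finset V :=
    Finset.univ.filter (fun u => ∃ y ∈ C (Clusters_blk P k o u), P.anc (X y) u) with hW
  have hWcard : M * W.card ≤ 6 * k * Fintype.card V :=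
    Clusters_W P k o M hk C X (fun j y hy => hX6 y (hCy j y hy)) (fun j => by
      have := hCcard j
      rwa [Finset.card_image_of_injective _ hcinj] at this)
  have hW' : ∀ u, u ∉ W → ∀ y ∈ C (Clusters_blk P k o u), ¬ P.anc (X y) u := by
    intro u hu y hy hcon
    exact hu (by rw [hW, Finset.mem_filter]; exact ⟨Finset.mem_univ _, y, hy, hcon⟩)
  have hpar : ∀ u, u ∉ W → ∀ y ∈ C (Clusters_blk P k o u), ∀ d : G.Dart, d.fst = u →
      (T.desc y d.symm ↔ T.desc y d) ∧ (T.desc y (R.σ d) ↔ T.desc y d) := by
    intro u hu y hy d hd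
    refine parity R P (fun z => T.desc y z) (X y) (hXφ y (hCy _ y hy)) (hXt y (hCy _ y hy)) d ?_
    rw [hd]
    exact hW' u hu y hy
  set κ : V → ℕ × G.Dart := fun u => (Clusters_blk P k o u, top (Clusters_blk P k o u) (c u))
    with hκ
  have hκe : ∀ u v, G.Adj u v → u ∉ W → v ∉ W → ¬ Clusters_cross P k o s(u, v) →
      κ u = κ v := by
    intro u v huv hu hv hq
    have hb : Clusters_blk P k o u = Clusters_blk P k o v := by
      by_contra hcon
      exact hq ⟨u, by simp, v, by simp, hcon⟩
    have h1 : top (Clusters_blk P k o u) (c u) = top (Clusters_blk P k o v) (c v) := by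
      rw [← hb]
      refine hdesc (Clusters_blk P k o u) (c u) (c v) ?_
      intro y hy
      let d : G.Dart := ⟨(u, v), huv⟩
      have hyv : y ∈ C (Clusters_blk P k o v) := hb ▸ hy
      have s1 : T.desc y (c u) ↔ T.desc y d :=
        Clusters_const R (fun z => T.desc y z) u (fun d' hd' => (hpar u hu y hy d' hd').2)
          d (c u) rfl (hcf u)
      have s2 : T.desc y d.symm ↔ T.desc y d := (hpar u hu y hy d rfl).1
      have s3 : T.desc y (c v) ↔ T.desc y d.symm :=
        Clusters_const R (fun z => T.desc y z) v (fun d' hd' => (hpar v hv y hyv d' hd').2)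
          d.symm (c v) rfl (hcf v)
      rw [s1, s3, s2]
    simp only [hκ, Prod.mk.injEq]
    exact ⟨hb, h1⟩
  by_contra hcon
  push Not at hcon
  have hsize : ∀ i, ((Finset.univ \ W).filter (fun u => κ u = i)).card ≤ 4 * M := by
    rintro ⟨j, t⟩
    refine le_trans ?_ (htop j t)
    rw [← Finset.card_image_of_injective ((Finset.univ \ W).filter (fun u => κ u = (j, t))) hcinj]
    refine Finset.card_le_card ?_
    intro z hz
    rw [Finset.mem_image] at hz
    obtain ⟨u, hu, rfl⟩ := hz
    rw [Finset.mem_filter] at hu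
    simp only [hκ, Prod.mk.injEq] at hu
    obtain ⟨_, hu1, hu2⟩ := hu
    simp only [Finset.mem_filter]
    refine ⟨Finset.mem_image_of_mem _ (Finset.mem_filter.2 ⟨Finset.mem_univ _, hu1⟩), ?_⟩
    rw [hu1] at hu2
    exact hu2
  have hcount := Clusters_count W κ (fun e => Clusters_cross P k o e) hκe _ rfl
  have hlow : 2 * (Finset.univ \ W).card ≤ ∑ i ∈ (Finset.univ \ W).image κ,
      inc G ((Finset.univ \ W).filter (fun u => κ u = i)) := by
    rw [Finset.card_eq_sum_card_image κ (Finset.univ \ W), Finset.mul_sum]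
    exact Finset.sum_le_sum (fun i _ => hcon _ (hsize i))
  have hWc : (Finset.univ \ W).card + W.card = Fintype.card V := by
    rw [← Finset.card_univ]
    exact Finset.card_sdiff_add_card_eq_card (Finset.subset_univ W)
  set U := (Finset.univ \ W).card
  set w := W.card
  set n := Fintype.card V
  set m := ne G
  set x := ((Clusters_E G).filter (fun e => Clusters_cross P k o e)).card
  have h1 : 2 * U ≤ m + x := hlow.trans hcount
  have h2 : k * M * (2 * U) ≤ k * M * (m + x) := Nat.mul_le_mul_left _ h1
  have h3 : M * (k * x) ≤ M * m := Nat.mul_le_mul_left _ ho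
  have h4 : 2 * k * (M * w) ≤ 2 * k * (6 * k * n) := Nat.mul_le_mul_left _ hWcard
  have h5 : 2 * k * M * n = 2 * k * M * U + 2 * k * M * w := by rw [← hWc]; ring
  nlinarith

end Pool.Agent.H99.SF
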