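import Pool.Agent.H99.SF.Slack

/-!
# Creation of slack (paper: Lemma 1)
-/

namespace Pool.Agent.H99.SF

open Classical

/-- disjoint subsets of prescribed size of a family of large sets -/
theorem disjoint_choice (q N : ℕ) : ∀ (J : ℕ) (Y : Fin J → Finset ℤ), J * q ≤ N →
    (∀ j, N ≤ (Y j).card) →
    ∃ X : Fin J → Finset ℤ, (∀ j, X j ⊆ Y j ∧ (X j).card = q) ∧
      ∀ i j, i ≠ j → Disjoint (X i) (X j) := by
  intro J
  induction J with
  | zero =>
    intro Y _ _
    exact ⟨fun j => j.elim0, fun j => j.elim0, fun j => j.elim0⟩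
  | succ J ih =>
    intro Y hN hY
    have hN' : J * q ≤ N := le_trans (Nat.mul_le_mul_right q (Nat.le_succ J)) hN
    obtain ⟨X, h1, h2⟩ := ih (fun j => Y j.castSucc) hN' (fun j => hY _)
    let U : Finset ℤ := Finset.univ.biUnion X
    have hU : U.card ≤ J * q := by
      have := Finset.card_biUnion_le_card_mul (Finset.univ : Finset (Fin J)) X q
        (fun j _ => (h1 j).2.le)
      simpa using this
    have h3 : q ≤ (Y (Fin.last J) \ U).card := by
      have h4 := Finset.le_card_sdiff U (Y (Fin.last J))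
      have h5 := hY (Fin.last J)
      have h6 : (J + 1) * q = J * q + q := by ring
      omega
    obtain ⟨Z, hZ, hZ'⟩ := Finset.exists_subset_card_eq h3
    refine ⟨Fin.snoc (α := fun _ => Finset ℤ) X Z, ?_, ?_⟩
    · intro j
      induction j using Fin.lastCases with
      | last => simp only [Fin.snoc_last]; exact ⟨hZ.trans Finset.sdiff_subset, hZ'⟩
      | cast j => simp only [Fin.snoc_castSucc]; exact h1 j
    · have hZX : ∀ j, Disjoint (X j) Z := by
        intro j
        rw [Finset.disjoint_left]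
        intro x hx hx'
        have := hZ hx'
        rw [Finset.mem_sdiff] at this
        exact this.2 (Finset.mem_biUnion.2 ⟨j, Finset.mem_univ _, hx⟩)
      intro i j hij
      induction i using Fin.lastCases with
      | last =>
        induction j using Fin.lastCases with
        | last => exact absurd rfl hij
        | cast j => simp only [Fin.snoc_last, Fin.snoc_castSucc]; exact (hZX j).symm
      | cast i =>
        induction j using Fin.lastCases with
        | last => simp only [Fin.snoc_last, Fin.snoc_castSucc]; exact hZX i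
        | cast j =>
          simp only [Fin.snoc_castSucc]
          exact h2 i j (fun h => hij (by rw [h]))

/-- one of the three sources of slack is large -/
theorem source (b : ℕ) (L L' M : Finset ℤ) (c c' x : ℝ) (δ : ℝ) (hδ : δ ≤ 1 / 100)
    (h1 : (c - δ) * b ≤ L.card) (h2 : (c' - δ) * b ≤ L'.card) (h3 : (M.card : ℝ) ≤ x * b)
    (hc : x + 1 ≤ c + c') :
    (b : ℝ) / 6 ≤ ((L \ M).card : ℝ) ∨ (b : ℝ) / 6 ≤ ((L' \ M).card : ℝ) ∨
      (b : ℝ) / 6 ≤ ((L ∩ L').card : ℝ) := by
  by_contra hcon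
  push Not at hcon
  obtain ⟨k1, k2, k3⟩ := hcon
  have hb : (0 : ℝ) ≤ b := Nat.cast_nonneg b
  have e1 : ((L \ M).card : ℝ) + ((L ∩ M).card : ℝ) = L.card := by
    exact_mod_cast Finset.card_sdiff_add_card_inter L M
  have e2 : ((L' \ M).card : ℝ) + ((L' ∩ M).card : ℝ) = L'.card := by
    exact_mod_cast Finset.card_sdiff_add_card_inter L' M
  have e3 : ((L ∩ M).card : ℝ) + ((L' ∩ M).card : ℝ) ≤ M.card + (L ∩ L').card := by
    have h4 := Finset.card_union_add_card_inter (L ∩ M) (L' ∩ M)
    have h5 : ((L ∩ M) ∪ (L' ∩ M)).card ≤ M.card :=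
      Finset.card_le_card (Finset.union_subset Finset.inter_subset_right Finset.inter_subset_right)
    have h6 : ((L ∩ M) ∩ (L' ∩ M)).card ≤ (L ∩ L').card := by
      apply Finset.card_le_card
      intro y hy
      simp only [Finset.mem_inter] at hy ⊢
      exact ⟨hy.1.1, hy.2.1⟩
    have h7 : (L ∩ M).card + (L' ∩ M).card ≤ M.card + (L ∩ L').card := by omega
    exact_mod_cast h7
  nlinarith

/-- **Creation of slack.**  `u j`, `u' j` (`j < J ≤ 6`) are distinct non-adjacent vertices of `S`
whose residual sizes add up to more than `x j`, and `M j` is a set of at most `x j * b` colours.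
Then the colouring of `S` can be chosen with all sets of size `m` (slightly more than `b`) such
that `φ (u j) ∪ φ (u' j)` meets `M j` in at most `2 m - (ε/70) b` colours. -/
theorem slack_creation {V : Type} (G : SimpleGraph V) (S : Finset V) (c : V → ℕ) (ε : ℝ) (b0 : ℕ)
    (hε : 0 < ε) (hε1 : ε ≤ 1 / 1000) (h : Ext G S c ε b0) (J : ℕ) (hJ : J ≤ 6)
    (x : Fin J → ℕ) (u u' : Fin J → V)
    (hu : ∀ j, u j ∈ S) (hu' : ∀ j, u' j ∈ S) (hne : ∀ j, u j ≠ u' j)
    (hna : ∀ j, ¬ G.Adj (u j) (u' j)) (hc : ∀ j, x j + 1 ≤ c (u j) + c (u' j))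
    (b : ℕ) (hb : b0 ≤ b) (hb' : 10000 ≤ ε * b)
    (L : V → Finset ℤ) (hL : ∀ v ∈ S, ((c v : ℝ) - ε / 700) * b ≤ ((L v).card : ℝ))
    (M : Fin J → Finset ℤ) (hM : ∀ j, ((M j).card : ℝ) ≤ (x j : ℝ) * b)
    (m : ℕ) (hm : (1 + ε / 700) * b ≤ (m : ℝ)) (hm' : (m : ℝ) ≤ (1 + ε / 350) * b) :
    ∃ φ : V → Finset ℤ, (∀ v ∈ S, φ v ⊆ L v ∧ (φ v).card = m) ∧
      (∀ v ∈ S, ∀ w ∈ S, G.Adj v w → Disjoint (φ v) (φ w)) ∧
      ∀ j, ((((φ (u j) ∪ φ (u' j)) ∩ M j).card : ℝ)) + (ε / 70) * b ≤ 2 * m := by
  have hb0 : (0 : ℝ) ≤ b := Nat.cast_nonneg b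
  obtain ⟨φ0, p1, p2⟩ := h b hb L (fun v hv => by
    refine le_trans ?_ (hL v hv)
    apply mul_le_mul_of_nonneg_right _ hb0
    linarith)
  -- size of the moved sets
  obtain ⟨q, hq, hq'⟩ : ∃ q : ℕ, (ε / 70) * b ≤ (q : ℝ) ∧ (q : ℝ) ≤ (ε / 70) * b + 1 :=
    ⟨⌈(ε / 70) * b⌉₊, Nat.le_ceil _, (Nat.ceil_lt_add_one (by positivity)).le⟩
  -- the sources: kind 0, 1, 2
  let Y : Fin J → Finset ℤ := fun j =>
    if (b : ℝ) / 6 ≤ ((L (u j) \ M j).card : ℝ) then L (u j) \ M j
    else if (b : ℝ) / 6 ≤ ((L (u' j) \ M j).card : ℝ) then L (u' j) \ M j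
    else L (u j) ∩ L (u' j)
  have hY : ∀ j, (b : ℝ) / 6 ≤ ((Y j).card : ℝ) := by
    intro j
    have h1 := source b (L (u j)) (L (u' j)) (M j) (c (u j)) (c (u' j)) (x j) (ε / 700)
      (by linarith) (hL _ (hu j)) (hL _ (hu' j)) (hM j) (by exact_mod_cast hc j)
    simp only [Y]
    split_ifs with h2 h3
    · exact h2
    · exact h3
    · rcases h1 with h1 | h1 | h1
      · exact absurd h1 h2
      · exact absurd h1 h3
      · exact h1
  have hbig : (J * q : ℕ) ≤ ⌊(b : ℝ) / 6⌋₊ := by
    apply Nat.le_floor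
    push_cast
    have hJ' : (J : ℝ) ≤ 6 := by exact_mod_cast hJ
    have hq0 : (0 : ℝ) ≤ q := Nat.cast_nonneg q
    have h1 : (J : ℝ) * q ≤ 6 * q := mul_le_mul_of_nonneg_right hJ' hq0
    nlinarith
  obtain ⟨X, hX, hXd⟩ := disjoint_choice q _ J Y hbig (fun j => by
    have := hY j
    exact Nat.floor_le_of_le this)
  have hJq : ((J * q : ℕ) : ℝ) ≤ 6 * ((ε / 70) * b + 1) := by
    push_cast
    have hJ' : (J : ℝ) ≤ 6 := by exact_mod_cast hJ
    have hq0 : (0 : ℝ) ≤ q := Nat.cast_nonneg q
    nlinarith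
  -- assigned colours
  let as : V → Finset ℤ := fun v => Finset.univ.biUnion (fun j =>
    if (v = u j ∧ X j ⊆ L (u j) ∨ v = u' j ∧ X j ⊆ L (u' j)) then X j else ∅)
  have has_sub : ∀ v, as v ⊆ L v := by
    intro v y hy
    simp only [as, Finset.mem_biUnion, Finset.mem_univ, true_and] at hy
    obtain ⟨j, hj⟩ := hy
    split_ifs at hj with h1
    · rcases h1 with ⟨rfl, h1⟩ | ⟨rfl, h1⟩
      · exact h1 hj
      · exact h1 hj
    · exact absurd hj (Finset.notMem_empty _)
  let XX : Finset ℤ := Finset.univ.biUnion X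
  have hXX : XX.card ≤ J * q := by
    have := Finset.card_biUnion_le_card_mul (Finset.univ : Finset (Fin J)) X q
      (fun j _ => (hX j).2.le)
    simpa using this
  have has_XX : ∀ v, as v ⊆ XX := by
    intro v y hy
    simp only [as, Finset.mem_biUnion, Finset.mem_univ, true_and] at hy
    obtain ⟨j, hj⟩ := hy
    split_ifs at hj with h1
    · exact Finset.mem_biUnion.2 ⟨j, Finset.mem_univ _, hj⟩
    · exact absurd hj (Finset.notMem_empty _)
  let φ1 : V → Finset ℤ := fun v => (φ0 v \ XX) ∪ as v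
  have hφ1 : ∀ v ∈ S, m ≤ (φ1 v).card := by
    intro v hv
    have h1 := (p1 v hv).2
    have h2 : (φ0 v).card ≤ (φ1 v).card + XX.card := by
      have h3 := Finset.le_card_sdiff XX (φ0 v)
      have h4 : (φ0 v \ XX).card ≤ (φ1 v).card := Finset.card_le_card Finset.subset_union_left
      omega
    have h3 : ((φ0 v).card : ℝ) ≤ ((φ1 v).card : ℝ) + (XX.card : ℝ) := by exact_mod_cast h2
    have h4 : (XX.card : ℝ) ≤ ((J * q : ℕ) : ℝ) := by exact_mod_cast hXX
    have h5 : (m : ℝ) ≤ ((φ1 v).card : ℝ) := by nlinarith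
    exact_mod_cast h5
  have has_m : ∀ v, (as v).card ≤ m := by
    intro v
    have h1 : (as v).card ≤ J * q := (Finset.card_le_card (has_XX v)).trans hXX
    have h2 : ((as v).card : ℝ) ≤ ((J * q : ℕ) : ℝ) := by exact_mod_cast h1
    have h3 : ((as v).card : ℝ) ≤ (m : ℝ) := by nlinarith
    exact_mod_cast h3
  have hex : ∀ v ∈ S, ∃ t : Finset ℤ, as v ⊆ t ∧ t ⊆ φ1 v ∧ t.card = m := by
    intro v hv
    exact Finset.exists_subsuperset_card_eq Finset.subset_union_right (has_m v) (hφ1 v hv)
  choose! φ hφa hφb hφc using hex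
  refine ⟨φ, ?_, ?_, ?_⟩
  · intro v hv
    refine ⟨(hφb v hv).trans ?_, hφc v hv⟩
    exact Finset.union_subset (Finset.sdiff_subset.trans (p1 v hv).1) (has_sub v)
  · intro v hv w hw hvw
    apply Finset.disjoint_of_subset_left (hφb v hv)
    apply Finset.disjoint_of_subset_right (hφb w hw)
    rw [Finset.disjoint_left]
    intro y hy hy'
    simp only [φ1, Finset.mem_union, Finset.mem_sdiff] at hy hy'
    rcases hy with ⟨hy1, hy2⟩ | hy <;> rcases hy' with ⟨hy3, hy4⟩ | hy'
    · exact Finset.disjoint_left.1 (p2 v hv w hw hvw) hy1 hy3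
    · exact hy2 (has_XX w hy')
    · exact hy4 (has_XX v hy)
    · simp only [as, Finset.mem_biUnion, Finset.mem_univ, true_and] at hy hy'
      obtain ⟨i, hi⟩ := hy
      obtain ⟨j, hj⟩ := hy'
      split_ifs at hi with h1
      swap
      · exact absurd hi (Finset.notMem_empty _)
      split_ifs at hj with h2
      swap
      · exact absurd hj (Finset.notMem_empty _)
      have hij : i = j := by
        by_contra hij
        exact Finset.disjoint_left.1 (hXd i j hij) hi hj
      subst hij
      have := hna i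
      rcases h1 with ⟨rfl, -⟩ | ⟨rfl, -⟩ <;> rcases h2 with ⟨rfl, -⟩ | ⟨rfl, -⟩
      · exact G.loopless.irrefl _ hvw
      · exact this hvw
      · exact this hvw.symm
      · exact G.loopless.irrefl _ hvw
  · intro j
    have hXsub := (hX j).1
    have hXc := (hX j).2
    -- general inequality
    have key : ((φ (u j) ∪ φ (u' j)) ∩ M j).card + q ≤ 2 * m := by
      have c1 := hφc (u j) (hu j)
      have c2 := hφc (u' j) (hu' j)
      have in1 : X j ⊆ L (u j) → X j ⊆ φ (u j) := by
        intro hs y hy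
        apply hφa (u j) (hu j)
        simp only [as, Finset.mem_biUnion, Finset.mem_univ, true_and]
        exact ⟨j, by rw [if_pos (Or.inl ⟨rfl, hs⟩)]; exact hy⟩
      have in2 : X j ⊆ L (u' j) → X j ⊆ φ (u' j) := by
        intro hs y hy
        apply hφa (u' j) (hu' j)
        simp only [as, Finset.mem_biUnion, Finset.mem_univ, true_and]
        exact ⟨j, by rw [if_pos (Or.inr ⟨rfl, hs⟩)]; exact hy⟩
      have outM : ∀ A B : Finset ℤ, A.card = m → B.card = m → X j ⊆ A → Disjoint (X j) (M j) →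
          ((A ∪ B) ∩ M j).card + q ≤ 2 * m := by
        intro A B hA hB hXA hXM
        have h1 : (A ∪ B) ∩ M j ⊆ (A \ X j) ∪ B := by
          intro y hy
          simp only [Finset.mem_inter, Finset.mem_union, Finset.mem_sdiff] at hy ⊢
          rcases hy with ⟨hy | hy, hy'⟩
          · left
            exact ⟨hy, fun h => Finset.disjoint_left.1 hXM h hy'⟩
          · right; exact hy
        have h2 := Finset.card_le_card h1
        have h3 := Finset.card_union_le (A \ X j) B
        have h4 := Finset.card_sdiff_add_card_eq_card hXA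
        omega
      simp only [Y] at hXsub
      split_ifs at hXsub with h1 h2
      · apply outM _ _ c1 c2 (in1 (hXsub.trans Finset.sdiff_subset))
        rw [Finset.disjoint_left]
        intro y hy hy'
        exact (Finset.mem_sdiff.1 (hXsub hy)).2 hy'
      · rw [Finset.union_comm]
        apply outM _ _ c2 c1 (in2 (hXsub.trans Finset.sdiff_subset))
        rw [Finset.disjoint_left]
        intro y hy hy'
        exact (Finset.mem_sdiff.1 (hXsub hy)).2 hy'
      · have i1 := in1 (hXsub.trans Finset.inter_subset_left)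
        have i2 := in2 (hXsub.trans Finset.inter_subset_right)
        have h3 := Finset.card_union_add_card_inter (φ (u j)) (φ (u' j))
        have h4 : (X j).card ≤ (φ (u j) ∩ φ (u' j)).card :=
          Finset.card_le_card (Finset.subset_inter i1 i2)
        have h5 : ((φ (u j) ∪ φ (u' j)) ∩ M j).card ≤ (φ (u j) ∪ φ (u' j)).card :=
          Finset.card_le_card Finset.inter_subset_left
        omega
    have key' : ((((φ (u j) ∪ φ (u' j)) ∩ M j).card : ℝ)) + (q : ℝ) ≤ 2 * (m : ℝ) := by
      exact_mod_cast key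
    linarith

end Pool.Agent.H99.SF
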