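import Mathlib

/-!
# Cutting a rooted tree into small pieces
-/

namespace Pool.Agent.H99.SF

open Classical

/-- a rooted tree on `D`: root `ρ`, parent `π`, height `h` -/
structure Rooted (D : Type) where
  ρ : D
  π : D → D
  h : D → ℕ
  hρ : π ρ = ρ
  hh : ∀ x, x ≠ ρ → h (π x) + 1 = h x

/-- `z` is a descendant of `y` (or equal) -/
def Rooted.desc {D : Type} (T : Rooted D) (y z : D) : Prop := ∃ k : ℕ, T.π^[k] z = y

/-- every node is a descendant of the root -/
theorem Rooted.desc_root {D : Type} (T : Rooted D) (z : D) : T.desc T.ρ z := by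
  have key : ∀ n : ℕ, ∀ z, T.h z ≤ n → T.desc T.ρ z := by
    intro n
    induction n with
    | zero =>
      intro z hz
      by_cases h0 : z = T.ρ
      · exact ⟨0, h0⟩
      · have := T.hh z h0
        omega
    | succ n ih =>
      intro z hz
      by_cases h0 : z = T.ρ
      · exact ⟨0, h0⟩
      · have h1 := T.hh z h0
        obtain ⟨k, hk⟩ := ih (T.π z) (by omega)
        exact ⟨k + 1, by rw [Function.iterate_succ_apply]; exact hk⟩
  exact key (T.h z) z le_rfl

/-- a descendant of `y` is `y` or a descendant of a child of `y` -/
theorem Rooted.desc_cases {D : Type} (T : Rooted D) {y z : D} (h : T.desc y z) :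
    z = y ∨ ∃ x, (x ≠ T.ρ ∧ T.π x = y) ∧ T.desc x z := by
  obtain ⟨k, hk⟩ := h
  induction k with
  | zero => exact Or.inl hk
  | succ k ih =>
    rw [Function.iterate_succ_apply'] at hk
    by_cases h0 : T.π^[k] z = T.ρ
    · apply ih
      rw [h0] at hk ⊢
      rw [← hk, T.hρ]
    · exact Or.inr ⟨T.π^[k] z, ⟨h0, hk⟩, ⟨k, rfl⟩⟩

/-- the induction behind `tree_cut` -/
theorem tree_cut_aux {D : Type} [Fintype D] (T : Rooted D)
    (hch : ∀ x, (Finset.univ.filter (fun y => y ≠ T.ρ ∧ T.π y = x)).card ≤ 3)
    (M : ℕ) (hM : 1 ≤ M) : ∀ (n : ℕ) (A : Finset D), A.card ≤ n →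
    ∃ C : Finset D, T.ρ ∉ C ∧ C.card * M ≤ A.card ∧
      ∀ z, (A.filter (fun z' => ∀ y ∈ C, (T.desc y z ↔ T.desc y z'))).card ≤ 4 * M := by
  intro n
  induction n with
  | zero =>
    intro A hA
    refine ⟨∅, by simp, by simp, ?_⟩
    intro z
    refine (Finset.card_filter_le _ _).trans ?_
    omega
  | succ n ih =>
    intro A hA
    by_cases h4 : A.card ≤ 4 * M
    · refine ⟨∅, by simp, by simp, ?_⟩
      intro z
      exact (Finset.card_filter_le _ _).trans h4
    · have hne : (Finset.univ.filter
          (fun y : D => M ≤ (A.filter (fun z => T.desc y z)).card)).Nonempty := by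
        refine ⟨T.ρ, ?_⟩
        rw [Finset.mem_filter]
        refine ⟨Finset.mem_univ _, ?_⟩
        rw [Finset.filter_true_of_mem (fun z _ => T.desc_root z)]
        omega
      obtain ⟨y, hy, hmax⟩ := Finset.exists_max_image _ T.h hne
      rw [Finset.mem_filter] at hy
      have hyM := hy.2
      have hchild : ∀ x, x ≠ T.ρ → T.π x = y →
          (A.filter (fun z => T.desc x z)).card ≤ M - 1 := by
        intro x hx hxy
        by_contra hcon
        have h1 : M ≤ (A.filter (fun z => T.desc x z)).card := by omega
        have h2 := hmax x (by rw [Finset.mem_filter]; exact ⟨Finset.mem_univ _, h1⟩)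
        have h3 := T.hh x hx
        rw [hxy] at h3
        omega
      have hle : (A.filter (fun z => T.desc y z)).card ≤ 3 * M - 2 := by
        have hsub : A.filter (fun z => T.desc y z) ⊆ insert y
            ((Finset.univ.filter (fun x => x ≠ T.ρ ∧ T.π x = y)).biUnion
              (fun x => A.filter (fun z => T.desc x z))) := by
          intro z hz
          rw [Finset.mem_filter] at hz
          rcases T.desc_cases hz.2 with h | ⟨x, hx, hxz⟩
          · rw [h]
            exact Finset.mem_insert_self _ _
          · refine Finset.mem_insert_of_mem ?_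
            rw [Finset.mem_biUnion]
            refine ⟨x, ?_, ?_⟩
            · rw [Finset.mem_filter]
              exact ⟨Finset.mem_univ _, hx⟩
            · rw [Finset.mem_filter]
              exact ⟨hz.1, hxz⟩
        have h1 := Finset.card_le_card hsub
        have h2 := Finset.card_insert_le y
            ((Finset.univ.filter (fun x => x ≠ T.ρ ∧ T.π x = y)).biUnion
              (fun x => A.filter (fun z => T.desc x z)))
        have h3 : ((Finset.univ.filter (fun x => x ≠ T.ρ ∧ T.π x = y)).biUnion
              (fun x => A.filter (fun z => T.desc x z))).card ≤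
              (Finset.univ.filter (fun x => x ≠ T.ρ ∧ T.π x = y)).card * (M - 1) := by
          refine Finset.card_biUnion_le_card_mul _ _ _ ?_
          intro x hx
          rw [Finset.mem_filter] at hx
          exact hchild x hx.2.1 hx.2.2
        have h4 : (Finset.univ.filter (fun x => x ≠ T.ρ ∧ T.π x = y)).card * (M - 1) ≤
            3 * (M - 1) := Nat.mul_le_mul_right _ (hch y)
        omega
      have hyρ : y ≠ T.ρ := by
        intro h
        rw [h, Finset.filter_true_of_mem (fun z _ => T.desc_root z)] at hle
        omega
      have hsplit : (A.filter (fun z => T.desc y z)).card +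
          (A.filter (fun z => ¬ T.desc y z)).card = A.card :=
        Finset.card_filter_add_card_filter_not _
      obtain ⟨C, hC1, hC2, hC3⟩ := ih (A.filter (fun z => ¬ T.desc y z)) (by omega)
      refine ⟨insert y C, ?_, ?_, ?_⟩
      · rw [Finset.mem_insert]
        rintro (h | h)
        · exact hyρ h.symm
        · exact hC1 h
      · have h1 := Finset.card_insert_le y C
        have h2 : (insert y C).card * M ≤ (C.card + 1) * M := Nat.mul_le_mul_right _ h1
        have h3 : (C.card + 1) * M = C.card * M + M := by ring
        omega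
      · intro z
        by_cases hz : T.desc y z
        · have hsub : A.filter (fun z' => ∀ u ∈ insert y C, (T.desc u z ↔ T.desc u z')) ⊆
              A.filter (fun z => T.desc y z) := by
            intro z' hz'
            rw [Finset.mem_filter] at hz' ⊢
            exact ⟨hz'.1, (hz'.2 y (Finset.mem_insert_self _ _)).mp hz⟩
          have h1 := Finset.card_le_card hsub
          omega
        · have hsub : A.filter (fun z' => ∀ u ∈ insert y C, (T.desc u z ↔ T.desc u z')) ⊆
              (A.filter (fun z => ¬ T.desc y z)).filter
                (fun z' => ∀ u ∈ C, (T.desc u z ↔ T.desc u z')) := by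
            intro z' hz'
            rw [Finset.mem_filter] at hz'
            rw [Finset.mem_filter, Finset.mem_filter]
            refine ⟨⟨hz'.1, fun h => hz ((hz'.2 y (Finset.mem_insert_self _ _)).mpr h)⟩, ?_⟩
            intro u hu
            exact hz'.2 u (Finset.mem_insert_of_mem hu)
          exact (Finset.card_le_card hsub).trans (hC3 z)

/-- Every set `A` of nodes of a rooted tree with at most three children per node can be split into
pieces of at most `4 M` elements of `A` by cutting at most `A.card / M` nodes `C` from their
parents. -/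
theorem tree_cut {D : Type} [Fintype D] (T : Rooted D)
    (hch : ∀ x, (Finset.univ.filter (fun y => y ≠ T.ρ ∧ T.π y = x)).card ≤ 3)
    (A : Finset D) (M : ℕ) (hM : 1 ≤ M) :
    ∃ (C : Finset D) (top : D → D), T.ρ ∉ C ∧ C.card * M ≤ A.card ∧
      (∀ t, (A.filter (fun z => top z = t)).card ≤ 4 * M) ∧
      ∀ z z', (∀ y ∈ C, (T.desc y z ↔ T.desc y z')) → top z = top z' := by
  obtain ⟨C, hC1, hC2, hC3⟩ := tree_cut_aux T hch M hM A.card A le_rfl
  let s : Setoid D :=
    { r := fun z z' => ∀ y ∈ C, (T.desc y z ↔ T.desc y z')
      iseqv :=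
        { refl := fun z y _ => Iff.rfl
          symm := fun h y hy => (h y hy).symm
          trans := fun h h' y hy => (h y hy).trans (h' y hy) } }
  refine ⟨C, fun z => (Quotient.mk s z).out, hC1, hC2, ?_, ?_⟩
  · intro t
    refine (Finset.card_le_card ?_).trans (hC3 t)
    intro z hz
    rw [Finset.mem_filter] at hz ⊢
    refine ⟨hz.1, ?_⟩
    have h1 : (Quotient.mk s z).out = t := hz.2
    have h2 : Quotient.mk s t = Quotient.mk s z := by
      rw [← h1]
      exact Quotient.out_eq _
    exact Quotient.exact h2
  · intro z z' h
    have h1 : Quotient.mk s z = Quotient.mk s z' := Quotient.sound h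
    show (Quotient.mk s z).out = (Quotient.mk s z').out
    rw [h1]

end Pool.Agent.H99.SF
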