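import Pool.Agent.H99.SF.Parity
import Pool.Agent.H99.SF.TreeCut

/-!
# The tree on the darts
-/

namespace Pool.Agent.H99.SF

open Classical Equiv.Perm

section
variable {V : Type} [Fintype V] {G : SimpleGraph V}

/-- representative of the face of `z` -/
noncomputable def Rot.rep (R : Rot G) (z : G.Dart) : G.Dart :=
  (Quotient.mk (SameCycle.setoid R.φ) z).out

theorem Rot.rep_same (R : Rot G) (z : G.Dart) : SameCycle R.φ (R.rep z) z :=
  Quotient.exact (s := SameCycle.setoid R.φ) (Quotient.out_eq _)

theorem Rot.rep_eq (R : Rot G) {z z' : G.Dart} (h : SameCycle R.φ z z') : R.rep z = R.rep z' := by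
  unfold Rot.rep
  rw [Quotient.sound (s := SameCycle.setoid R.φ) h]

theorem Rot.rep_φ (R : Rot G) (z : G.Dart) : R.rep (R.φ z) = R.rep z :=
  R.rep_eq (⟨-1, by simp⟩ : SameCycle R.φ (R.φ z) z)

/-- if `s` does not change at the non-representative darts of a face then it is constant on it -/
theorem Rot.face_const (R : Rot G) (s : G.Dart → Prop) (t : G.Dart)
    (h : ∀ z, R.rep z = t → z ≠ t → (s (R.φ z) ↔ s z)) (z : G.Dart) (hz : R.rep z = t) :
    s z ↔ s t := by
  have hsame : SameCycle R.φ z t := by
    have := R.rep_same z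
    rw [hz] at this
    exact this.symm
  obtain ⟨n, hn⟩ := hsame.exists_nat_pow_eq
  have key : ∀ n : ℕ, ∀ z, R.rep z = t → (R.φ ^ n) z = t → (s z ↔ s t) := by
    intro n
    induction n with
    | zero =>
      intro z _ h0
      simp only [pow_zero, Equiv.Perm.coe_one, id_eq] at h0
      rw [h0]
    | succ n ih =>
      intro z hz h1
      by_cases hzt : z = t
      · rw [hzt]
      · rw [pow_succ, Equiv.Perm.mul_apply] at h1
        have h2 := ih (R.φ z) (by rw [R.rep_φ, hz]) h1
        rw [← h2, h z hz hzt]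
  exact key n z hz hn

/-- the link relation on darts -/
def Rot.Lk (R : Rot G) (P : Par G) (x y : G.Dart) : Prop :=
  (y = R.φ x ∧ R.rep x ≠ x) ∨ (y = x.symm ∧ ¬ P.tree x)

/-- the link graph -/
def Rot.LG (R : Rot G) (P : Par G) : SimpleGraph G.Dart := SimpleGraph.fromRel (R.Lk P)

theorem tree_symm (P : Par G) (d : G.Dart) : P.tree d.symm ↔ P.tree d := by
  unfold Par.tree
  constructor
  · rintro (h | h)
    · exact Or.inr h
    · exact Or.inl h
  · rintro (h | h)
    · exact Or.inr h
    · exact Or.inl h

theorem lg_φ (R : Rot G) (P : Par G) {z : G.Dart} (h : R.rep z ≠ z) (hne : z ≠ R.φ z) :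
    (R.LG P).Adj z (R.φ z) := by
  rw [Rot.LG, SimpleGraph.fromRel_adj]
  exact ⟨hne, Or.inl (Or.inl ⟨rfl, h⟩)⟩

theorem lg_symm (R : Rot G) (P : Par G) {d : G.Dart} (h : ¬ P.tree d) :
    (R.LG P).Adj d d.symm := by
  rw [Rot.LG, SimpleGraph.fromRel_adj]
  exact ⟨d.symm_ne.symm, Or.inl (Or.inr ⟨rfl, h⟩)⟩

theorem lg_connected (R : Rot G) (P : Par G) (hc : G.Connected) (hn : 2 ≤ Fintype.card V) :
    (R.LG P).Connected := by
  have hne : Nonempty G.Dart := by
    obtain ⟨v, w, hvw⟩ := Fintype.exists_pair_of_one_lt_card (show 1 < Fintype.card V by omega)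
    obtain ⟨p⟩ := hc.preconnected v w
    cases p with
    | nil => exact absurd rfl hvw
    | cons h _ => exact ⟨⟨(_, _), h⟩⟩
  have hpre : (R.LG P).Preconnected := by
    intro x0 y0
    let s : G.Dart → Prop := fun z => (R.LG P).Reachable x0 z
    have hs1 : ∀ z, R.rep z ≠ z → (s (R.φ z) ↔ s z) := by
      intro z hz
      by_cases hne : z = R.φ z
      · rw [← hne]
      · have := (lg_φ R P hz hne).reachable
        exact ⟨fun h => h.trans this.symm, fun h => h.trans this⟩
    have hs2 : ∀ z, s (R.φ z) ↔ s z := by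
      intro z
      have h1 := R.face_const s (R.rep z) (fun z' hz' hne => hs1 z' (fun h => hne (by rw [← hz', h])))
      rw [h1 z rfl, h1 (R.φ z) (R.rep_φ z)]
    have hs3 : ∀ d : G.Dart, ¬ P.tree d → (s d.symm ↔ s d) := by
      intro d hd
      have := (lg_symm R P hd).reachable
      exact ⟨fun h => h.trans this.symm, fun h => h.trans this⟩
    have key := parity R P s ∅ (fun z _ => hs2 z) (fun d hd _ => hs3 d hd)
    have hanc : ∀ u, ¬ P.anc ∅ u := by
      rintro u ⟨x, hx, -⟩
      exact absurd hx (Finset.notMem_empty x)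
    have hσ : ∀ d, s (R.σ d) ↔ s d := fun d => (key d (hanc _)).2
    have hα : ∀ d : G.Dart, s d.symm ↔ s d := fun d => (key d (hanc _)).1
    have hσn : ∀ (n : ℕ) (d : G.Dart), s ((R.σ ^ n) d) ↔ s d := by
      intro n
      induction n with
      | zero => intro d; rfl
      | succ n ih => intro d; rw [pow_succ, Equiv.Perm.mul_apply, ih, hσ]
    have hsame : ∀ d d' : G.Dart, d.fst = d'.fst → (s d ↔ s d') := by
      intro d d' h
      obtain ⟨n, hn⟩ := R.tr d d' h
      rw [← hn, hσn]
    have hall : ∀ a b : V, G.Reachable a b → ∀ x y : G.Dart, x.fst = a → y.fst = b →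
        (s x ↔ s y) := by
      intro a b hab
      obtain ⟨p⟩ := hab
      induction p with
      | nil => intro x y hx hy; exact hsame x y (hx.trans hy.symm)
      | @cons a c b h p ih =>
        intro x y hx hy
        have k1 : s x ↔ s ⟨(a, c), h⟩ := hsame _ _ hx
        have k2 : s (⟨(a, c), h⟩ : G.Dart).symm ↔ s ⟨(a, c), h⟩ := hα _
        have k3 := ih (⟨(a, c), h⟩ : G.Dart).symm y rfl hy
        rw [k1, ← k2, k3]
    exact (hall _ _ (hc.preconnected x0.fst y0.fst) x0 y0 rfl rfl).1 (SimpleGraph.Reachable.refl _)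
  exact ⟨hpre⟩

theorem card_reps (R : Rot G) :
    (Finset.univ.filter (fun z : G.Dart => R.rep z = z)).card = R.nf := by
  unfold Rot.nf
  haveI : Fintype (Quotient (SameCycle.setoid R.φ)) := Fintype.ofFinite _
  rw [Nat.card_eq_fintype_card, ← Finset.card_univ]
  symm
  apply Finset.card_bij (fun q _ => q.out)
  · intro q _
    rw [Finset.mem_filter]
    refine ⟨Finset.mem_univ _, ?_⟩
    unfold Rot.rep
    rw [Quotient.out_eq]
  · intro q _ q' _ h
    rw [← Quotient.out_eq q, ← Quotient.out_eq q', h]
  · intro z hz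
    rw [Finset.mem_filter] at hz
    exact ⟨_, Finset.mem_univ _, hz.2⟩

theorem card_links (R : Rot G) (P : Par G) (hE : Fintype.card V + R.nf = ne G + 2) :
    (R.LG P).edgeFinset.card + 1 ≤ Fintype.card G.Dart := by
  have hD : Fintype.card G.Dart = 2 * ne G := by
    rw [SimpleGraph.dart_card_eq_twice_card_edges]
    unfold ne
    rw [Nat.card_eq_fintype_card, SimpleGraph.edgeFinset_card]
  let A : Finset G.Dart := Finset.univ.filter (fun z => ¬ R.rep z = z)
  let B : Finset G.Dart := Finset.univ.filter (fun z => ¬ P.tree z)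
  have hA : A.card + R.nf = Fintype.card G.Dart := by
    rw [← card_reps R, ← Finset.card_univ]
    have := Finset.card_filter_add_card_filter_not (s := (Finset.univ : Finset G.Dart))
      (fun z => R.rep z = z)
    simp only [A]
    omega
  have hB : B.card + 2 * Fintype.card V = Fintype.card G.Dart + 2 := by
    have h1 := card_tree_darts P
    have := Finset.card_filter_add_card_filter_not (s := (Finset.univ : Finset G.Dart))
      (fun z => P.tree z)
    rw [Finset.card_univ] at this
    simp only [B]
    omega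
  have hsub : (R.LG P).edgeFinset ⊆ A.image (fun z => s(z, R.φ z)) ∪ B.image (fun z => s(z, z.symm)) := by
    intro e he
    rw [SimpleGraph.mem_edgeFinset] at he
    induction e with
    | _ x y =>
      rw [SimpleGraph.mem_edgeSet, Rot.LG, SimpleGraph.fromRel_adj] at he
      rw [Finset.mem_union, Finset.mem_image, Finset.mem_image]
      rcases he with ⟨-, (⟨h1, h2⟩ | ⟨h1, h2⟩) | (⟨h1, h2⟩ | ⟨h1, h2⟩)⟩
      · left
        exact ⟨x, by simp [A, h2], by rw [h1]⟩
      · right
        exact ⟨x, by simp [B, h2], by rw [h1]⟩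
      · left
        exact ⟨y, by simp [A, h2], by rw [h1, Sym2.eq_swap]⟩
      · right
        exact ⟨y, by simp [B, h2], by rw [h1, Sym2.eq_swap]⟩
  have h1 : (A.image (fun z => s(z, R.φ z))).card ≤ A.card := Finset.card_image_le
  have h2 : 2 * (B.image (fun z : G.Dart => s(z, z.symm))).card ≤ B.card := by
    rw [Finset.card_eq_sum_card_image (fun z : G.Dart => s(z, z.symm)) B, mul_comm,
      ← smul_eq_mul]
    apply Finset.card_nsmul_le_sum
    intro e he
    rw [Finset.mem_image] at he
    obtain ⟨z, hz, rfl⟩ := he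
    have hz' : z.symm ∈ B := by
      simp only [B, Finset.mem_filter, Finset.mem_univ, true_and] at hz ⊢
      rwa [tree_symm]
    have hsub2 : ({z, z.symm} : Finset G.Dart) ⊆
        B.filter (fun a => s(a, a.symm) = s(z, z.symm)) := by
      intro w hw
      rw [Finset.mem_insert, Finset.mem_singleton] at hw
      rw [Finset.mem_filter]
      rcases hw with rfl | rfl
      · exact ⟨hz, rfl⟩
      · refine ⟨hz', ?_⟩
        rw [SimpleGraph.Dart.symm_symm, Sym2.eq_swap]
    have := Finset.card_le_card hsub2
    rwa [Finset.card_pair z.symm_ne.symm] at this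
  have h3 := Finset.card_le_card hsub
  have h4 := Finset.card_union_le (A.image (fun z => s(z, R.φ z))) (B.image (fun z : G.Dart => s(z, z.symm)))
  omega

theorem desc_iff {D : Type} (T : Rooted D) (y z : D) : T.desc y z ↔ (z = y ∨ T.desc y (T.π z)) := by
  unfold Rooted.desc
  constructor
  · rintro ⟨k, hk⟩
    cases k with
    | zero => left; simpa using hk
    | succ k =>
      right
      exact ⟨k, by rwa [Function.iterate_succ_apply] at hk⟩
  · rintro (h | ⟨k, hk⟩)
    · exact ⟨0, by simpa using h⟩
    · exact ⟨k + 1, by rwa [Function.iterate_succ_apply]⟩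

end

/-- the tree on the darts of a connected planar graph: link `d — φ d` except once in every face,
and `d — d.symm` for the darts not over edges of the BFS tree -/
theorem dart_tree {V : Type} [Fintype V] {G : SimpleGraph V} (R : Rot G) (P : Par G)
    (hc : G.Connected) (hn : 2 ≤ Fintype.card V) (hE : Fintype.card V + R.nf = ne G + 2) :
    ∃ T : Rooted G.Dart,
      (∀ x, (Finset.univ.filter (fun y => y ≠ T.ρ ∧ T.π y = x)).card ≤ 3) ∧
      ∀ y, y ≠ T.ρ → ∃ X : Finset V, X.card ≤ 6 ∧
        (∀ z : G.Dart, z.snd ∉ X → (T.desc y (R.φ z) ↔ T.desc y z)) ∧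
        (∀ d : G.Dart, ¬ P.tree d → d.fst ∉ X → (T.desc y d.symm ↔ T.desc y d)) := by
  obtain ⟨Q⟩ := exists_par (R.LG P) (lg_connected R P hc hn)
  let T : Rooted G.Dart := ⟨Q.r, Q.p, Q.l, Q.pr, fun x hx => Q.lp x hx⟩
  have hTρ : T.ρ = Q.r := rfl
  have hTπ : ∀ x, T.π x = Q.p x := fun _ => rfl
  -- all links are parent links
  have hall : ∀ x y, (R.LG P).Adj x y → (x ≠ T.ρ ∧ T.π x = y) ∨ (y ≠ T.ρ ∧ T.π y = x) := by
    let I : Finset (Sym2 G.Dart) := (Finset.univ.erase T.ρ).image (fun x => s(x, T.π x))
    have hI : I.card + 1 = Fintype.card G.Dart := by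
      have h1 : I.card = (Finset.univ.erase T.ρ).card := by
        apply Finset.card_image_of_injOn
        intro x hx y hy hxy
        simp only [Finset.coe_erase, Finset.coe_univ, Set.mem_diff, Set.mem_univ,
          Set.mem_singleton_iff, true_and] at hx hy
        simp only [Sym2.eq_iff] at hxy
        rcases hxy with ⟨h, -⟩ | ⟨h, h'⟩
        · exact h
        · exfalso
          have e1 := T.hh x hx
          have e2 := T.hh y hy
          rw [h'] at e1
          rw [← h] at e2
          omega
      rw [h1, Finset.card_erase_of_mem (Finset.mem_univ _), Finset.card_univ]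
      have : 0 < Fintype.card G.Dart := Fintype.card_pos_iff.2 ⟨T.ρ⟩
      omega
    have hsub : I ⊆ (R.LG P).edgeFinset := by
      intro e he
      rw [Finset.mem_image] at he
      obtain ⟨x, hx, rfl⟩ := he
      rw [SimpleGraph.mem_edgeFinset, SimpleGraph.mem_edgeSet]
      exact Q.adj x (Finset.ne_of_mem_erase hx)
    have hcard := card_links R P hE
    have heq : I = (R.LG P).edgeFinset := Finset.eq_of_subset_of_card_le hsub (by omega)
    intro x y hxy
    have hmem : s(x, y) ∈ I := by
      rw [heq, SimpleGraph.mem_edgeFinset]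
      exact hxy
    rw [Finset.mem_image] at hmem
    obtain ⟨z, hz, hz'⟩ := hmem
    have hzρ := Finset.ne_of_mem_erase hz
    rw [Sym2.eq_iff] at hz'
    rcases hz' with ⟨h1, h2⟩ | ⟨h1, h2⟩
    · left
      rw [← h1, ← h2]
      exact ⟨hzρ, rfl⟩
    · right
      rw [← h1, ← h2]
      exact ⟨hzρ, rfl⟩
  refine ⟨T, ?_, ?_⟩
  · intro x
    have hsub : Finset.univ.filter (fun y => y ≠ T.ρ ∧ T.π y = x) ⊆
        {R.φ x, R.φ.symm x, x.symm} := by
      intro y hy
      rw [Finset.mem_filter] at hy
      obtain ⟨-, h1, h2⟩ := hy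
      have hadj : (R.LG P).Adj y x := by
        rw [← h2]
        exact Q.adj y h1
      rw [Rot.LG, SimpleGraph.fromRel_adj] at hadj
      simp only [Finset.mem_insert, Finset.mem_singleton]
      rcases hadj with ⟨-, (⟨h, -⟩ | ⟨h, -⟩) | (⟨h, -⟩ | ⟨h, -⟩)⟩
      · right; left; rw [h, Equiv.symm_apply_apply]
      · right; right; rw [h, SimpleGraph.Dart.symm_symm]
      · left; exact h
      · right; right; exact h
    exact (Finset.card_le_card hsub).trans Finset.card_le_three
  · intro y hy
    have hstep : ∀ z z', (R.LG P).Adj z z' → z ≠ y ∨ z' ≠ T.π y → z' ≠ y ∨ z ≠ T.π y →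
        (T.desc y z' ↔ T.desc y z) := by
      intro z z' hzz h1 h2
      rcases hall z z' hzz with ⟨h3, h4⟩ | ⟨h3, h4⟩
      · have hzy : z ≠ y := by
          rintro rfl
          rcases h1 with h1 | h1
          · exact h1 rfl
          · exact h1 h4.symm
        rw [desc_iff T y z, h4]
        tauto
      · have hzy : z' ≠ y := by
          rintro rfl
          rcases h2 with h2 | h2
          · exact h2 rfl
          · exact h2 h4.symm
        rw [desc_iff T y z', h4]
        tauto
    refine ⟨{y.snd, (T.π y).snd, y.fst, (T.π y).fst, (R.rep y).snd, (R.rep (T.π y)).snd}, ?_, ?_, ?_⟩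
    · exact Finset.card_le_six
    · intro z hz
      simp only [Finset.mem_insert, Finset.mem_singleton, not_or] at hz
      obtain ⟨z1, z2, -, -, z5, z6⟩ := hz
      have hlink : ∀ z', z' ≠ y → z' ≠ T.π y → R.rep z' ≠ z' →
          (T.desc y (R.φ z') ↔ T.desc y z') := by
        intro z' k1 k2 k3
        by_cases hne : z' = R.φ z'
        · rw [← hne]
        · exact hstep z' (R.φ z') (lg_φ R P k3 hne) (Or.inl k1) (Or.inr k2)
      by_cases hlast : R.rep z = z
      · have h1 := R.face_const (fun d => T.desc y d) z (fun z' hz' hne => by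
          apply hlink z'
          · rintro rfl
            exact z5 (by rw [hz'])
          · rintro rfl
            exact z6 (by rw [hz'])
          · intro h
            exact hne (by rw [← hz', h]))
        exact h1 (R.φ z) (by rw [R.rep_φ, hlast])
      · apply hlink z _ _ hlast
        · rintro rfl; exact z1 rfl
        · rintro rfl; exact z2 rfl
    · intro d hd hX
      simp only [Finset.mem_insert, Finset.mem_singleton, not_or] at hX
      obtain ⟨-, -, z3, z4, -, -⟩ := hX
      apply hstep d d.symm (lg_symm R P hd)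
      · left; rintro rfl; exact z3 rfl
      · right; rintro rfl; exact z4 rfl

end Pool.Agent.H99.SF
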