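import Pool.Agent.H47.PT.Defs

/-!
# Strong fractional choice number of planar graphs without 4-cycles and 5-cycles: definitions
-/

namespace Pool.Agent.H99.SF

/-- `G` contains no cycle of length `k` (as a subgraph, not necessarily induced). -/
def NoCyc {V : Type} (G : SimpleGraph V) (k : ℕ) : Prop :=
  ∀ (v : V) (p : G.Walk v v), p.IsCycle → p.length ≠ k

/-- `G` is `(a,b)`-choosable: for every assignment `L` of sets of `a` integers to the vertices there
is an assignment `S` of `b`-element subsets, disjoint for adjacent vertices. -/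
def Choosable {V : Type} (G : SimpleGraph V) (a b : ℕ) : Prop :=
  ∀ L : V → Finset ℤ, (∀ v, (L v).card = a) →
    ∃ S : V → Finset ℤ, (∀ v, S v ⊆ L v ∧ (S v).card = b) ∧
      ∀ u v, G.Adj u v → Disjoint (S u) (S v)

/-- `G` is strongly fractional `r`-choosable: it is `(a,b)`-choosable for all positive integers
`a`, `b` with `a / b ≥ r`. -/
def StronglyFracChoosable {V : Type} (G : SimpleGraph V) (r : ℝ) : Prop :=
  ∀ a b : ℕ, 1 ≤ a → 1 ≤ b → r ≤ (a : ℝ) / (b : ℝ) → Choosable G a b

/-- the strong fractional choice number of a graph -/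
noncomputable def chsf {V : Type} (G : SimpleGraph V) : ℝ :=
  sInf {r : ℝ | StronglyFracChoosable G r}

/-- the values of the strong fractional choice number on the class `P_{4,5}` of (nonempty finite)
planar graphs without cycles of length `4` and without cycles of length `5` -/
def valuesP45 : Set ℝ :=
  {x : ℝ | ∃ (n : ℕ) (G : SimpleGraph (Fin (n + 1))), Pool.Agent.H47.PT.IsPlanar G ∧
    NoCyc G 4 ∧ NoCyc G 5 ∧ x = chsf G}

/-- the strong fractional choice number of the class `P_{4,5}` -/
noncomputable def chsfP45 : ℝ := sSup valuesP45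

end Pool.Agent.H99.SF
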