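import Pool.Agent.H99.SF.Rules

/-!
# A set meeting fewer than `2|S|` edges contains a reducible set (paper: (A))
-/

namespace Pool.Agent.H99.SF

open Classical

/-- the edges meeting `S` -/
private noncomputable def eS {V : Type} [Fintype V] (G : SimpleGraph V) (S : Finset V) :
    Finset (Sym2 V) :=
  Finset.univ.filter (fun e : Sym2 V => e ∈ G.edgeSet ∧ ∃ v ∈ S, v ∈ e)

private theorem count_pairs {V : Type} [Fintype V] (G : SimpleGraph V) (S Z : Finset V)
    (hZ : Z ⊆ S) :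
    ∑ v ∈ Z, ((Z.filter (fun u => G.Adj v u)).card + 2 * out G S v) ≤
      2 * (eS G S \ eS G (S \ Z)).card := by
  set P1 : Finset (V × V) := Z.sigma (fun v => Z.filter (fun u => G.Adj v u)) |>.image
    (fun p => (p.1, p.2)) with hP1
  set P2 : Finset (V × V) := Z.sigma (fun v => nb G v \ S) |>.image
    (fun p => (p.1, p.2)) with hP2
  set P3 : Finset (V × V) := Z.sigma (fun v => nb G v \ S) |>.image
    (fun p => (p.2, p.1)) with hP3
  have m1 : ∀ p, p ∈ P1 ↔ p.1 ∈ Z ∧ p.2 ∈ Z ∧ G.Adj p.1 p.2 := by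
    rintro ⟨x, y⟩
    simp only [hP1, Finset.mem_image, Finset.mem_sigma, Finset.mem_filter, Prod.mk.injEq]
    constructor
    · rintro ⟨⟨a, b⟩, h, rfl, rfl⟩; exact h
    · rintro h; exact ⟨⟨x, y⟩, h, rfl, rfl⟩
  have m2 : ∀ p, p ∈ P2 ↔ p.1 ∈ Z ∧ p.2 ∉ S ∧ G.Adj p.1 p.2 := by
    rintro ⟨x, y⟩
    simp only [hP2, Finset.mem_image, Finset.mem_sigma, Finset.mem_sdiff, mem_nb, Prod.mk.injEq]
    constructor
    · rintro ⟨⟨a, b⟩, h, rfl, rfl⟩; exact ⟨h.1, h.2.2, h.2.1⟩
    · rintro h; exact ⟨⟨x, y⟩, ⟨h.1, h.2.2, h.2.1⟩, rfl, rfl⟩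
  have m3 : ∀ p, p ∈ P3 ↔ p.2 ∈ Z ∧ p.1 ∉ S ∧ G.Adj p.2 p.1 := by
    rintro ⟨x, y⟩
    simp only [hP3, Finset.mem_image, Finset.mem_sigma, Finset.mem_sdiff, mem_nb, Prod.mk.injEq]
    constructor
    · rintro ⟨⟨a, b⟩, h, rfl, rfl⟩; exact ⟨h.1, h.2.2, h.2.1⟩
    · rintro h; exact ⟨⟨y, x⟩, ⟨h.1, h.2.2, h.2.1⟩, rfl, rfl⟩
  have c1 : P1.card = ∑ v ∈ Z, (Z.filter (fun u => G.Adj v u)).card := by
    rw [hP1, Finset.card_image_of_injective, Finset.card_sigma]
    rintro ⟨a, b⟩ ⟨c, d⟩ h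
    simp only [Prod.mk.injEq] at h
    obtain ⟨rfl, rfl⟩ := h; rfl
  have c2 : P2.card = ∑ v ∈ Z, out G S v := by
    rw [hP2, Finset.card_image_of_injective, Finset.card_sigma]
    · rfl
    rintro ⟨a, b⟩ ⟨c, d⟩ h
    simp only [Prod.mk.injEq] at h
    obtain ⟨rfl, rfl⟩ := h; rfl
  have c3 : P3.card = ∑ v ∈ Z, out G S v := by
    rw [hP3, Finset.card_image_of_injective, Finset.card_sigma]
    · rfl
    rintro ⟨a, b⟩ ⟨c, d⟩ h
    simp only [Prod.mk.injEq] at h
    obtain ⟨rfl, rfl⟩ := h; rfl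
  have d12 : Disjoint P1 P2 := by
    rw [Finset.disjoint_left]
    intro p h1 h2
    exact ((m2 p).1 h2).2.1 (hZ ((m1 p).1 h1).2.1)
  have d123 : Disjoint (P1 ∪ P2) P3 := by
    rw [Finset.disjoint_left]
    intro p h1 h3
    rcases Finset.mem_union.1 h1 with h | h
    · exact ((m3 p).1 h3).2.1 (hZ ((m1 p).1 h).1)
    · exact ((m3 p).1 h3).2.1 (hZ ((m2 p).1 h).1)
  have hD : ((P1 ∪ P2) ∪ P3).card ≤ 2 * (eS G S \ eS G (S \ Z)).card := by
    apply Finset.card_le_mul_card_image_of_maps_to (f := fun p : V × V => s(p.1, p.2))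
    · rintro ⟨x, y⟩ h
      simp only [Finset.mem_union] at h
      simp only [Finset.mem_sdiff, eS, Finset.mem_filter, Finset.mem_univ, true_and,
        SimpleGraph.mem_edgeSet, Sym2.mem_iff, not_and, not_exists]
      rcases h with (h | h) | h
      · obtain ⟨hx, hy, hxy⟩ := (m1 _).1 h
        refine ⟨⟨hxy, x, hZ hx, Or.inl rfl⟩, ?_⟩
        rintro _ z ⟨hz1, hz2⟩ (rfl | rfl)
        · exact hz2 hx
        · exact hz2 hy
      · obtain ⟨hx, hy, hxy⟩ := (m2 _).1 h
        refine ⟨⟨hxy, x, hZ hx, Or.inl rfl⟩, ?_⟩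
        rintro _ z ⟨hz1, hz2⟩ (rfl | rfl)
        · exact hz2 hx
        · exact hy hz1
      · obtain ⟨hy, hx, hxy⟩ := (m3 _).1 h
        refine ⟨⟨hxy.symm, y, hZ hy, Or.inr rfl⟩, ?_⟩
        rintro _ z ⟨hz1, hz2⟩ (rfl | rfl)
        · exact hx hz1
        · exact hz2 hy
    · intro e _
      induction e using Sym2.ind with
      | _ x y =>
        refine le_trans (Finset.card_le_card (t := {(x, y), (y, x)}) ?_) Finset.card_le_two
        rintro ⟨a, b⟩ h
        rw [Finset.mem_filter] at h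
        have h2 : s(a, b) = s(x, y) := h.2
        rw [Sym2.eq_iff] at h2
        rcases h2 with ⟨rfl, rfl⟩ | ⟨rfl, rfl⟩ <;> simp
  rw [Finset.card_union_of_disjoint d123, Finset.card_union_of_disjoint d12, c1, c2, c3] at hD
  rw [Finset.sum_add_distrib, ← Finset.mul_sum]
  omega

theorem elimA {V : Type} [Fintype V] (G : SimpleGraph V) (hf : Free45 G) (S0 : Finset V)
    (h : inc G S0 < 2 * S0.card) :
    ∃ S : Finset V, S ⊆ S0 ∧ S.Nonempty ∧ (∀ v ∈ S, out G S v ≤ 1) ∧
      Good G S (cc G S) S.card := by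
  obtain ⟨S, hS, hmin⟩ := Finset.exists_min_image S0.powerset
    (fun S => ((inc G S : ℤ) - 2 * (S.card : ℤ)) * ((S0.card : ℤ) + 1) + (S.card : ℤ))
    ⟨S0, Finset.mem_powerset_self _⟩
  have hSS := Finset.mem_powerset.1 hS
  have hneg : ((inc G S : ℤ) - 2 * (S.card : ℤ)) * ((S0.card : ℤ) + 1) + (S.card : ℤ) < 0 := by
    refine lt_of_le_of_lt (hmin S0 (Finset.mem_powerset_self _)) ?_
    have h1 : (inc G S0 : ℤ) - 2 * (S0.card : ℤ) ≤ -1 := by omega
    nlinarith [(Nat.cast_nonneg S0.card : (0 : ℤ) ≤ (S0.card : ℤ))]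
  have hne : S.Nonempty := by
    rcases S.eq_empty_or_nonempty with rfl | h0
    · exfalso
      simp [inc] at hneg
    · exact h0
  -- strict subsets have larger potential
  have key : ∀ Z ⊆ S, Z.Nonempty → inc G S < inc G (S \ Z) + 2 * Z.card := by
    intro Z hZ hZne
    have h1 := hmin (S \ Z) (Finset.mem_powerset.2 (Finset.sdiff_subset.trans hSS))
    have h2 : (S \ Z).card + Z.card = S.card := Finset.card_sdiff_add_card_eq_card hZ
    have h3 : 0 < Z.card := hZne.card_pos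
    by_contra hcon
    push Not at hcon
    have h4 : (inc G (S \ Z) : ℤ) - 2 * ((S \ Z).card : ℤ) ≤ (inc G S : ℤ) - 2 * (S.card : ℤ) := by
      omega
    have h5 : ((inc G (S \ Z) : ℤ) - 2 * ((S \ Z).card : ℤ)) * ((S0.card : ℤ) + 1) ≤
        ((inc G S : ℤ) - 2 * (S.card : ℤ)) * ((S0.card : ℤ) + 1) :=
      mul_le_mul_of_nonneg_right h4 (by positivity)
    omega
  have pick : ∀ Z ⊆ S, Z.Nonempty →
      ∃ v ∈ Z, (Z.filter (fun u => G.Adj v u)).card + 2 * out G S v ≤ 3 := by
    intro Z hZ hZne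
    by_contra hcon
    push Not at hcon
    have h1 := count_pairs G S Z hZ
    have h2 : ∑ v ∈ Z, 4 ≤ ∑ v ∈ Z, ((Z.filter (fun u => G.Adj v u)).card + 2 * out G S v) :=
      Finset.sum_le_sum (fun v hv => hcon v hv)
    rw [Finset.sum_const, smul_eq_mul] at h2
    have h3 := key Z hZ hZne
    have h4 : eS G (S \ Z) ⊆ eS G S := by
      intro e he
      simp only [eS, Finset.mem_filter, Finset.mem_univ, true_and, Finset.mem_sdiff] at he ⊢
      obtain ⟨he1, v, hv, hve⟩ := he
      exact ⟨he1, v, hv.1, hve⟩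
    have h5 : (eS G S \ eS G (S \ Z)).card + (eS G (S \ Z)).card = (eS G S).card :=
      Finset.card_sdiff_add_card_eq_card h4
    have h6 : (eS G S).card = inc G S := rfl
    have h7 : (eS G (S \ Z)).card = inc G (S \ Z) := rfl
    omega
  have hout : ∀ v ∈ S, out G S v ≤ 1 := by
    intro v hv
    obtain ⟨u, hu, hu2⟩ := pick {v} (Finset.singleton_subset_iff.2 hv) ⟨v, by simp⟩
    rw [Finset.mem_singleton] at hu
    subst hu
    omega
  refine ⟨S, hSS, hne, hout, ?_⟩
  have hc4 : ∀ v, cc G S v ≤ 4 := fun v => Nat.sub_le _ _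
  have main : ∀ n : ℕ, ∀ Z ⊆ S, Z.card = n → Good G Z (cc G S) n := by
    intro n
    induction n with
    | zero =>
      intro Z _ hZ
      rw [Finset.card_eq_zero] at hZ
      subst hZ
      exact good_empty G _ _
    | succ n ih =>
      intro Z hZ hZn
      have hZne : Z.Nonempty := by rw [← Finset.card_pos]; omega
      obtain ⟨v, hv, hv3⟩ := pick Z hZ hZne
      have hcard : (Z.erase v).card = n := by rw [Finset.card_erase_of_mem hv]; omega
      have hg := ih (Z.erase v) ((Finset.erase_subset _ _).trans hZ) hcard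
      have hfil : (Z.erase v).filter (fun u => G.Adj v u) = Z.filter (fun u => G.Adj v u) := by
        ext u
        simp only [Finset.mem_filter, Finset.mem_erase]
        constructor
        · rintro ⟨⟨_, h1⟩, h2⟩; exact ⟨h1, h2⟩
        · rintro ⟨h1, h2⟩; exact ⟨⟨h2.ne', h1⟩, h2⟩
      rw [← Finset.insert_erase hv]
      have hvS := hout v (hZ hv)
      by_cases hR : (Z.filter (fun u => G.Adj v u)).card + 2 ≤ cc G S v
      · exact good_R1 hg hc4 (Finset.notMem_erase v Z) (by rw [hfil]; exact hR)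
      · have hcv : cc G S v = 4 - out G S v := rfl
        have h0 : out G S v = 0 := by omega
        have h3 : (Z.filter (fun u => G.Adj v u)).card = 3 := by omega
        obtain ⟨x, y, z, hxy, hxz, hyz, hset⟩ := Finset.card_eq_three.1 h3
        have hmem : ∀ u, u = x ∨ u = y ∨ u = z → u ∈ Z.filter (fun u => G.Adj v u) := by
          intro u hu
          rw [hset]
          simp only [Finset.mem_insert, Finset.mem_singleton]
          exact hu
        have hx := Finset.mem_filter.1 (hmem x (Or.inl rfl))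
        have hy := Finset.mem_filter.1 (hmem y (Or.inr (Or.inl rfl)))
        have hz := Finset.mem_filter.1 (hmem z (Or.inr (Or.inr rfl)))
        have e3 : ∀ u ∈ Z, 3 ≤ cc G S u := by
          intro u hu
          have := hout u (hZ hu)
          have h9 : cc G S u = 4 - out G S u := rfl
          omega
        have hle : ((Z.erase v).filter (fun u => G.Adj v u)).card + 1 ≤ cc G S v := by
          rw [hfil]; omega
        by_cases hxyA : G.Adj x y
        · have hyzA : ¬ G.Adj y z := by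
            intro hyzA
            exact hf.c4 v x y z hx.2 hxyA hyzA hz.2.symm hy.2.ne hxz
          exact good_R2 hg hc4 (Finset.notMem_erase v Z) hle
            (Finset.mem_erase.2 ⟨hy.2.ne', hy.1⟩) (Finset.mem_erase.2 ⟨hz.2.ne', hz.1⟩)
            hy.2 hz.2 hyz hyzA (by have := e3 y hy.1; have := e3 z hz.1; omega)
        · exact good_R2 hg hc4 (Finset.notMem_erase v Z) hle
            (Finset.mem_erase.2 ⟨hx.2.ne', hx.1⟩) (Finset.mem_erase.2 ⟨hy.2.ne', hy.1⟩)
            hx.2 hy.2 hxy hxyA (by have := e3 x hx.1; have := e3 y hy.1; omega)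
  exact main S.card S (Finset.Subset.refl _) rfl

end Pool.Agent.H99.SF
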