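import Pool.Agent.H99.SF.Basic

/-!
# Flat patches
-/

namespace Pool.Agent.H99.SF

/-- A flat (kagome) patch: a hexagon `v`, the tips `w` of the six triangles at its edges, and for
each `i` the rest `a i, b i, c i` of the hexagon `v i, w i, a i, b i, c i, w (i-1)`.
Coincidences between the `a`, `b`, `c` are allowed. -/
structure Flat {V : Type} [Fintype V] (G : SimpleGraph V) (v w a b c : Fin 6 → V) : Prop where
  vinj : Function.Injective v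
  vv : ∀ i, G.Adj (v i) (v (i + 1))
  vw : ∀ i, G.Adj (v i) (w i)
  vw' : ∀ i, G.Adj (v (i + 1)) (w i)
  wa : ∀ i, G.Adj (w i) (a i)
  wc : ∀ i, G.Adj (w i) (c (i + 1))
  ac : ∀ i, G.Adj (a i) (c (i + 1))
  ab : ∀ i, G.Adj (a i) (b i)
  bc : ∀ i, G.Adj (b i) (c i)
  dv : ∀ i, (nb G (v i)).card = 4
  dw : ∀ i, (nb G (w i)).card = 4
  da : ∀ i, (nb G (a i)).card ≤ 4
  db : ∀ i, (nb G (b i)).card ≤ 4
  dc : ∀ i, (nb G (c i)).card ≤ 4
  nv : ∀ i x, G.Adj (v i) x → x = v (i + 1) ∨ x = v (i - 1) ∨ x = w i ∨ x = w (i - 1)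
  nw : ∀ i x, G.Adj (w i) x → x = v i ∨ x = v (i + 1) ∨ x = a i ∨ x = c (i + 1)
  bw : ∀ i, b i ≠ w i
  bw' : ∀ i, b i ≠ w (i - 1)
  bc' : ∀ i, b i ≠ c (i + 1)
  ba' : ∀ i, b i ≠ a (i - 1)
  ac' : ∀ i, a i ≠ c i

end Pool.Agent.H99.SF
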