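import Pool.Agent.H99.SF.Rules
import Pool.Agent.H99.SF.Flat

/-!
# Flat patches are reducible (paper: (B))
-/

namespace Pool.Agent.H99.SF

open Classical


/-- growing a good set one vertex at a time, from `A` to `B` -/
theorem good_grow {V : Type} {G : SimpleGraph V} {c : V → ℕ} (A B : Finset V) (hAB : A ⊆ B)
    (m k : ℕ) (hm : (B \ A).card ≤ m)
    (hstep : ∀ (S : Finset V) (k : ℕ), A ⊆ S → S ⊆ B → ∀ x ∈ B \ S, Good G S c k →
      Good G (insert x S) c (k + 1)) (hA : Good G A c k) : Good G B c (k + m) := by
  have key : ∀ (n : ℕ) (S : Finset V) (k : ℕ), A ⊆ S → S ⊆ B → (B \ S).card = n →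
      Good G S c k → Good G B c (k + n) := by
    intro n
    induction n with
    | zero =>
      intro S k _ hSB hcard hS
      have h1 : S = B := by
        apply Finset.Subset.antisymm hSB
        rwa [Finset.card_eq_zero, Finset.sdiff_eq_empty_iff_subset] at hcard
      rw [← h1]
      exact hS
    | succ n ih =>
      intro S k hAS hSB hcard hS
      obtain ⟨x, hx⟩ : (B \ S).Nonempty := by
        rw [← Finset.card_pos]
        omega
      have h1 := hstep S k hAS hSB x hx hS
      have h2 : (B \ insert x S).card = n := by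
        have h3 : B \ insert x S = (B \ S).erase x := by
          ext y
          simp only [Finset.mem_sdiff, Finset.mem_insert, Finset.mem_erase, not_or]
          tauto
        rw [h3, Finset.card_erase_of_mem hx, hcard]
        rfl
      have h3 := ih (insert x S) (k + 1) (hAS.trans (Finset.subset_insert x S))
        (Finset.insert_subset (Finset.mem_sdiff.1 hx).1 hSB) h2 h1
      have h4 : k + 1 + n = k + (n + 1) := by ring
      rwa [h4] at h3
  exact good_mono (by omega) (key _ A k (Finset.Subset.refl A) hAB rfl hA)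

section
variable {V : Type} [Fintype V]

/-- Counting the neighbours: outside `S`, in `S'`, and two further ones. -/
theorem nb_two (G : SimpleGraph V) {S S' : Finset V} (hS' : S' ⊆ S) {x p q : V}
    (hd : (nb G x).card ≤ 4) (hp : G.Adj x p) (hq : G.Adj x q) (hpq : p ≠ q) (hpS : p ∈ S)
    (hqS : q ∈ S) (hpS' : p ∉ S') (hqS' : q ∉ S') :
    (S'.filter (fun u => G.Adj x u)).card + 2 ≤ cc G S x := by
  have h1 : S'.filter (fun u => G.Adj x u) ∪ {p, q} ∪ (nb G x \ S) ⊆ nb G x := by
    intro y hy
    simp only [Finset.mem_union, Finset.mem_filter, Finset.mem_insert, Finset.mem_singleton,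
      Finset.mem_sdiff] at hy
    rw [mem_nb]
    rcases hy with (hy | hy | hy) | hy
    · exact hy.2
    · rw [hy]; exact hp
    · rw [hy]; exact hq
    · exact mem_nb.1 hy.1
  have h2 := Finset.card_le_card h1
  have h3 : Disjoint (S'.filter (fun u => G.Adj x u) ∪ {p, q}) (nb G x \ S) := by
    rw [Finset.disjoint_left]
    intro y hy hy'
    simp only [Finset.mem_union, Finset.mem_filter, Finset.mem_insert, Finset.mem_singleton] at hy
    apply (Finset.mem_sdiff.1 hy').2
    rcases hy with hy | hy | hy
    · exact hS' hy.1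
    · rw [hy]; exact hpS
    · rw [hy]; exact hqS
  have h4 : Disjoint (S'.filter (fun u => G.Adj x u)) ({p, q} : Finset V) := by
    rw [Finset.disjoint_left]
    intro y hy hy'
    simp only [Finset.mem_insert, Finset.mem_singleton] at hy'
    have h5 := (Finset.mem_filter.1 hy).1
    rcases hy' with h | h
    · exact hpS' (h ▸ h5)
    · exact hqS' (h ▸ h5)
  rw [Finset.card_union_of_disjoint h3, Finset.card_union_of_disjoint h4,
    Finset.card_pair hpq] at h2
  unfold cc out
  omega

/-- Lower bound for the residual size from a set of neighbours in `S`. -/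
theorem cc_ge (G : SimpleGraph V) {S T : Finset V} {x : V} (hd : (nb G x).card ≤ 4)
    (hT : T ⊆ S) (hT' : T ⊆ nb G x) : T.card ≤ cc G S x := by
  have h1 : T ∪ (nb G x \ S) ⊆ nb G x := Finset.union_subset hT' Finset.sdiff_subset
  have h2 := Finset.card_le_card h1
  have h3 : Disjoint T (nb G x \ S) := by
    rw [Finset.disjoint_left]
    intro y hy hy'
    exact (Finset.mem_sdiff.1 hy').2 (hT hy)
  rw [Finset.card_union_of_disjoint h3] at h2
  unfold cc out
  omega

theorem cc_le (G : SimpleGraph V) (S : Finset V) (x : V) : cc G S x ≤ 4 := by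
  unfold cc
  omega

theorem cc_full (G : SimpleGraph V) {S : Finset V} {x : V} (h : ∀ y, G.Adj x y → y ∈ S) :
    cc G S x = 4 := by
  have h1 : nb G x \ S = ∅ := by
    ext y
    simp only [Finset.mem_sdiff, mem_nb, Finset.notMem_empty, iff_false, not_and, not_not]
    exact h y
  unfold cc out
  rw [h1, Finset.card_empty]

omit [Fintype V] in
/-- one stage: the images of `f` not in `P` are added one by one -/
theorem good_stage {G : SimpleGraph V} {c : V → ℕ} {S P : Finset V} (f : Fin 6 → V) (k : ℕ)
    (hstep : ∀ (S' : Finset V) (k : ℕ) (i : Fin 6), S' ⊆ S \ P → f i ∉ S' →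
      S \ (P ∪ Finset.univ.image f) ⊆ S' → Good G S' c k → Good G (insert (f i) S') c (k + 1))
    (h : Good G (S \ (P ∪ Finset.univ.image f)) c k) : Good G (S \ P) c (k + 6) := by
  have hmem : ∀ x, x ∈ S \ P → x ∉ S \ (P ∪ Finset.univ.image f) →
      x ∈ Finset.univ.image f := by
    intro x hx hx'
    rw [Finset.mem_sdiff] at hx hx'
    by_contra hcon
    apply hx'
    refine ⟨hx.1, fun h2 => ?_⟩
    rcases Finset.mem_union.1 h2 with h3 | h3
    · exact hx.2 h3
    · exact hcon h3
  apply good_grow (S \ (P ∪ Finset.univ.image f)) (S \ P) _ 6 k _ _ h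
  · exact Finset.sdiff_subset_sdiff (Finset.Subset.refl _) Finset.subset_union_left
  · have h1 : ((S \ P) \ (S \ (P ∪ Finset.univ.image f))).card ≤
        (Finset.univ.image f).card := by
      apply Finset.card_le_card
      intro x hx
      rw [Finset.mem_sdiff] at hx
      exact hmem x hx.1 hx.2
    have h2 := Finset.card_image_le (s := (Finset.univ : Finset (Fin 6))) (f := f)
    rw [Finset.card_univ, Fintype.card_fin] at h2
    omega
  · intro S' k hS1 hS2 x hx hg
    rw [Finset.mem_sdiff] at hx
    have h3 := hmem x hx.1 (fun h4 => hx.2 (hS1 h4))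
    obtain ⟨i, _, rfl⟩ := Finset.mem_image.1 h3
    exact hstep S' k i hS2 hx.2 hS1 hg

/-- the hexagon has no chords -/
theorem flat_chord {G : SimpleGraph V} (hf : Free45 G) {v w a b c : Fin 6 → V}
    (h : Flat G v w a b c) (i j : Fin 6) (hij : G.Adj (v i) (v j)) : j = i + 1 ∨ i = j + 1 := by
  have e1 := h.vv i
  have e2 := h.vv (i + 1)
  have e3 := h.vv (i + 2)
  have e4 := h.vv (i + 3)
  have e5 := h.vv (i + 4)
  have e6 := h.vv (i + 5)
  have c2 : ∀ i : Fin 6, i + 1 + 1 = i + 2 := by decide
  have c3 : ∀ i : Fin 6, i + 2 + 1 = i + 3 := by decide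
  have c4 : ∀ i : Fin 6, i + 3 + 1 = i + 4 := by decide
  have c5 : ∀ i : Fin 6, i + 4 + 1 = i + 5 := by decide
  have c6 : ∀ i : Fin 6, i + 5 + 1 = i := by decide
  rw [c2] at e2
  rw [c3] at e3
  rw [c4] at e4
  rw [c5] at e5
  rw [c6] at e6
  have hne : ∀ s t : Fin 6, s ≠ t → v (i + s) ≠ v (i + t) := by
    intro s t hst hh
    exact hst (add_left_cancel (h.vinj hh))
  have hj : ∀ i j : Fin 6, j = i ∨ j = i + 1 ∨ j = i + 2 ∨ j = i + 3 ∨ j = i + 4 ∨ i = j + 1 := by
    decide
  rcases hj i j with h1 | h1 | h1 | h1 | h1 | h1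
  · subst h1
    exact absurd hij (G.loopless.irrefl _)
  · exact Or.inl h1
  · subst h1
    exfalso
    have q0 := hne 0 3 (by decide)
    have q1 := hne 0 4 (by decide)
    have q2 := hne 2 4 (by decide)
    have q3 := hne 2 5 (by decide)
    have q4 := hne 3 5 (by decide)
    rw [add_zero] at q0 q1
    exact hf.c5 (v i) (v (i + 2)) (v (i + 3)) (v (i + 4)) (v (i + 5)) hij e3 e4 e5 e6
      q0 q1 q2 q3 q4
  · subst h1
    exfalso
    have q0 := hne 0 2 (by decide)
    have q1 := hne 1 3 (by decide)
    rw [add_zero] at q0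
    exact hf.c4 (v i) (v (i + 1)) (v (i + 2)) (v (i + 3)) e1 e2 e3 hij.symm q0 q1
  · subst h1
    exfalso
    have q0 := hne 0 2 (by decide)
    have q1 := hne 0 3 (by decide)
    have q2 := hne 1 3 (by decide)
    have q3 := hne 1 4 (by decide)
    have q4 := hne 2 4 (by decide)
    rw [add_zero] at q0 q1
    exact hf.c5 (v i) (v (i + 1)) (v (i + 2)) (v (i + 3)) (v (i + 4)) e1 e2 e3 e4 hij.symm
      q0 q1 q2 q3 q4
  · exact Or.inr h1

/-- the tips are not in the hexagon -/
theorem flat_tip {G : SimpleGraph V} (hf : Free45 G) {v w a b c : Fin 6 → V}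
    (h : Flat G v w a b c) (i j : Fin 6) : w i ≠ v j := by
  intro hij
  have h1 := h.vw i
  have h2 := h.vw' i
  rw [hij] at h1 h2
  have h3 := flat_chord hf h i j h1
  have h4 := flat_chord hf h (i + 1) j h2
  have : ∀ i j : Fin 6, ¬ ((j = i + 1 ∨ i = j + 1) ∧ (j = i + 1 + 1 ∨ i + 1 = j + 1)) := by
    decide
  exact this i j ⟨h3, h4⟩

/-- the stage of the `a i` -/
theorem flat_a {G : SimpleGraph V} (hf : Free45 G) {v w a b c : Fin 6 → V}
    (h : Flat G v w a b c) {S S' : Finset V} {k : ℕ} (hS' : S' ⊆ S) (sw : ∀ i, w i ∈ S)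
    (sa : ∀ i, a i ∈ S) (sb : ∀ i, b i ∈ S) (sc : ∀ i, c i ∈ S) (i : Fin 6) (hwi : w i ∉ S')
    (hx2 : a i ∉ S') (hg : Good G S' (cc G S) k) : Good G (insert (a i) S') (cc G S) (k + 1) := by
  by_cases hb' : b i ∈ S'
  · by_cases hc' : c (i + 1) ∈ S'
    · -- two coloured non-adjacent neighbours
      have hna : ¬ G.Adj (b i) (c (i + 1)) := fun hadj =>
        hf.c4 (w i) (a i) (b i) (c (i + 1)) (h.wa i) (h.ab i) hadj (h.wc i).symm
          (h.bw i).symm (h.ac i).ne
      have q1 : 2 ≤ cc G S (b i) := by
        have h1 := cc_ge G (S := S) (T := {a i, c i}) (h.db i) (by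
          intro y hy
          simp only [Finset.mem_insert, Finset.mem_singleton] at hy
          rcases hy with rfl | rfl
          · exact sa i
          · exact sc i) (by
          intro y hy
          simp only [Finset.mem_insert, Finset.mem_singleton] at hy
          rw [mem_nb]
          rcases hy with rfl | rfl
          · exact (h.ab i).symm
          · exact h.bc i)
        rwa [Finset.card_pair (h.ac' i)] at h1
      have q2 : 3 ≤ cc G S (c (i + 1)) := by
        have h1 := cc_ge G (S := S) (T := {w i, a i, b (i + 1)}) (h.dc (i + 1)) (by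
          intro y hy
          simp only [Finset.mem_insert, Finset.mem_singleton] at hy
          rcases hy with rfl | rfl | rfl
          · exact sw i
          · exact sa i
          · exact sb _) (by
          intro y hy
          simp only [Finset.mem_insert, Finset.mem_singleton] at hy
          rw [mem_nb]
          rcases hy with rfl | rfl | rfl
          · exact (h.wc i).symm
          · exact (h.ac i).symm
          · exact (h.bc (i + 1)).symm)
        have d1 := h.bw' (i + 1)
        have d2 := h.ba' (i + 1)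
        rw [add_sub_cancel_right] at d1 d2
        rwa [Finset.card_eq_three.2 ⟨w i, a i, b (i + 1), (h.wa i).ne, d1.symm, d2.symm,
          rfl⟩] at h1
      have q3 := cc_le G S (a i)
      have hk : (S'.filter (fun u => G.Adj (a i) u)).card + 1 ≤ cc G S (a i) := by
        -- neighbours: outside S, in S', and w i
        have h1 : S'.filter (fun u => G.Adj (a i) u) ∪ {w i} ∪ (nb G (a i) \ S) ⊆
            nb G (a i) := by
          intro y hy
          simp only [Finset.mem_union, Finset.mem_filter, Finset.mem_singleton,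
            Finset.mem_sdiff] at hy
          rw [mem_nb]
          rcases hy with (hy | hy) | hy
          · exact hy.2
          · rw [hy]; exact (h.wa i).symm
          · exact mem_nb.1 hy.1
        have h2 := Finset.card_le_card h1
        have h3 : Disjoint (S'.filter (fun u => G.Adj (a i) u) ∪ {w i})
            (nb G (a i) \ S) := by
          rw [Finset.disjoint_left]
          intro y hy hy'
          simp only [Finset.mem_union, Finset.mem_filter, Finset.mem_singleton] at hy
          apply (Finset.mem_sdiff.1 hy').2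
          rcases hy with hy | hy
          · exact hS' hy.1
          · rw [hy]; exact sw i
        have h4 : Disjoint (S'.filter (fun u => G.Adj (a i) u)) ({w i} : Finset V) := by
          rw [Finset.disjoint_left]
          intro y hy hy'
          rw [Finset.mem_singleton] at hy'
          exact hwi (hy' ▸ (Finset.mem_filter.1 hy).1)
        rw [Finset.card_union_of_disjoint h3, Finset.card_union_of_disjoint h4,
          Finset.card_singleton] at h2
        have h5 := h.da i
        unfold cc out
        omega
      exact good_R2 hg (cc_le G S) hx2 hk hb' hc' (h.ab i) (h.ac i) (h.bc' i) hna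
        (by omega)
    · exact good_R1 hg (cc_le G S) hx2 (nb_two G hS' (h.da i) (h.wa i).symm (h.ac i)
        (h.wc i).ne (sw i) (sc _) hwi hc')
  · exact good_R1 hg (cc_le G S) hx2 (nb_two G hS' (h.da i) (h.wa i).symm (h.ab i)
      (h.bw i).symm (sw i) (sb _) hwi hb')

theorem elimB (G : SimpleGraph V) (hf : Free45 G) (v w a b c : Fin 6 → V)
    (h : Flat G v w a b c) :
    ∃ S : Finset V, S.Nonempty ∧ (∀ x ∈ S, out G S x ≤ 4) ∧ Good G S (cc G S) 30 := by
  have mi : ∀ (f : Fin 6 → V) (i : Fin 6), f i ∈ Finset.univ.image f :=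
    fun f i => Finset.mem_image_of_mem f (Finset.mem_univ i)
  -- the set
  obtain ⟨S, hS⟩ : ∃ S : Finset V, S = ∅ ∪ Finset.univ.image v ∪ Finset.univ.image w ∪
      Finset.univ.image a ∪ Finset.univ.image c ∪ Finset.univ.image b := ⟨_, rfl⟩
  have sv : ∀ i, v i ∈ S := fun i => by
    rw [hS]
    exact Finset.mem_union_left _ (Finset.mem_union_left _ (Finset.mem_union_left _
      (Finset.mem_union_left _ (Finset.mem_union_right _ (mi v i)))))
  have sw : ∀ i, w i ∈ S := fun i => by
    rw [hS]
    exact Finset.mem_union_left _ (Finset.mem_union_left _ (Finset.mem_union_left _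
      (Finset.mem_union_right _ (mi w i))))
  have sa : ∀ i, a i ∈ S := fun i => by
    rw [hS]
    exact Finset.mem_union_left _ (Finset.mem_union_left _ (Finset.mem_union_right _ (mi a i)))
  have sc : ∀ i, c i ∈ S := fun i => by
    rw [hS]
    exact Finset.mem_union_left _ (Finset.mem_union_right _ (mi c i))
  have sb : ∀ i, b i ∈ S := fun i => by
    rw [hS]
    exact Finset.mem_union_right _ (mi b i)
  have hpred : ∀ i : Fin 6, i - 1 + 1 = i := by decide
  have hnot : ∀ {S' P : Finset V} {x : V}, S' ⊆ S \ P → x ∈ P → x ∉ S' :=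
    fun h1 h2 h3 => (Finset.mem_sdiff.1 (h1 h3)).2 h2
  have g0 : Good G (S \ (∅ ∪ Finset.univ.image v ∪ Finset.univ.image w ∪
      Finset.univ.image a ∪ Finset.univ.image c ∪ Finset.univ.image b)) (cc G S) 0 := by
    rw [← hS, Finset.sdiff_self]
    exact good_empty G _ 0
  -- b stage
  have g1 := good_stage b 0 (by
    intro S' k i hS' hi _ hg
    refine good_R1 hg (cc_le G S) hi (nb_two G (hS'.trans Finset.sdiff_subset) (h.db i)
      (h.ab i).symm (h.bc i) (h.ac' i) (sa i) (sc i) (hnot hS' ?_) (hnot hS' ?_))
    · exact Finset.mem_union_left _ (Finset.mem_union_right _ (mi a i))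
    · exact Finset.mem_union_right _ (mi c i)) g0
  -- c stage
  have g2 := good_stage c (0 + 6) (by
    intro S' k i hS' hi _ hg
    have e1 := h.wc (i - 1)
    have e2 := h.ac (i - 1)
    rw [hpred] at e1 e2
    refine good_R1 hg (cc_le G S) hi (nb_two G (hS'.trans Finset.sdiff_subset) (h.dc i)
      e1.symm e2.symm (h.wa (i - 1)).ne (sw _) (sa _) (hnot hS' ?_) (hnot hS' ?_))
    · exact Finset.mem_union_left _ (Finset.mem_union_right _ (mi w _))
    · exact Finset.mem_union_right _ (mi a _)) g1
  -- a stage
  have g3 := good_stage a (0 + 6 + 6) (by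
    intro S' k i hS' hi _ hg
    refine flat_a hf h (hS'.trans Finset.sdiff_subset) sw sa sb sc i (hnot hS' ?_) hi hg
    exact Finset.mem_union_right _ (mi w _)) g2
  -- w stage
  have g4 := good_stage w (0 + 6 + 6 + 6) (by
    intro S' k i hS' hi _ hg
    refine good_R1 hg (cc_le G S) hi (nb_two G (hS'.trans Finset.sdiff_subset) (h.dw i).le
      (h.vw i).symm (h.vw' i).symm (h.vv i).ne (sv _) (sv _) (hnot hS' ?_) (hnot hS' ?_))
    · exact Finset.mem_union_right _ (mi v _)
    · exact Finset.mem_union_right _ (mi v _)) g3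
  -- v stage
  rw [Finset.empty_union] at g4
  have hnotv : ∀ u ∈ S \ Finset.univ.image v, ∀ j, u ≠ v j := by
    intro u hu j hh
    exact (Finset.mem_sdiff.1 hu).2 (hh ▸ mi v j)
  have g5 := good_R3 g4 (cc_le G S) v w h.vinj
    (fun i hi => (Finset.mem_sdiff.1 hi).2 (mi v i)) (flat_chord hf h)
    (fun i => cc_full G (fun y hy => by
      rcases h.nv i y hy with rfl | rfl | rfl | rfl
      · exact sv _
      · exact sv _
      · exact sw _
      · exact sw _))
    (fun i => Finset.mem_sdiff.2 ⟨sw i, fun hi => by
      obtain ⟨j, _, hj⟩ := Finset.mem_image.1 hi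
      exact flat_tip hf h i j hj.symm⟩)
    (fun i u hu hadj => by
      rcases h.nv i u hadj with h1 | h1 | h1 | h1
      · exact absurd h1 (hnotv u hu _)
      · exact absurd h1 (hnotv u hu _)
      · exact Or.inl h1
      · exact Or.inr h1)
    (fun i hh => by
      have e1 := h.vv (i - 1)
      have e2 := h.vw (i - 1)
      rw [hpred] at e1
      have e3 := h.vw' i
      rw [← hh] at e3
      have hne : v (i - 1) ≠ v (i + 1) := by
        intro h1
        have h2 := h.vinj h1
        have : ∀ i : Fin 6, i - 1 ≠ i + 1 := by decide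
        exact this i h2
      have e4 := h.vw i
      rw [← hh] at e4
      exact hf.c4 (v (i - 1)) (v i) (v (i + 1)) (w (i - 1)) e1 (h.vv i) e3 e2.symm hne e4.ne)
    (fun i hadj => by
      have e1 := h.vw' (i - 1)
      rw [hpred] at e1
      exact hf.c4 (w (i - 1)) (w i) (v (i + 1)) (v i) hadj (h.vw' i).symm (h.vv i).symm e1
        (flat_tip hf h _ _) (flat_tip hf h _ _))
    (fun i => by
      rw [cc_full G (fun y hy => by
        rcases h.nw i y hy with rfl | rfl | rfl | rfl
        · exact sv _
        · exact sv _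
        · exact sa _
        · exact sc _)]
      norm_num)
  have hunion : S \ Finset.univ.image v ∪ Finset.univ.image v = S := by
    apply Finset.sdiff_union_of_subset
    intro x hx
    obtain ⟨j, _, rfl⟩ := Finset.mem_image.1 hx
    exact sv j
  rw [hunion] at g5
  refine ⟨S, ⟨v 0, sv 0⟩, ?_, good_mono (by norm_num) g5⟩
  intro x hx
  have hd : (nb G x).card ≤ 4 := by
    rw [hS, Finset.empty_union] at hx
    simp only [Finset.mem_union] at hx
    rcases hx with (((hx | hx) | hx) | hx) | hx
    · obtain ⟨j, _, rfl⟩ := Finset.mem_image.1 hx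
      exact (h.dv j).le
    · obtain ⟨j, _, rfl⟩ := Finset.mem_image.1 hx
      exact (h.dw j).le
    · obtain ⟨j, _, rfl⟩ := Finset.mem_image.1 hx
      exact h.da j
    · obtain ⟨j, _, rfl⟩ := Finset.mem_image.1 hx
      exact h.dc j
    · obtain ⟨j, _, rfl⟩ := Finset.mem_image.1 hx
      exact h.db j
  unfold out
  exact (Finset.card_le_card Finset.sdiff_subset).trans hd

end

end Pool.Agent.H99.SF
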