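import Pool.Agent.H99.SF.FacesLen

/-!
# Euler's inequality
-/

namespace Pool.Agent.H99.SF

open Classical

variable {V : Type} [Fintype V] {G : SimpleGraph V}

/-- darts over edges that bound no triangular face -/
noncomputable def Ndarts (R : Rot G) : Finset G.Dart :=
  Finset.univ.filter (fun d => R.len d ≠ 3 ∧ R.len d.symm ≠ 3)

/-- darts of faces of length at least 7 -/
noncomputable def L7 (R : Rot G) : Finset G.Dart :=
  Finset.univ.filter (fun d => 7 ≤ R.len d)

theorem nf_eq (R : Rot G) : (R.nf : ℚ) = ∑ d : G.Dart, 1 / (R.len d : ℚ) := by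
  have key : ∀ d0 : G.Dart, Finset.univ.filter (fun d : G.Dart =>
        Quotient.mk (Equiv.Perm.SameCycle.setoid R.φ) d =
          Quotient.mk (Equiv.Perm.SameCycle.setoid R.φ) d0) =
        Finset.univ.filter (fun e : G.Dart => Equiv.Perm.SameCycle R.φ d0 e) := by
    intro d0
    ext e
    simp only [Finset.mem_filter, Finset.mem_univ, true_and]
    constructor
    · intro h
      exact (Quotient.exact h : Equiv.Perm.SameCycle R.φ e d0).symm
    · intro h
      exact Quotient.sound (h.symm : Equiv.Perm.SameCycle R.φ e d0)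
  unfold Rot.nf
  have : Fintype (Quotient (Equiv.Perm.SameCycle.setoid R.φ)) := Fintype.ofFinite _
  rw [Nat.card_eq_fintype_card]
  rw [← Finset.sum_fiberwise (s := (Finset.univ : Finset G.Dart))
    (g := fun d => Quotient.mk (Equiv.Perm.SameCycle.setoid R.φ) d)]
  have : ∀ q : Quotient (Equiv.Perm.SameCycle.setoid R.φ),
      ∑ d ∈ Finset.univ.filter (fun d : G.Dart =>
        Quotient.mk (Equiv.Perm.SameCycle.setoid R.φ) d = q), 1 / (R.len d : ℚ) = 1 := by
    intro q
    induction q using Quotient.inductionOn with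
    | h d0 =>
      rw [key d0]
      have h1 : ∀ d ∈ Finset.univ.filter (fun e : G.Dart => Equiv.Perm.SameCycle R.φ d0 e),
          1 / (R.len d : ℚ) = 1 / R.len d0 := by
        intro d hd
        rw [Finset.mem_filter] at hd
        have h2 : R.len d = R.len d0 := by
          unfold Rot.len
          congr 1
          ext e
          simp only [Finset.mem_filter, Finset.mem_univ, true_and]
          exact ⟨fun h => hd.2.trans h, fun h => hd.2.symm.trans h⟩
        rw [h2]
      rw [Finset.sum_congr rfl h1, Finset.sum_const, nsmul_eq_mul]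
      have h2 : (Finset.univ.filter (fun e : G.Dart => Equiv.Perm.SameCycle R.φ d0 e)).card =
        R.len d0 := rfl
      rw [h2]
      have h3 := len_pos R d0
      have h4 : (R.len d0 : ℚ) ≠ 0 := by exact_mod_cast h3.ne'
      field_simp
  rw [Finset.sum_congr rfl (fun q _ => this q)]
  simp

/-- Euler's inequality `E ≤ 2 n - 4 - N/6 - L7/21` -/
theorem euler_ineq (R : Rot G) (hf : Free45 G) (hd : ∀ v, 3 ≤ (nb G v).card)
    (hE : Fintype.card V + R.nf = ne G + 2) :
    42 * ne G + 7 * (Ndarts R).card + 2 * (L7 R).card + 168 ≤ 84 * Fintype.card V := by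
  have hD : (∑ _d : G.Dart, (1 : ℚ)) = 2 * (ne G : ℚ) := by
    rw [Finset.sum_const, nsmul_eq_mul, mul_one, Finset.card_univ]
    unfold ne
    rw [G.dart_card_eq_twice_card_edges, Nat.card_eq_fintype_card, ← Set.toFinset_card]
    push_cast
    congr 2
  -- the involution
  have hsymm : ∑ d : G.Dart, (if R.len d.symm = 3 then (1 : ℚ) else 0) =
      ∑ d : G.Dart, (if R.len d = 3 then (1 : ℚ) else 0) := by
    apply Finset.sum_bijective (fun d : G.Dart => d.symm)
      (SimpleGraph.Dart.symm_involutive (G := G)).bijective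
    · intro d; simp
    · intro d _; rfl
  have hN : ((Ndarts R).card : ℚ) =
      ∑ d : G.Dart, (if R.len d ≠ 3 ∧ R.len d.symm ≠ 3 then (1 : ℚ) else 0) := by
    unfold Ndarts
    rw [Finset.sum_ite, Finset.sum_const_zero, add_zero, Finset.sum_const, nsmul_eq_mul, mul_one]
  have hL : ((L7 R).card : ℚ) = ∑ d : G.Dart, (if 7 ≤ R.len d then (1 : ℚ) else 0) := by
    unfold L7
    rw [Finset.sum_ite, Finset.sum_const_zero, add_zero, Finset.sum_const, nsmul_eq_mul, mul_one]
  have hsum : ∑ d : G.Dart, ((if R.len d ≠ 3 ∧ R.len d.symm ≠ 3 then (1 : ℚ) else 0) +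
      (if R.len d = 3 then (1 : ℚ) else 0) + (if R.len d.symm = 3 then (1 : ℚ) else 0)) =
      ∑ _d : G.Dart, (1 : ℚ) := by
    apply Finset.sum_congr rfl
    intro d _
    by_cases h1 : R.len d = 3
    · have h2 := no_adj_tri R hf hd d h1
      simp [h1, h2]
    · by_cases h2 : R.len d.symm = 3
      · simp [h1, h2]
      · simp [h1, h2]
  rw [Finset.sum_add_distrib, Finset.sum_add_distrib, hsymm, ← hN, hD] at hsum
  have hle : ∑ d : G.Dart, 1 / (R.len d : ℚ) ≤ ∑ d : G.Dart, (1 / 6 * 1 +
      1 / 6 * (if R.len d = 3 then (1 : ℚ) else 0) -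
      1 / 42 * (if 7 ≤ R.len d then (1 : ℚ) else 0)) := by
    apply Finset.sum_le_sum
    intro d _
    rcases len_cases R hf hd d with h1 | h1
    · rw [h1]; norm_num
    · by_cases h2 : 7 ≤ R.len d
      · have h3 : (7 : ℚ) ≤ R.len d := by exact_mod_cast h2
        have h4 : 1 / (R.len d : ℚ) ≤ 1 / 7 := one_div_le_one_div_of_le (by norm_num) h3
        have h5 : R.len d ≠ 3 := by omega
        rw [if_neg h5, if_pos h2]
        refine h4.trans (by norm_num)
      · have h3 : R.len d = 6 := by omega
        rw [h3]; norm_num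
  rw [← nf_eq, Finset.sum_sub_distrib, Finset.sum_add_distrib, ← Finset.mul_sum, ← Finset.mul_sum,
    ← Finset.mul_sum, hD, ← hL] at hle
  have hE' : (Fintype.card V : ℚ) + R.nf = ne G + 2 := by exact_mod_cast hE
  have : (42 * ne G + 7 * (Ndarts R).card + 2 * (L7 R).card + 168 : ℚ) ≤
      84 * Fintype.card V := by
    linarith
  exact_mod_cast this

end Pool.Agent.H99.SF
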