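import Pool.Agent.H99.SF.Basic

/-!
# Face lengths of planar graphs without 4- and 5-cycles, minimum degree at least 3
-/

namespace Pool.Agent.H99.SF

open Classical

variable {V : Type} [Fintype V] {G : SimpleGraph V}

omit [Fintype V] in
/-- two darts with the same ends are equal -/
theorem dart_eq {d e : G.Dart} (h1 : d.fst = e.fst) (h2 : d.snd = e.snd) : d = e := by
  obtain ⟨⟨a, b⟩, h⟩ := d
  obtain ⟨⟨a', b'⟩, h'⟩ := e
  simp only at h1 h2
  subst h1 h2
  rfl

/-- if the rotation at a vertex has a small orbit, the degree is small -/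
theorem card_nb_le_of_orbit (R : Rot G) (d : G.Dart) (s : Finset G.Dart)
    (h : ∀ n : ℕ, (R.σ ^ n) d ∈ s) : (nb G d.fst).card ≤ s.card := by
  have h1 : nb G d.fst ⊆ s.image (fun e : G.Dart => e.snd) := by
    intro u hu
    rw [mem_nb] at hu
    obtain ⟨n, hn⟩ := R.tr d ⟨(d.fst, u), hu⟩ rfl
    rw [Finset.mem_image]
    exact ⟨(R.σ ^ n) d, h n, by rw [hn]⟩
  exact (Finset.card_le_card h1).trans Finset.card_image_le

/-- no backtracking in faces -/
theorem no_backtrack (R : Rot G) (hd : ∀ v, 3 ≤ (nb G v).card) (d : G.Dart) :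
    R.φ d ≠ d.symm := by
  intro h
  rw [R.hφ] at h
  have h1 : ∀ n : ℕ, (R.σ ^ n) d.symm ∈ ({d.symm} : Finset G.Dart) := by
    intro n
    induction n with
    | zero => simp
    | succ n ih =>
      rw [Finset.mem_singleton] at ih ⊢
      rw [pow_succ', Equiv.Perm.mul_apply, ih, h]
  have h2 := card_nb_le_of_orbit R d.symm _ h1
  have h3 := hd d.symm.fst
  rw [Finset.card_singleton] at h2
  omega

omit [Fintype V] in
theorem step_ne (R : Rot G) (d : G.Dart) : R.φ d ≠ d := by
  intro h
  have := R.fst_φ d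
  rw [h] at this
  exact d.adj.ne this

theorem snd_ne (R : Rot G) (hd : ∀ v, 3 ≤ (nb G v).card) (d : G.Dart) :
    (R.φ d).snd ≠ d.fst := by
  intro h
  exact no_backtrack R hd d (dart_eq (R.fst_φ d) h)

/-- the face of `d` is the set of the first `p` iterates, `p` the minimal period -/
theorem len_eq_minimalPeriod (R : Rot G) (d : G.Dart) :
    R.len d = Function.minimalPeriod R.φ d := by
  have hper : Function.IsPeriodicPt R.φ (Function.minimalPeriod R.φ d) d :=
    Function.isPeriodicPt_minimalPeriod _ _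
  have hpos : 0 < Function.minimalPeriod R.φ d := by
    apply Function.minimalPeriod_pos_of_mem_periodicPts
    refine Function.mk_mem_periodicPts (orderOf_pos R.φ) ?_
    show (R.φ)^[orderOf R.φ] d = d
    rw [← Equiv.Perm.coe_pow, pow_orderOf_eq_one]
    rfl
  unfold Rot.len
  have h1 : Finset.univ.filter (fun e : G.Dart => Equiv.Perm.SameCycle R.φ d e) =
      (Finset.range (Function.minimalPeriod R.φ d)).image (fun i => (R.φ)^[i] d) := by
    ext e
    rw [Finset.mem_filter, Finset.mem_image]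
    constructor
    · rintro ⟨-, h⟩
      obtain ⟨i, hi⟩ := h.exists_nat_pow_eq
      refine ⟨i % Function.minimalPeriod R.φ d, Finset.mem_range.2 (Nat.mod_lt _ hpos), ?_⟩
      show (R.φ)^[i % Function.minimalPeriod R.φ d] d = e
      rw [Function.iterate_mod_minimalPeriod_eq, ← Equiv.Perm.coe_pow]
      exact hi
    · rintro ⟨i, -, rfl⟩
      refine ⟨Finset.mem_univ _, ⟨(i : ℤ), ?_⟩⟩
      rw [zpow_natCast, Equiv.Perm.coe_pow]
  rw [h1, Finset.card_image_of_injOn, Finset.card_range]
  intro i hi j hj hij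
  simp only [Finset.coe_range, Set.mem_Iio] at hi hj
  exact Function.iterate_injOn_Iio_minimalPeriod hi hj hij

/-- the face length is the exact period of `φ` at `d` -/
theorem pow_len (R : Rot G) (d : G.Dart) : (R.φ ^ R.len d) d = d := by
  rw [len_eq_minimalPeriod, Equiv.Perm.coe_pow]
  exact Function.isPeriodicPt_minimalPeriod _ _

theorem pow_ne_of_lt_len (R : Rot G) (d : G.Dart) (j : ℕ) (h0 : 0 < j) (h : j < R.len d) :
    (R.φ ^ j) d ≠ d := by
  rw [len_eq_minimalPeriod] at h
  intro h1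
  rw [Equiv.Perm.coe_pow] at h1
  exact Function.not_isPeriodicPt_of_pos_of_lt_minimalPeriod h0.ne' h h1

theorem len_φ (R : Rot G) (d : G.Dart) : R.len (R.φ d) = R.len d := by
  unfold Rot.len
  congr 1
  ext e
  simp only [Finset.mem_filter, Finset.mem_univ, true_and]
  exact Equiv.Perm.sameCycle_apply_left

theorem len_pos (R : Rot G) (d : G.Dart) : 0 < R.len d := by
  unfold Rot.len
  rw [Finset.card_pos]
  exact ⟨d, Finset.mem_filter.2 ⟨Finset.mem_univ _, Equiv.Perm.SameCycle.refl _ _⟩⟩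

/-- the vertices of a face -/
noncomputable def fv (R : Rot G) (d : G.Dart) (i : ℕ) : V := ((R.φ ^ i) d).fst

omit [Fintype V] in
theorem fv_succ (R : Rot G) (d : G.Dart) (i : ℕ) : fv R d (i + 1) = ((R.φ ^ i) d).snd := by
  unfold fv
  rw [pow_succ', Equiv.Perm.mul_apply, R.fst_φ]

omit [Fintype V] in
theorem fv_adj (R : Rot G) (d : G.Dart) (i : ℕ) : G.Adj (fv R d i) (fv R d (i + 1)) := by
  rw [fv_succ]
  exact ((R.φ ^ i) d).adj

theorem fv_ne (R : Rot G) (hd : ∀ v, 3 ≤ (nb G v).card) (d : G.Dart) (i : ℕ) :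
    fv R d (i + 2) ≠ fv R d i := by
  rw [show i + 2 = (i + 1) + 1 by ring, fv_succ, pow_succ', Equiv.Perm.mul_apply]
  exact snd_ne R hd _

omit [Fintype V] in
theorem fv_per (R : Rot G) (d : G.Dart) (L : ℕ) (hL : (R.φ ^ L) d = d) (i : ℕ) :
    fv R d (i + L) = fv R d i := by
  unfold fv
  rw [pow_add, Equiv.Perm.mul_apply, hL]

/-- faces have length 3 or at least 6 -/
theorem len_cases (R : Rot G) (hf : Free45 G) (hd : ∀ v, 3 ≤ (nb G v).card) (d : G.Dart) :
    R.len d = 3 ∨ 6 ≤ R.len d := by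
  have hp := pow_len R d
  have h0 := len_pos R d
  by_contra hcon
  push Not at hcon
  obtain ⟨hc1, hc2⟩ := hcon
  have hper := fv_per R d _ hp
  obtain ⟨k, hk⟩ : ∃ k, k = R.len d := ⟨_, rfl⟩
  rw [← hk] at hper h0 hc1 hc2
  have ha := fv_adj R d
  have hn := fv_ne R hd d
  interval_cases k
  · exact (ha 0).ne (hper 0).symm
  · exact hn 0 (hper 0)
  · exact hc1 rfl
  · refine hf.c4 (fv R d 0) (fv R d 1) (fv R d 2) (fv R d 3) (ha 0) (ha 1) (ha 2) ?_
      (hn 0).symm (hn 1).symm
    rw [← hper 0]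
    exact ha 3
  · refine hf.c5 (fv R d 0) (fv R d 1) (fv R d 2) (fv R d 3) (fv R d 4) (ha 0) (ha 1) (ha 2)
      (ha 3) ?_ (hn 0).symm ?_ (hn 1).symm ?_ (hn 2).symm
    · rw [← hper 0]
      exact ha 4
    · rw [← hper 0]
      exact hn 3
    · rw [← hper 1]
      exact hn 4

/-- two triangular faces do not share an edge -/
theorem no_adj_tri (R : Rot G) (hf : Free45 G) (hd : ∀ v, 3 ≤ (nb G v).card) (d : G.Dart)
    (h3 : R.len d = 3) : R.len d.symm ≠ 3 := by
  intro h3'
  have hp := pow_len R d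
  have hp' := pow_len R d.symm
  rw [h3] at hp
  rw [h3'] at hp'
  have hper := fv_per R d _ hp
  have hper' := fv_per R d.symm _ hp'
  have ha := fv_adj R d
  have hn := fv_ne R hd d
  have ha' := fv_adj R d.symm
  have hn' := fv_ne R hd d.symm
  have e0 : fv R d.symm 0 = fv R d 1 := by rw [fv_succ]; rfl
  have e1 : fv R d.symm 1 = fv R d 0 := by rw [fv_succ]; rfl
  by_cases hw : fv R d 2 = fv R d.symm 2
  · -- the vertex `d.fst` has degree 2
    have q2 : (R.φ ^ 2) d = ((R.φ ^ 1) d.symm).symm := by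
      apply dart_eq
      · show fv R d 2 = ((R.φ ^ 1) d.symm).snd
        rw [← fv_succ, hw]
      · show ((R.φ ^ 2) d).snd = fv R d.symm 1
        rw [← fv_succ, e1]
        exact hper 0
    have q3 : R.σ ((R.φ ^ 1) d.symm) = d := by
      have := R.hφ ((R.φ ^ 2) d)
      rw [← Equiv.Perm.mul_apply, ← pow_succ', hp, q2] at this
      exact this.symm
    have q4 : R.σ d = (R.φ ^ 1) d.symm := by
      rw [pow_one, R.hφ]
      rfl
    have h1 : ∀ n : ℕ, (R.σ ^ n) d ∈ ({d, (R.φ ^ 1) d.symm} : Finset G.Dart) := by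
      intro n
      induction n with
      | zero => simp
      | succ n ih =>
        rw [Finset.mem_insert, Finset.mem_singleton] at ih ⊢
        rw [pow_succ', Equiv.Perm.mul_apply]
        rcases ih with ih | ih
        · right; rw [ih, q4]
        · left; rw [ih, q3]
    have h2 := card_nb_le_of_orbit R d _ h1
    have h4 := hd d.fst
    have h5 := Finset.card_le_two (a := d) (b := (R.φ ^ 1) d.symm)
    omega
  · apply hf.c4 (fv R d 0) (fv R d.symm 2) (fv R d 1) (fv R d 2)
    · rw [← e1]; exact ha' 1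
    · rw [← e0, ← hper' 0]; exact ha' 2
    · exact ha 1
    · rw [← hper 0]; exact ha 2
    · exact (ha 0).ne
    · exact fun h => hw h.symm

end Pool.Agent.H99.SF
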