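import Pool.Agent.H99.SF.FlatOf

/-!
# Either few edges or a flat patch
-/

namespace Pool.Agent.H99.SF

open Classical

variable {V : Type} [Fintype V] {G : SimpleGraph V}

theorem card_bad_comp (R : Rot G) (f : G.Dart → G.Dart) (hf : Function.Injective f) :
    (Finset.univ.filter (fun d : G.Dart => ¬ Nice R (f d).fst)).card ≤ badDeg R := by
  refine Finset.card_le_card_of_injOn f ?_ hf.injOn
  intro d hd
  simpa using hd

theorem sparse_or_flat (R : Rot G) (hf : Free45 G) (hd : ∀ v, 3 ≤ (nb G v).card)
    (hE : Fintype.card V + R.nf = ne G + 2) :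
    2000 * ne G ≤ 3999 * Fintype.card V ∨ ∃ v w a b c : Fin 6 → V, Flat G v w a b c := by
  by_cases hs : 2000 * ne G ≤ 3999 * Fintype.card V
  · exact Or.inl hs
  right
  push Not at hs
  have hEu := euler_ineq R hf hd hE
  have hB := badDeg_le R hf hd hE
  -- nice vertices
  set NV := Finset.univ.filter (fun u : V => Nice R u) with hNV
  set BV := Finset.univ.filter (fun u : V => ¬ Nice R u) with hBV
  have hsumV : NV.card + BV.card = Fintype.card V := by
    rw [← Finset.card_univ, ← Finset.card_filter_add_card_filter_not (s := (Finset.univ : Finset V)) (fun u => Nice R u)]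
  have hBVle : BV.card ≤ badDeg R := by
    have : ∀ u : V, ∃ d : G.Dart, d.fst = u := by
      intro u
      have h3 := hd u
      obtain ⟨x, hx⟩ := Finset.card_pos.1 (by omega : 0 < (nb G u).card)
      exact ⟨⟨(u, x), mem_nb.1 hx⟩, rfl⟩
    choose g hg using this
    refine Finset.card_le_card_of_injOn g ?_ ?_
    · intro u hu
      have hu' := Finset.mem_coe.1 hu
      simp only [hBV, Finset.mem_filter, Finset.mem_univ, true_and] at hu'
      simp only [Finset.coe_filter, Finset.mem_univ, true_and, Set.mem_setOf_eq]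
      rw [hg u]
      exact hu'
    · intro u hu v hv huv
      rw [← hg u, ← hg v, huv]
  set S6 := Finset.univ.filter (fun d : G.Dart => Nice R d.fst ∧ R.len d = 6) with hS6
  have hS6card : S6.card = 2 * NV.card := by
    rw [Finset.card_eq_sum_card_fiberwise (s := S6) (t := NV) (f := fun d => d.fst)]
    · rw [Finset.sum_congr rfl (g := fun _ => 2)]
      · simp [mul_comm]
      · intro u hu
        simp only [hNV, Finset.mem_filter, Finset.mem_univ, true_and] at hu
        rw [← nice_six R u hu]
        congr 1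
        ext d
        simp only [hS6, Finset.mem_filter, Finset.mem_univ, true_and]
        constructor
        · rintro ⟨⟨_, h2⟩, h3⟩; exact ⟨h3, h2⟩
        · rintro ⟨h3, h2⟩; exact ⟨⟨h3 ▸ hu, h2⟩, h3⟩
    · intro d hdm
      have := Finset.mem_coe.1 hdm
      simp only [hS6, Finset.mem_filter, Finset.mem_univ, true_and] at this
      refine Finset.mem_coe.2 ?_
      simp only [hNV, Finset.mem_filter, Finset.mem_univ, true_and]
      exact this.1
  -- the permutations
  have hsym : Function.Injective (fun d : G.Dart => d.symm) :=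
    (SimpleGraph.Dart.symm_involutive (G := G)).injective
  set fv : ℕ → G.Dart → G.Dart := fun i d => (R.φ ^ i) d with hfv
  set fw : ℕ → G.Dart → G.Dart := fun i d => (R.φ ^ 2) ((R.φ ^ i) d).symm with hfw
  set fc : ℕ → G.Dart → G.Dart := fun i d => (R.φ ^ 2) ((R.σ ^ 2) ((R.φ ^ i) d)) with hfc
  set fb : ℕ → G.Dart → G.Dart := fun i d => (R.φ ^ 3) ((R.σ ^ 2) ((R.φ ^ i) d)) with hfb
  set fa : ℕ → G.Dart → G.Dart := fun i d => (R.φ ^ 4) ((R.σ ^ 2) ((R.φ ^ i) d)) with hfa
  have iv : ∀ i, Function.Injective (fv i) := fun i => (R.φ ^ i).injective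
  have iw : ∀ i, Function.Injective (fw i) := fun i =>
    (R.φ ^ 2).injective.comp (hsym.comp (R.φ ^ i).injective)
  have ic : ∀ i, Function.Injective (fc i) := fun i =>
    (R.φ ^ 2).injective.comp ((R.σ ^ 2).injective.comp (R.φ ^ i).injective)
  have ib : ∀ i, Function.Injective (fb i) := fun i =>
    (R.φ ^ 3).injective.comp ((R.σ ^ 2).injective.comp (R.φ ^ i).injective)
  have ia : ∀ i, Function.Injective (fa i) := fun i =>
    (R.φ ^ 4).injective.comp ((R.σ ^ 2).injective.comp (R.φ ^ i).injective)
  set bs : (G.Dart → G.Dart) → Finset G.Dart := fun f =>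
    Finset.univ.filter (fun d : G.Dart => ¬ Nice R (f d).fst) with hbs
  set T : Finset G.Dart := (Finset.range 6).biUnion (fun i =>
    bs (fv i) ∪ (bs (fw i) ∪ (bs (fc i) ∪ (bs (fb i) ∪ bs (fa i))))) with hT
  have hTcard : T.card ≤ 30 * badDeg R := by
    refine Finset.card_biUnion_le.trans ?_
    refine (Finset.sum_le_card_nsmul _ _ (5 * badDeg R) ?_).trans ?_
    · intro i _
      have h1 := card_bad_comp R (fv i) (iv i)
      have h2 := card_bad_comp R (fw i) (iw i)
      have h3 := card_bad_comp R (fc i) (ic i)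
      have h4 := card_bad_comp R (fb i) (ib i)
      have h5 := card_bad_comp R (fa i) (ia i)
      refine (Finset.card_union_le _ _).trans ?_
      have e2 := Finset.card_union_le (bs (fw i)) (bs (fc i) ∪ (bs (fb i) ∪ bs (fa i)))
      have e3 := Finset.card_union_le (bs (fc i)) (bs (fb i) ∪ bs (fa i))
      have e4 := Finset.card_union_le (bs (fb i)) (bs (fa i))
      simp only [hbs] at *
      omega
    · rw [Finset.card_range, smul_eq_mul]
      omega
  have hlt : T.card < S6.card := by
    rw [hS6card]
    omega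
  obtain ⟨d, hdS, hdT⟩ := Finset.exists_mem_notMem_of_card_lt_card hlt
  simp only [hS6, Finset.mem_filter, Finset.mem_univ, true_and] at hdS
  simp only [hT, hbs, Finset.mem_biUnion, Finset.mem_range, Finset.mem_union, Finset.mem_filter,
    Finset.mem_univ, true_and, not_exists, not_and, not_or, not_not] at hdT
  exact flat_of_nice R hf hd d hdS.2 (fun i hi => (hdT i hi).1) (fun i hi => (hdT i hi).2.1)
    (fun i hi => (hdT i hi).2.2.1) (fun i hi => (hdT i hi).2.2.2.1) (fun i hi => (hdT i hi).2.2.2.2)

end Pool.Agent.H99.SF
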