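import Pool.Agent.H99.SF.BadDeg
import Pool.Agent.H99.SF.Flat

/-!
# The flat patch around a hexagonal face with nice surroundings
-/

namespace Pool.Agent.H99.SF

open Classical

variable {V : Type} [Fintype V] {G : SimpleGraph V}

omit [Fintype V] in
theorem FlatOf_ext {d d' : G.Dart} (h1 : d.fst = d'.fst) (h2 : d.snd = d'.snd) : d = d' :=
  SimpleGraph.Dart.ext _ _ (Prod.ext h1 h2)

omit [Fintype V] in
theorem FlatOf_sd (R : Rot G) (x : G.Dart) : R.φ x.symm = R.σ x := by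
  rw [R.hφ, SimpleGraph.Dart.symm_symm]

omit [Fintype V] in
theorem FlatOf_fs (x : G.Dart) : x.symm.fst = x.snd := rfl

omit [Fintype V] in
theorem FlatOf_ss (x : G.Dart) : x.symm.snd = x.fst := rfl

omit [Fintype V] in
theorem FlatOf_snd (R : Rot G) (x : G.Dart) : x.snd = (R.φ x).fst := (R.fst_φ x).symm

/-- four darts around a vertex of degree 4 -/
theorem FlatOf_per (R : Rot G) (z : G.Dart) (h : (nb G z.fst).card = 4) :
    R.σ (R.σ (R.σ (R.σ z))) = z ∧ R.σ (R.σ z) ≠ z ∧ ∀ d : G.Dart, d.fst = z.fst →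
      d = z ∨ d = R.σ z ∨ d = R.σ (R.σ z) ∨ d = R.σ (R.σ (R.σ z)) := by
  set D : Finset G.Dart := Finset.univ.filter (fun d => d.fst = z.fst) with hD
  have hDcard : D.card = 4 := by
    rw [← h]
    refine Finset.card_bij (fun d _ => d.snd) ?_ ?_ ?_
    · intro d hd
      rw [hD, Finset.mem_filter] at hd
      rw [mem_nb, ← hd.2]
      exact d.adj
    · intro d hd d' hd' he
      rw [hD, Finset.mem_filter] at hd hd'
      exact FlatOf_ext (hd.2.trans hd'.2.symm) he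
    · intro u hu
      rw [mem_nb] at hu
      exact ⟨⟨(z.fst, u), hu⟩, by rw [hD, Finset.mem_filter]; exact ⟨Finset.mem_univ _, rfl⟩, rfl⟩
  set p := Function.minimalPeriod R.σ z with hp
  have hp0 : 0 < p := Function.minimalPeriod_pos_of_mem_periodicPts
    (Function.Injective.mem_periodicPts R.σ.injective z)
  have hfst : ∀ j : ℕ, (R.σ^[j] z).fst = z.fst := by
    intro j
    induction j with
    | zero => rfl
    | succ j ih => rw [Function.iterate_succ_apply', R.hσ, ih]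
  have himg : (Finset.range p).image (fun j => R.σ^[j] z) = D := by
    ext d
    rw [Finset.mem_image, hD, Finset.mem_filter]
    constructor
    · rintro ⟨j, _, rfl⟩
      exact ⟨Finset.mem_univ _, hfst j⟩
    · rintro ⟨_, hd⟩
      obtain ⟨n, hn⟩ := R.tr z d hd.symm
      refine ⟨n % p, Finset.mem_range.2 (Nat.mod_lt _ hp0), ?_⟩
      rw [hp, Function.iterate_mod_minimalPeriod_eq, ← hn, Equiv.Perm.iterate_eq_pow]
  have hp4 : p = 4 := by
    rw [← hDcard, ← himg, Finset.card_image_of_injOn, Finset.card_range]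
    intro a ha b hb hab
    rw [Finset.coe_range] at ha hb
    exact Function.iterate_injOn_Iio_minimalPeriod ha hb hab
  refine ⟨?_, ?_, ?_⟩
  · have := Function.iterate_minimalPeriod (f := R.σ) (x := z)
    rw [← hp, hp4] at this
    exact this
  · intro hcon
    have : ¬ Function.IsPeriodicPt R.σ 2 z :=
      Function.not_isPeriodicPt_of_pos_of_lt_minimalPeriod (by norm_num) (by rw [← hp, hp4]; norm_num)
    exact this hcon
  · intro d hd
    have : d ∈ D := by rw [hD, Finset.mem_filter]; exact ⟨Finset.mem_univ _, hd⟩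
    rw [← himg, Finset.mem_image] at this
    obtain ⟨j, hj, rfl⟩ := this
    rw [Finset.mem_range, hp4] at hj
    interval_cases j
    · exact Or.inl rfl
    · exact Or.inr (Or.inl rfl)
    · exact Or.inr (Or.inr (Or.inl rfl))
    · exact Or.inr (Or.inr (Or.inr rfl))

/-- the tip of the triangle at `x` -/
def FlatOf_W (R : Rot G) (x : G.Dart) : V := (R.φ (R.φ x.symm)).fst

/-- `c`, `b`, `a` -/
def FlatOf_C (R : Rot G) (x : G.Dart) : V := (R.φ (R.φ (R.σ (R.σ x)))).fst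

def FlatOf_B (R : Rot G) (x : G.Dart) : V := (R.φ (R.φ (R.φ (R.σ (R.σ x))))).fst

def FlatOf_A (R : Rot G) (x : G.Dart) : V := (R.φ (R.φ (R.φ (R.φ (R.σ (R.σ x)))))).fst

theorem FlatOf_three (R : Rot G) (x : G.Dart) (h : R.len x = 3) :
    R.φ (R.φ (R.φ x)) = x := by
  have := pow_len R x
  rw [h] at this
  exact this

theorem FlatOf_six (R : Rot G) (x : G.Dart) (h : R.len x = 6) :
    R.φ (R.φ (R.φ (R.φ (R.φ (R.φ x))))) = x := by
  have := pow_len R x
  rw [h] at this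
  exact this

theorem FlatOf_n3 (R : Rot G) (x : G.Dart) (hn : Nice R x.fst) (h : R.len x = 6) :
    R.len x.symm = 3 := by
  rcases hn.2 x rfl with h1 | h1
  · rw [h] at h1; omega
  · exact h1.2

theorem FlatOf_n6 (R : Rot G) (x : G.Dart) (hn : Nice R x.fst) (h : R.len x = 3) :
    R.len x.symm = 6 := by
  rcases hn.2 x rfl with h1 | h1
  · exact h1.2
  · rw [h] at h1; omega

theorem FlatOf_lenσ (R : Rot G) (x : G.Dart) : R.len (R.σ x) = R.len x.symm := by
  rw [← FlatOf_sd, len_φ]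

/-- everything about the two consecutive darts `x`, `y = φ x` -/
theorem FlatOf_local (R : Rot G) (hd : ∀ v, 3 ≤ (nb G v).card) (x y : G.Dart)
    (hxy : y = R.φ x) (hx : R.len x = 6) (nx : Nice R x.fst) (ny : Nice R y.fst)
    (nw : Nice R (FlatOf_W R x)) (na : Nice R (FlatOf_A R x)) (nc : Nice R (FlatOf_C R y)) :
    (G.Adj x.fst y.fst ∧ G.Adj x.fst (FlatOf_W R x) ∧ G.Adj y.fst (FlatOf_W R x) ∧
      G.Adj (FlatOf_W R x) (FlatOf_A R x)) ∧
    (G.Adj (FlatOf_W R x) (FlatOf_C R y) ∧ G.Adj (FlatOf_A R x) (FlatOf_C R y) ∧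
      G.Adj (FlatOf_A R x) (FlatOf_B R x) ∧ G.Adj (FlatOf_B R x) (FlatOf_C R x)) ∧
    (∀ t, G.Adj y.fst t → t = (R.φ y).fst ∨ t = x.fst ∨ t = FlatOf_W R y ∨ t = FlatOf_W R x) ∧
    (∀ t, G.Adj (FlatOf_W R x) t →
      t = x.fst ∨ t = y.fst ∨ t = FlatOf_A R x ∨ t = FlatOf_C R y) ∧
    (FlatOf_B R x ≠ FlatOf_W R x ∧ FlatOf_B R y ≠ FlatOf_W R x ∧
      FlatOf_B R x ≠ FlatOf_C R y ∧ FlatOf_B R y ≠ FlatOf_A R x ∧
      FlatOf_A R x ≠ FlatOf_C R x) ∧
    x.fst ≠ (R.φ y).fst ∧ (R.φ y).fst ≠ FlatOf_W R x := by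
  have hxy' : y.fst = x.snd := by rw [hxy, R.fst_φ]
  have hy : R.len y = 6 := by rw [hxy, len_φ, hx]
  -- the triangle at x
  have hx3 : R.len x.symm = 3 := FlatOf_n3 R x nx hx
  have hy3 : R.len y.symm = 3 := FlatOf_n3 R y ny hy
  have ht : R.φ (R.φ (R.φ x.symm)) = x.symm := FlatOf_three R _ hx3
  set q := R.φ (R.φ x.symm) with hq
  have hqW : q.fst = FlatOf_W R x := rfl
  have hσx : R.φ x.symm = R.σ x := FlatOf_sd R x
  obtain ⟨px4, px2, pxa⟩ := FlatOf_per R x nx.1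
  obtain ⟨py4, py2, pya⟩ := FlatOf_per R y ny.1
  -- σ (α q) = α x
  have hσq : R.σ q.symm = x.symm := by rw [← R.hφ, ht]
  have hyσ : y = R.σ x.symm := by rw [hxy, R.hφ]
  have hyσ2 : y = R.σ (R.σ q.symm) := by rw [hσq, hyσ]
  -- f_y
  have hfy : R.σ (R.σ y) = q.symm := by
    have h4 : R.σ (R.σ (R.σ (R.σ q.symm))) = q.symm := by
      refine (FlatOf_per R q.symm ?_).1
      have : q.symm.fst = y.fst := by
        rw [FlatOf_fs, FlatOf_snd R, ht, FlatOf_fs, hxy']
      rw [this]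
      exact ny.1
    rw [hyσ2, h4]
  have hσ3y : R.σ (R.σ (R.σ y)) = x.symm := by rw [hfy, hσq]
  have hfylen : R.len (R.σ (R.σ y)) = 6 := by
    rw [FlatOf_lenσ]
    apply FlatOf_n6
    · rw [R.hσ]; exact ny
    · rw [FlatOf_lenσ, hy3]
  have hσxlen : R.len (R.σ x) = 3 := by rw [FlatOf_lenσ, hx3]
  have hfxlen : R.len (R.σ (R.σ x)) = 6 := by
    rw [FlatOf_lenσ]
    apply FlatOf_n6
    · rw [R.hσ]; exact nx
    · exact hσxlen
  set f := R.σ (R.σ x) with hf
  have hf6 : R.φ (R.φ (R.φ (R.φ (R.φ (R.φ f))))) = f := FlatOf_six R f hfxlen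
  set g := (R.σ x).symm with hg
  have hφg : R.φ g = f := by rw [hg, FlatOf_sd]
  have hf5 : R.φ (R.φ (R.φ (R.φ (R.φ f)))) = g := R.φ.injective (by rw [hf6, hφg])
  have hgfst : g.fst = FlatOf_W R x := by
    rw [hg, FlatOf_fs, FlatOf_snd R, ← hσx, ← hq]
    exact hqW
  have hgsnd : g.snd = x.fst := by rw [hg, FlatOf_ss, R.hσ]
  have hσg : R.σ g = q := by rw [hg, ← R.hφ, ← hσx]
  have hqsnd : q.snd = y.fst := by rw [FlatOf_snd R, ht, FlatOf_fs, hxy']
  have hσ2g : R.σ (R.σ g) = R.φ (R.σ (R.σ y)) := by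
    rw [hσg, hfy, FlatOf_sd]
  obtain ⟨pg4, pg2, pga⟩ := FlatOf_per R g (by rw [hgfst]; exact nw.1)
  -- a
  set F4 := R.φ (R.φ (R.φ (R.φ f))) with hF4
  have hF4fst : F4.fst = FlatOf_A R x := rfl
  have hF4snd : F4.snd = FlatOf_W R x := by rw [FlatOf_snd R, hf5, hgfst]
  have hh : R.σ (R.σ (R.σ g)) = F4.symm := by
    apply R.σ.injective
    rw [pg4, ← R.hφ, hf5]
  set h := F4.symm with hhd
  have hσ2gsnd : (R.σ (R.σ g)).snd = FlatOf_C R y := by
    rw [hσ2g, FlatOf_snd R]; rfl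
  have hlenσ2g : R.len (R.σ (R.σ g)) = 6 := by rw [hσ2g, len_φ, hfylen]
  have hhlen : R.len h = 3 := by
    rw [← hh, FlatOf_lenσ]
    apply FlatOf_n3
    · rw [R.hσ, R.hσ, hgfst]; exact nw
    · exact hlenσ2g
  have hh3 : R.φ (R.φ (R.φ h)) = h := FlatOf_three R h hhlen
  have hφ2h : R.φ (R.φ h) = (R.σ (R.σ g)).symm := by
    apply R.φ.injective
    rw [hh3, FlatOf_sd, hh]
  have hhsnd : h.snd = FlatOf_A R x := by rw [hhd, FlatOf_ss, hF4fst]
  have hφhfst : (R.φ h).fst = FlatOf_A R x := by rw [R.fst_φ, hhsnd]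
  have hφhsnd : (R.φ h).snd = FlatOf_C R y := by
    rw [FlatOf_snd R, hφ2h, FlatOf_fs, hσ2gsnd]
  set F3 := R.φ (R.φ (R.φ f)) with hF3
  have hF3fst : F3.fst = FlatOf_B R x := rfl
  have hF3snd : F3.snd = FlatOf_A R x := by rw [FlatOf_snd R]; rfl
  set F2 := R.φ (R.φ f) with hF2
  have hF2fst : F2.fst = FlatOf_C R x := rfl
  have hF2snd : F2.snd = FlatOf_B R x := by rw [FlatOf_snd R]; rfl
  set Y1 := R.φ (R.σ (R.σ y)) with hY1
  have hY1fst : Y1.fst = FlatOf_W R x := by rw [hY1, R.fst_φ, hfy, FlatOf_ss, hqW]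
  have hY1snd : Y1.snd = FlatOf_C R y := by rw [FlatOf_snd R]; rfl
  have hY2fst : (R.φ Y1).fst = FlatOf_C R y := rfl
  have hY2snd : (R.φ Y1).snd = FlatOf_B R y := by rw [FlatOf_snd R]; rfl
  refine ⟨⟨?_, ?_, ?_, ?_⟩, ⟨?_, ?_, ?_, ?_⟩, ?_, ?_, ⟨?_, ?_, ?_, ?_, ?_⟩, ?_, ?_⟩
  · rw [hxy']; exact x.adj
  · have := g.adj
    rw [hgfst, hgsnd] at this
    exact this.symm
  · have := q.adj
    rw [hqW, hqsnd] at this
    exact this.symm
  · have := F4.adj
    rw [hF4fst, hF4snd] at this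
    exact this.symm
  · have := Y1.adj
    rwa [hY1fst, hY1snd] at this
  · have := (R.φ h).adj
    rwa [hφhfst, hφhsnd] at this
  · have := F3.adj
    rw [hF3fst, hF3snd] at this
    exact this.symm
  · have := F2.adj
    rw [hF2fst, hF2snd] at this
    exact this.symm
  · -- neighbours of v
    intro t ht'
    let d : G.Dart := ⟨(y.fst, t), ht'⟩
    have hdt : d.snd = t := rfl
    rw [← hdt]
    rcases pya d rfl with e | e | e | e
    · left; rw [e, FlatOf_snd R]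
    · right; right; left
      rw [e, FlatOf_snd R, ← FlatOf_sd]; rfl
    · right; right; right
      rw [e, hfy, FlatOf_ss, hqW]
    · right; left
      rw [e, hσ3y, FlatOf_ss]
  · intro t ht'
    let d : G.Dart := ⟨(FlatOf_W R x, t), ht'⟩
    have hdt : d.snd = t := rfl
    rw [← hdt]
    rcases pga d hgfst.symm with e | e | e | e
    · left; rw [e, hgsnd]
    · right; left; rw [e, hσg, hqsnd]
    · right; right; right; rw [e, hσ2gsnd]
    · right; right; left; rw [e, hh, hhsnd]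
  · -- b ≠ w
    intro hcon
    apply no_backtrack R hd F3
    refine FlatOf_ext ?_ ?_
    · rw [R.fst_φ]; rfl
    · rw [FlatOf_ss, hF3fst, hcon, ← hF4snd]
  · intro hcon
    apply no_backtrack R hd Y1
    refine FlatOf_ext ?_ ?_
    · rw [R.fst_φ]; rfl
    · rw [FlatOf_ss, hY2snd, hcon, hY1fst]
  · -- b ≠ c'
    intro hcon
    have e1 : R.σ F3.symm = F4 := by rw [← R.hφ]
    have e2 : R.σ F4 = R.φ h := by rw [hhd, FlatOf_sd]
    have hper := (FlatOf_per R F3.symm (by rw [FlatOf_fs, hF3snd]; exact na.1)).2.1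
    apply hper
    rw [e1, e2]
    refine FlatOf_ext ?_ ?_
    · rw [hφhfst, FlatOf_fs, hF3snd]
    · rw [hφhsnd, FlatOf_ss, hF3fst, hcon]
  · intro hcon
    have e1 : R.σ (R.φ h).symm = Y1.symm := by rw [← R.hφ, hφ2h, hσ2g]
    have e2 : R.σ Y1.symm = R.φ Y1 := by rw [← R.hφ]
    have hper := (FlatOf_per R (R.φ h).symm (by rw [FlatOf_fs, hφhsnd]; exact nc.1)).2.1
    apply hper
    rw [e1, e2]
    refine FlatOf_ext ?_ ?_
    · rw [hY2fst, FlatOf_fs, hφhsnd]
    · rw [hY2snd, FlatOf_ss, hφhfst, hcon]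
  · intro hcon
    apply no_backtrack R hd F2
    refine FlatOf_ext ?_ ?_
    · rw [R.fst_φ]; rfl
    · rw [FlatOf_ss, hF2fst, ← hcon, ← hF3snd]
  · intro hcon
    apply no_backtrack R hd x
    refine FlatOf_ext ?_ ?_
    · rw [R.fst_φ]; rfl
    · rw [← hxy, FlatOf_ss, hcon, ← FlatOf_snd R]
  · intro hcon
    apply py2
    refine FlatOf_ext ?_ ?_
    · rw [R.hσ, R.hσ]
    · rw [hfy, FlatOf_ss, hqW, ← hcon, ← FlatOf_snd R]

/-- the flat patch at a dart of a hexagonal face all of whose 30 vertices are nice -/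
theorem flat_of_nice (R : Rot G) (hf : Free45 G) (hd : ∀ v, 3 ≤ (nb G v).card) (d : G.Dart)
    (hlen : R.len d = 6)
    (hv : ∀ i, i < 6 → Nice R ((R.φ ^ i) d).fst)
    (hw : ∀ i, i < 6 → Nice R ((R.φ ^ 2) ((R.φ ^ i) d).symm).fst)
    (hc : ∀ i, i < 6 → Nice R ((R.φ ^ 2) ((R.σ ^ 2) ((R.φ ^ i) d))).fst)
    (hb : ∀ i, i < 6 → Nice R ((R.φ ^ 3) ((R.σ ^ 2) ((R.φ ^ i) d))).fst)
    (ha : ∀ i, i < 6 → Nice R ((R.φ ^ 4) ((R.σ ^ 2) ((R.φ ^ i) d))).fst) :
    ∃ v w a b c : Fin 6 → V, Flat G v w a b c := by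
  let E : Fin 6 → G.Dart := fun i => (R.φ ^ (i : ℕ)) d
  have hE1 : ∀ i : Fin 6, E (i + 1) = R.φ (E i) := by
    intro i
    have h6 : R.φ (R.φ (R.φ (R.φ (R.φ (R.φ d))))) = d := FlatOf_six R d hlen
    fin_cases i
    · rfl
    · rfl
    · rfl
    · rfl
    · rfl
    · exact h6.symm
  have hE1' : ∀ i : Fin 6, E i = R.φ (E (i - 1)) := by
    intro i
    have := hE1 (i - 1)
    rwa [sub_add_cancel] at this
  have hElen : ∀ i : Fin 6, R.len (E i) = 6 := by
    intro i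
    have : ∀ n : ℕ, R.len ((R.φ ^ n) d) = 6 := by
      intro n
      induction n with
      | zero => exact hlen
      | succ n ih => rw [pow_succ', Equiv.Perm.mul_apply, len_φ, ih]
    exact this i
  have hNv : ∀ i : Fin 6, Nice R (E i).fst := fun i => hv i i.isLt
  have hNw : ∀ i : Fin 6, Nice R (FlatOf_W R (E i)) := fun i => hw i i.isLt
  have hNc : ∀ i : Fin 6, Nice R (FlatOf_C R (E i)) := fun i => hc i i.isLt
  have hNb : ∀ i : Fin 6, Nice R (FlatOf_B R (E i)) := fun i => hb i i.isLt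
  have hNa : ∀ i : Fin 6, Nice R (FlatOf_A R (E i)) := fun i => ha i i.isLt
  have L := fun i : Fin 6 => FlatOf_local R hd (E i) (E (i + 1)) (hE1 i) (hElen i) (hNv i)
    (hNv (i + 1)) (hNw i) (hNa i) (hNc (i + 1))
  have L' := fun i : Fin 6 => FlatOf_local R hd (E (i - 1)) (E i) (hE1' i) (hElen (i - 1))
    (hNv (i - 1)) (hNv i) (hNw (i - 1)) (hNa (i - 1)) (hNc i)
  refine ⟨fun i => (E i).fst, fun i => FlatOf_W R (E i), fun i => FlatOf_A R (E i),
    fun i => FlatOf_B R (E i), fun i => FlatOf_C R (E i), ?_⟩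
  have h1 : ∀ i : Fin 6, (E i).fst ≠ (E (i + 1)).fst := fun i => (L i).1.1.ne
  have h2 : ∀ i : Fin 6, (E i).fst ≠ (E (i + 2)).fst := by
    intro i
    have := (L i).2.2.2.2.2.1
    rw [← hE1 (i + 1), show i + 1 + 1 = i + 2 by rw [add_assoc]; rfl] at this
    exact this
  have h2' : ∀ i : Fin 6, (E (i + 2)).fst ≠ FlatOf_W R (E i) := by
    intro i
    have := (L i).2.2.2.2.2.2
    rw [← hE1 (i + 1), show i + 1 + 1 = i + 2 by rw [add_assoc]; rfl] at this
    exact this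
  have h3 : ∀ i : Fin 6, (E i).fst ≠ (E (i + 3)).fst := by
    intro i hcon
    have a1 : G.Adj (E i).fst (E (i + 1)).fst := (L i).1.1
    have a2 : G.Adj (E (i + 1)).fst (E (i + 2)).fst := by
      have := (L (i + 1)).1.1
      rwa [show i + 1 + 1 = i + 2 by rw [add_assoc]; rfl] at this
    have a3 : G.Adj (E (i + 2)).fst (E i).fst := by
      have := (L (i + 2)).1.1
      rw [show i + 2 + 1 = i + 3 by rw [add_assoc]; rfl] at this
      rwa [hcon]
    have a4 : G.Adj (E i).fst (FlatOf_W R (E i)) := (L i).1.2.1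
    have a5 : G.Adj (E (i + 1)).fst (FlatOf_W R (E i)) := (L i).1.2.2.1
    exact hf.c4 _ _ _ _ a3.symm a2.symm a5 a4.symm (h1 i) (h2' i)
  refine
    { vinj := ?_
      vv := fun i => (L i).1.1
      vw := fun i => (L i).1.2.1
      vw' := fun i => (L i).1.2.2.1
      wa := fun i => (L i).1.2.2.2
      wc := fun i => (L i).2.1.1
      ac := fun i => (L i).2.1.2.1
      ab := fun i => (L i).2.1.2.2.1
      bc := fun i => (L i).2.1.2.2.2
      dv := fun i => (hNv i).1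
      dw := fun i => (hNw i).1
      da := fun i => (hNa i).1.le
      db := fun i => (hNb i).1.le
      dc := fun i => (hNc i).1.le
      nv := ?_
      nw := fun i x hx => (L i).2.2.2.1 x hx
      bw := fun i => (L i).2.2.2.2.1.1
      bw' := fun i => (L' i).2.2.2.2.1.2.1
      bc' := fun i => (L i).2.2.2.2.1.2.2.1
      ba' := fun i => (L' i).2.2.2.2.1.2.2.2.1
      ac' := fun i => (L i).2.2.2.2.1.2.2.2.2 }
  · intro i j hij
    obtain ⟨k, rfl⟩ : ∃ k, j = i + k := ⟨j - i, by abel⟩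
    have e6 : ∀ a b : Fin 6, a + b = 0 → i + a + b = i := by
      intro a b hab
      rw [add_assoc, hab, add_zero]
    fin_cases k
    · simp
    · exact absurd hij (h1 i)
    · exact absurd hij (h2 i)
    · exact absurd hij (h3 i)
    · have := h2 (i + 4)
      rw [e6 4 2 rfl] at this
      exact absurd hij.symm this
    · have := h1 (i + 5)
      rw [e6 5 1 rfl] at this
      exact absurd hij.symm this
  · intro i x hx
    have := (L' i).2.2.1 x hx
    rw [← hE1 i] at this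
    exact this

end Pool.Agent.H99.SF
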