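import Pool.Agent.H47.PT.Genus
import Pool.Agent.H99.SF.Basic

/-!
# Planarity is inherited by induced subgraphs
-/

namespace Pool.Agent.H99.SF

open Classical Pool.Agent.H47.PT Equiv.Perm

/-! ### first return permutations -/

section ret

variable {D : Type} [Finite D] (π : Equiv.Perm D) (P : D → Prop)

theorem ret_ex (x : {x // P x}) : ∃ k : ℕ, 1 ≤ k ∧ P ((π ^ k) x.1) :=
  ⟨orderOf π, orderOf_pos π, by rw [pow_orderOf_eq_one]; exact x.2⟩

/-- return time -/
noncomputable def rt (x : {x // P x}) : ℕ := Nat.find (ret_ex π P x)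

theorem rt_pos (x : {x // P x}) : 1 ≤ rt π P x := (Nat.find_spec (ret_ex π P x)).1

theorem rt_spec (x : {x // P x}) : P ((π ^ rt π P x) x.1) := (Nat.find_spec (ret_ex π P x)).2

theorem rt_min (x : {x // P x}) (k : ℕ) (h1 : 1 ≤ k) (h2 : k < rt π P x) : ¬ P ((π ^ k) x.1) :=
  fun h => Nat.find_min (ret_ex π P x) h2 ⟨h1, h⟩

/-- return map -/
noncomputable def retFun (x : {x // P x}) : {x // P x} := ⟨(π ^ rt π P x) x.1, rt_spec π P x⟩

theorem retFun_inj : Function.Injective (retFun π P) := by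
  have key : ∀ x y : {x // P x}, rt π P x ≤ rt π P y → retFun π P x = retFun π P y → x = y := by
    intro x y hle h
    have h1 : (π ^ rt π P x) x.1 = (π ^ rt π P y) y.1 := congrArg Subtype.val h
    have h2 : rt π P y = rt π P x + (rt π P y - rt π P x) := by omega
    rw [h2, pow_add, Equiv.Perm.mul_apply] at h1
    have h3 := (π ^ rt π P x).injective h1
    by_cases h4 : rt π P y - rt π P x = 0
    · rw [h4, pow_zero, Equiv.Perm.one_apply] at h3
      exact Subtype.ext h3
    · exfalso
      have h5 := rt_pos π P x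
      apply rt_min π P y (rt π P y - rt π P x) (by omega) (by omega)
      rw [← h3]
      exact x.2
  intro x y h
  rcases le_total (rt π P x) (rt π P y) with h1 | h1
  · exact key x y h1 h
  · exact (key y x h1 h.symm).symm

/-- the first return permutation -/
noncomputable def ret : Equiv.Perm {x // P x} :=
  Equiv.ofBijective _ (Finite.injective_iff_bijective.1 (retFun_inj π P))

theorem ret_apply (x : {x // P x}) : (ret π P x).1 = (π ^ rt π P x) x.1 := rfl

theorem ret_pow (m : ℕ) : ∀ x y : {x // P x}, (π ^ m) x.1 = y.1 → ∃ n : ℕ, (ret π P ^ n) x = y := by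
  induction m using Nat.strong_induction_on with
  | _ m ih =>
    intro x y hy
    by_cases hm : m = 0
    · subst hm
      refine ⟨0, ?_⟩
      rw [pow_zero, Equiv.Perm.one_apply] at hy ⊢
      exact Subtype.ext hy
    · have h1 : rt π P x ≤ m := by
        by_contra hcon
        apply rt_min π P x m (by omega) (by omega)
        rw [hy]; exact y.2
      have h2 := rt_pos π P x
      obtain ⟨n, hn⟩ := ih (m - rt π P x) (by omega) (ret π P x) y (by
        rw [ret_apply, ← Equiv.Perm.mul_apply, ← pow_add, Nat.sub_add_cancel h1, hy])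
      refine ⟨n + 1, ?_⟩
      rw [pow_succ, Equiv.Perm.mul_apply, hn]

end ret

/-! ### monotonicity of the Euler defect -/

section defect

variable {V : Type} [Fintype V] {G : SimpleGraph V}

/-- darts whose tails are connected by edges of `S` -/
def RS (G : SimpleGraph V) (S : Finset (Sym2 V)) : Setoid G.Dart where
  r x y := (SimpleGraph.fromEdgeSet (S : Set (Sym2 V))).Reachable x.fst y.fst
  iseqv := ⟨fun _ => SimpleGraph.Reachable.refl _, fun h => h.symm, fun h h' => h.trans h'⟩

omit [Fintype V] in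
theorem RS_iff {S : Finset (Sym2 V)} {x y : G.Dart} : (RS G S) x y ↔
    (SimpleGraph.fromEdgeSet (S : Set (Sym2 V))).Reachable x.fst y.fst := Iff.rfl

theorem RS_step (σ : Equiv.Perm G.Dart) (h1 : ∀ d, (σ d).fst = d.fst) (S : Finset (Sym2 V))
    (x : G.Dart) : (RS G S) x ((σ * (tau S : Equiv.Perm G.Dart)) x) := by
  rw [RS_iff, Equiv.Perm.mul_apply, h1, tau_apply]
  split_ifs with h
  · apply SimpleGraph.Adj.reachable
    rw [SimpleGraph.fromEdgeSet_adj]
    refine ⟨?_, x.adj.ne⟩
    exact h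
  · exact SimpleGraph.Reachable.refl _

theorem defect_step (σ : Equiv.Perm G.Dart) (h1 : ∀ d, (σ d).fst = d.fst) (S : Finset (Sym2 V))
    (hS : ∀ e ∈ S, e ∈ G.edgeSet) (d0 : G.Dart) (h : d0.edge ∉ S) :
    cyc (σ * (tau (insert d0.edge S) : Equiv.Perm G.Dart)) + 2 * Nat.card (Quotient (RS G S)) ≤
      cyc (σ * (tau S : Equiv.Perm G.Dart)) + 1 +
        2 * Nat.card (Quotient (RS G (insert d0.edge S))) := by
  have h2 := cyc_step (σ * (tau S : Equiv.Perm G.Dart)) d0 d0.symm (RS G S) (RS_step σ h1 S)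
    (cyc (σ * (tau S : Equiv.Perm G.Dart))) (2 * Nat.card (Quotient (RS G S))) le_rfl
  rw [tau_insert S d0 h, ← mul_assoc]
  have h3 : Nat.card (Quotient (joinPair (RS G S) d0 d0.symm)) ≤
      Nat.card (Quotient (RS G (insert d0.edge S))) := by
    apply card_le_of_le
    intro x y hxy
    rw [RS_iff] at hxy
    have key : ∀ {a b : V},
        (SimpleGraph.fromEdgeSet ((insert d0.edge S : Finset (Sym2 V)) : Set (Sym2 V))).Walk a b →
        ∀ x y : G.Dart, x.fst = a → y.fst = b → (joinPair (RS G S) d0 d0.symm) x y := by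
      intro a b p
      induction p with
      | nil =>
        intro x y hx hy
        refine Or.inl ?_
        rw [RS_iff, hx, hy]
      | @cons a c b hadj p ih =>
        intro x y hx hy
        rw [SimpleGraph.fromEdgeSet_adj] at hadj
        obtain ⟨hm, hne⟩ := hadj
        have hm' : s(a, c) ∈ insert d0.edge S := hm
        have hG : G.Adj a c := by
          rw [Finset.mem_insert] at hm'
          rcases hm' with hm' | hm'
          · have := d0.edge_mem
            rw [← hm'] at this
            exact this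
          · exact hS _ hm'
        have k1 : (joinPair (RS G S) d0 d0.symm) x ⟨(a, c), hG⟩ := by
          refine Or.inl ?_
          rw [RS_iff, hx]
        have k2 : (joinPair (RS G S) d0 d0.symm) ⟨(a, c), hG⟩ ⟨(c, a), hG.symm⟩ := by
          rw [Finset.mem_insert] at hm'
          rcases hm' with hm' | hm'
          · have h5 : (⟨(a, c), hG⟩ : G.Dart).edge = d0.edge := hm'
            rcases (SimpleGraph.dart_edge_eq_iff _ _).1 h5 with h6 | h6
            · refine Or.inr (Or.inl ⟨?_, ?_⟩)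
              · rw [h6]
              · have h7 : (⟨(c, a), hG.symm⟩ : G.Dart) = d0.symm := by
                  rw [← h6]; rfl
                rw [h7]
            · refine Or.inr (Or.inr ⟨?_, ?_⟩)
              · rw [h6]
              · have h7 : (⟨(c, a), hG.symm⟩ : G.Dart) = d0 := by
                  rw [← SimpleGraph.Dart.symm_symm d0, ← h6]; rfl
                rw [h7]
          · refine Or.inl ?_
            rw [RS_iff]
            apply SimpleGraph.Adj.reachable
            rw [SimpleGraph.fromEdgeSet_adj]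
            exact ⟨hm', hne⟩
        exact Setoid.trans' _ k1 (Setoid.trans' _ k2 (ih _ y rfl hy))
    obtain ⟨p⟩ := hxy
    exact key p x y rfl rfl
  omega

theorem defect_mono (σ : Equiv.Perm G.Dart) (h1 : ∀ d, (σ d).fst = d.fst) (S : Finset (Sym2 V))
    (hS : ∀ e ∈ S, e ∈ G.edgeSet) (W : Finset (Sym2 V)) (hW : ∀ e ∈ W, e ∈ G.edgeSet) :
    cyc (σ * (tau (W ∪ S) : Equiv.Perm G.Dart)) + S.card + 2 * Nat.card (Quotient (RS G S)) ≤
      cyc (σ * (tau S : Equiv.Perm G.Dart)) + (W ∪ S).card +
        2 * Nat.card (Quotient (RS G (W ∪ S))) := by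
  induction W using Finset.induction_on with
  | empty => rw [Finset.empty_union]
  | insert e W he ih =>
    have ih := ih (fun x hx => hW x (Finset.mem_insert_of_mem hx))
    rw [Finset.insert_union]
    by_cases h : e ∈ W ∪ S
    · rw [Finset.insert_eq_of_mem h]
      exact ih
    · have heG : e ∈ G.edgeSet := hW e (Finset.mem_insert_self _ _)
      have hd0 : ∃ d0 : G.Dart, d0.edge = e := by
        induction e with
        | _ a b => exact ⟨⟨(a, b), heG⟩, rfl⟩
      obtain ⟨d0, rfl⟩ := hd0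
      have h2 := defect_step σ h1 (W ∪ S) (by
        intro x hx
        rcases Finset.mem_union.1 hx with h3 | h3
        · exact hW x (Finset.mem_insert_of_mem h3)
        · exact hS x h3) d0 h
      rw [Finset.card_insert_of_notMem h]
      omega

/-- the bound for the edge set `S` if the genus of `G` is `0` -/
theorem defect_planar (σ φ : Equiv.Perm G.Dart) (h1 : ∀ d, (σ d).fst = d.fst)
    (h3 : ∀ d, φ d = σ d.symm)
    (h4 : Nat.card V + (Nat.card (Quotient (SameCycle.setoid φ))
        + Nat.card {v : V // ∀ w, ¬ G.Adj v w})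
      = Nat.card G.edgeSet + 2 * Nat.card G.ConnectedComponent)
    (S : Finset (Sym2 V)) (hS : ∀ e ∈ S, e ∈ G.edgeSet) :
    S.card + 2 * Nat.card (Quotient (RS G S)) + Nat.card {v : V // ∀ w, ¬ G.Adj v w} ≤
      cyc (σ * (tau S : Equiv.Perm G.Dart)) + Nat.card V := by
  have hm := defect_mono σ h1 S hS G.edgeFinset (fun e he => by
    rwa [SimpleGraph.mem_edgeFinset] at he)
  have hun : G.edgeFinset ∪ S = G.edgeFinset := by
    rw [Finset.union_eq_left]
    intro e he
    rw [SimpleGraph.mem_edgeFinset]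
    exact hS e he
  rw [hun] at hm
  have e1 : (σ * tau G.edgeFinset : Equiv.Perm G.Dart) = φ := by
    ext1 d
    rw [Equiv.Perm.mul_apply, tau_apply, if_pos, h3]
    rw [SimpleGraph.mem_edgeFinset]
    exact d.edge_mem
  rw [e1] at hm
  have e2 : (G.edgeFinset.card) = Nat.card G.edgeSet := by
    rw [Nat.card_eq_fintype_card, SimpleGraph.edgeFinset_card]
  rw [e2] at hm
  have e4 : Nat.card (Quotient (RS G G.edgeFinset)) + Nat.card {v : V // ∀ w, ¬ G.Adj v w} ≤
      Nat.card G.ConnectedComponent := by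
    rw [← Nat.card_sum]
    let f : Quotient (RS G G.edgeFinset) ⊕ {v : V // ∀ w, ¬ G.Adj v w} → G.ConnectedComponent :=
      fun q => match q with
      | Sum.inl q => G.connectedComponentMk q.out.fst
      | Sum.inr v => G.connectedComponentMk v.1
    have hiso : ∀ v : V, (∀ w, ¬ G.Adj v w) → ∀ w, G.Reachable v w → w = v := by
      intro v hv w hvw
      obtain ⟨p⟩ := hvw
      cases p with
      | nil => rfl
      | cons h _ => exact absurd h (hv _)
    apply Nat.card_le_card_of_injective f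
    rintro (p | v) (q | w) h
    · have h5 : G.Reachable p.out.fst q.out.fst := SimpleGraph.ConnectedComponent.eq.1 h
      have h6 : (RS G G.edgeFinset) p.out q.out := by
        rw [RS_iff, SimpleGraph.coe_edgeFinset, SimpleGraph.fromEdgeSet_edgeSet]
        exact h5
      have h7 := Quotient.sound h6
      rw [Quotient.out_eq, Quotient.out_eq] at h7
      rw [h7]
    · exfalso
      have h5 : G.Reachable w.1 p.out.fst := (SimpleGraph.ConnectedComponent.eq.1 h).symm
      have h6 := hiso _ w.2 _ h5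
      exact w.2 p.out.snd (h6 ▸ p.out.adj)
    · exfalso
      have h5 : G.Reachable v.1 q.out.fst := SimpleGraph.ConnectedComponent.eq.1 h
      have h6 := hiso _ v.2 _ h5
      exact v.2 q.out.snd (h6 ▸ q.out.adj)
    · have h5 : G.Reachable v.1 w.1 := SimpleGraph.ConnectedComponent.eq.1 h
      have h6 := hiso _ v.2 _ h5
      congr 1
      exact Subtype.ext h6.symm
  have e5 : cyc φ = Nat.card (Quotient (SameCycle.setoid φ)) := rfl
  omega

end defect

/-! ### the induced rotation system -/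

section induce

variable {V : Type} [Fintype V] (G : SimpleGraph V) (U : Set V)

/-- darts with both ends in `U` -/
def PU (d : G.Dart) : Prop := d.fst ∈ U ∧ d.snd ∈ U

/-- the darts of the induced subgraph -/
def eU : (G.induce U).Dart ≃ {d : G.Dart // PU G U d} where
  toFun d := ⟨⟨(d.fst.1, d.snd.1), d.adj⟩, ⟨d.fst.2, d.snd.2⟩⟩
  invFun d := ⟨(⟨d.1.fst, d.2.1⟩, ⟨d.1.snd, d.2.2⟩), d.1.adj⟩
  left_inv _ := rfl
  right_inv _ := rfl

/-- the edges inside `U` -/
noncomputable def SU : Finset (Sym2 V) :=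
  Finset.univ.filter (fun e => e ∈ G.edgeSet ∧ ∀ v ∈ e, v ∈ U)

theorem mem_SU (d : G.Dart) : d.edge ∈ SU G U ↔ PU G U d := by
  unfold SU PU
  rw [Finset.mem_filter]
  constructor
  · rintro ⟨-, -, h⟩
    exact ⟨h _ (Sym2.mem_mk_left _ _), h _ (Sym2.mem_mk_right _ _)⟩
  · rintro ⟨h1, h2⟩
    refine ⟨Finset.mem_univ _, d.edge_mem, ?_⟩
    intro v hv
    have hv' : v ∈ s(d.fst, d.snd) := hv
    rw [Sym2.mem_iff] at hv'
    rcases hv' with h | h
    · rw [h]; exact h1
    · rw [h]; exact h2

theorem SU_edge : ∀ e ∈ SU G U, e ∈ G.edgeSet := by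
  intro e he
  unfold SU at he
  rw [Finset.mem_filter] at he
  exact he.2.1

variable {G} in
/-- the induced rotation -/
noncomputable def sU (σ : Equiv.Perm G.Dart) : Equiv.Perm (G.induce U).Dart :=
  (eU G U).trans ((ret σ (PU G U)).trans (eU G U).symm)

variable {G} in
/-- the induced face permutation -/
noncomputable def fU (σ : Equiv.Perm G.Dart) : Equiv.Perm (G.induce U).Dart :=
  (Function.Involutive.toPerm SimpleGraph.Dart.symm SimpleGraph.Dart.symm_involutive).trans
    (sU U σ)

variable {G}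

theorem fU_apply (σ : Equiv.Perm G.Dart) (d : (G.induce U).Dart) :
    fU U σ d = sU U σ d.symm := rfl

theorem eU_sU (σ : Equiv.Perm G.Dart) (d : (G.induce U).Dart) :
    eU G U (sU U σ d) = ret σ (PU G U) (eU G U d) := by
  unfold sU
  rw [Equiv.trans_apply, Equiv.trans_apply, Equiv.apply_symm_apply]

theorem eU_sU_pow (σ : Equiv.Perm G.Dart) (n : ℕ) (d : (G.induce U).Dart) :
    eU G U ((sU U σ ^ n) d) = (ret σ (PU G U) ^ n) (eU G U d) := by
  induction n with
  | zero => rfl
  | succ n ih => rw [pow_succ', pow_succ', Equiv.Perm.mul_apply, Equiv.Perm.mul_apply, eU_sU, ih]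

omit [Fintype V] in
theorem pow_fst (σ : Equiv.Perm G.Dart) (h1 : ∀ d, (σ d).fst = d.fst) (n : ℕ) (x : G.Dart) :
    ((σ ^ n) x).fst = x.fst := by
  induction n with
  | zero => rfl
  | succ n ih => rw [pow_succ', Equiv.Perm.mul_apply, h1, ih]

theorem sU_fst (σ : Equiv.Perm G.Dart) (h1 : ∀ d, (σ d).fst = d.fst) (d : (G.induce U).Dart) :
    (sU U σ d).fst = d.fst := by
  apply Subtype.ext
  have h2 : (eU G U (sU U σ d)).1.fst = (eU G U d).1.fst := by
    rw [eU_sU, ret_apply, pow_fst σ h1]
  exact h2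

theorem sU_tr (σ : Equiv.Perm G.Dart) (h2 : ∀ d d' : G.Dart, d.fst = d'.fst →
    ∃ n : ℕ, (σ ^ n) d = d') (d d' : (G.induce U).Dart) (h : d.fst = d'.fst) :
    ∃ n : ℕ, (sU U σ ^ n) d = d' := by
  obtain ⟨m, hm⟩ := h2 (eU G U d).1 (eU G U d').1 (congrArg Subtype.val h)
  obtain ⟨n, hn⟩ := ret_pow σ (PU G U) m (eU G U d) (eU G U d') hm
  refine ⟨n, ?_⟩
  apply (eU G U).injective
  rw [eU_sU_pow, hn]

theorem same_fU (σ : Equiv.Perm G.Dart) (d : (G.induce U).Dart) :
    SameCycle (σ * (tau (SU G U) : Equiv.Perm G.Dart)) (eU G U d).1 (eU G U (fU U σ d)).1 := by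
  rw [fU_apply, eU_sU, ret_apply]
  have h0 : (eU G U d.symm).1 = (eU G U d).1.symm := rfl
  have key : ∀ i : ℕ, 1 ≤ i → i ≤ rt σ (PU G U) (eU G U d.symm) →
      SameCycle (σ * (tau (SU G U) : Equiv.Perm G.Dart)) (eU G U d).1
        ((σ ^ i) (eU G U d.symm).1) := by
    intro i hi
    induction i, hi using Nat.le_induction with
    | base =>
      intro _
      refine ⟨1, ?_⟩
      rw [zpow_one, Equiv.Perm.mul_apply, tau_apply, if_pos ((mem_SU G U _).2 (eU G U d).2), h0,
        pow_one]
    | succ i hi ih =>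
      intro h2
      refine SameCycle.trans (ih (by omega)) ⟨1, ?_⟩
      rw [zpow_one, Equiv.Perm.mul_apply, tau_apply, if_neg, pow_succ', Equiv.Perm.mul_apply]
      rw [mem_SU]
      exact rt_min σ (PU G U) _ i hi (by omega)
  exact key _ (rt_pos _ _ _) le_rfl

theorem same_of_same (σ : Equiv.Perm G.Dart) {d d' : (G.induce U).Dart}
    (h : SameCycle (fU U σ) d d') :
    SameCycle (σ * (tau (SU G U) : Equiv.Perm G.Dart)) (eU G U d).1 (eU G U d').1 :=
  sameCycle_of_step (π := fU U σ) (Setoid.comap (fun d => (eU G U d).1)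
    (SameCycle.setoid (σ * (tau (SU G U) : Equiv.Perm G.Dart)))) (fun d => same_fU U σ d) h

/-- if the cycle of `x` does not meet `P` it contains all the darts with the same tail -/
theorem same_of_avoid (σ : Equiv.Perm G.Dart) (x : G.Dart)
    (h : ∀ d : (G.induce U).Dart,
      ¬ SameCycle (σ * (tau (SU G U) : Equiv.Perm G.Dart)) x (eU G U d).1) (i : ℕ) :
    SameCycle (σ * (tau (SU G U) : Equiv.Perm G.Dart)) x ((σ ^ i) x) := by
  induction i with
  | zero => exact SameCycle.refl _ _
  | succ i ih =>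
    refine SameCycle.trans ih ⟨1, ?_⟩
    rw [zpow_one, Equiv.Perm.mul_apply, tau_apply, if_neg, pow_succ', Equiv.Perm.mul_apply]
    rw [mem_SU]
    intro hP
    have := h ((eU G U).symm ⟨_, hP⟩)
    rw [Equiv.apply_symm_apply] at this
    exact this ih

/-- non-isolated vertices which are isolated in the subgraph of the edges inside `U` -/
def MM (G : SimpleGraph V) (U : Set V) (v : V) : Prop :=
  (∃ w, G.Adj v w) ∧ ∀ w, G.Adj v w → ¬ (v ∈ U ∧ w ∈ U)

theorem cyc_tau_le (σ : Equiv.Perm G.Dart) (h2 : ∀ d d' : G.Dart, d.fst = d'.fst →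
    ∃ n : ℕ, (σ ^ n) d = d') :
    cyc (σ * (tau (SU G U) : Equiv.Perm G.Dart)) ≤
      cyc (fU U σ) + Nat.card {v : V // MM G U v} := by
  set π := σ * (tau (SU G U) : Equiv.Perm G.Dart) with hπ
  have hav : ∀ q : Quotient (SameCycle.setoid π),
      (¬ ∃ d : (G.induce U).Dart, Quotient.mk _ (eU G U d).1 = q) → ∀ i : ℕ,
      SameCycle π q.out ((σ ^ i) q.out) := by
    intro q hq i
    apply same_of_avoid U σ q.out
    intro d hd
    apply hq
    refine ⟨d, ?_⟩
    rw [← Quotient.out_eq q]
    exact Quotient.sound (Setoid.symm' _ hd)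
  have hM : ∀ q : Quotient (SameCycle.setoid π),
      (¬ ∃ d : (G.induce U).Dart, Quotient.mk _ (eU G U d).1 = q) → MM G U q.out.fst := by
    intro q hq
    refine ⟨⟨q.out.snd, q.out.adj⟩, ?_⟩
    intro w hw hU
    obtain ⟨n, hn⟩ := h2 q.out ⟨(q.out.fst, w), hw⟩ rfl
    have h3 := hav q hq n
    rw [hn] at h3
    apply hq
    refine ⟨(eU G U).symm ⟨⟨(q.out.fst, w), hw⟩, hU⟩, ?_⟩
    rw [Equiv.apply_symm_apply]
    exact (Quotient.sound (Setoid.symm' _ h3)).trans (Quotient.out_eq q)
  let f : Quotient (SameCycle.setoid π) →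
      Quotient (SameCycle.setoid (fU U σ)) ⊕ {v : V // MM G U v} := fun q =>
    if h : ∃ d : (G.induce U).Dart, Quotient.mk _ (eU G U d).1 = q then
      Sum.inl (Quotient.mk _ h.choose)
    else Sum.inr ⟨q.out.fst, hM q h⟩
  have hf : Function.Injective f := by
    intro p q hpq
    simp only [f] at hpq
    split_ifs at hpq with h4 h5 h5
    · rw [Sum.inl.injEq] at hpq
      have h6 : SameCycle (fU U σ) h4.choose h5.choose := Quotient.exact hpq
      have h7 := same_of_same U σ h6
      rw [← h4.choose_spec, ← h5.choose_spec]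
      exact Quotient.sound h7
    · rw [Sum.inr.injEq, Subtype.mk.injEq] at hpq
      obtain ⟨n, hn⟩ := h2 p.out q.out hpq
      have h6 := hav p h4 n
      rw [hn] at h6
      rw [← Quotient.out_eq p, ← Quotient.out_eq q]
      exact Quotient.sound h6
  have := Nat.card_le_card_of_injective f hf
  rwa [Nat.card_sum] at this

theorem HU_adj {v w : V}
    (h : (SimpleGraph.fromEdgeSet ((SU G U : Finset (Sym2 V)) : Set (Sym2 V))).Adj v w) :
    G.Adj v w ∧ v ∈ U ∧ w ∈ U := by
  rw [SimpleGraph.fromEdgeSet_adj] at h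
  have h1 : s(v, w) ∈ SU G U := h.1
  unfold SU at h1
  rw [Finset.mem_filter] at h1
  exact ⟨h1.2.1, h1.2.2 _ (Sym2.mem_mk_left _ _), h1.2.2 _ (Sym2.mem_mk_right _ _)⟩

theorem HU_reach {v w : V}
    (h : (SimpleGraph.fromEdgeSet ((SU G U : Finset (Sym2 V)) : Set (Sym2 V))).Reachable v w)
    (hv : v ∈ U) (hw : w ∈ U) : (G.induce U).Reachable ⟨v, hv⟩ ⟨w, hw⟩ := by
  obtain ⟨p⟩ := h
  induction p with
  | nil => exact SimpleGraph.Reachable.refl _
  | @cons a c b hadj p ih =>
    obtain ⟨h1, h2, h3⟩ := HU_adj U hadj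
    have h4 : (G.induce U).Adj ⟨a, hv⟩ ⟨c, h3⟩ := h1
    exact h4.reachable.trans (ih h3 hw)

theorem HU_eq {v w : V}
    (h : (SimpleGraph.fromEdgeSet ((SU G U : Finset (Sym2 V)) : Set (Sym2 V))).Reachable v w)
    (hv : v ∉ U) : v = w := by
  obtain ⟨p⟩ := h
  cases p with
  | nil => rfl
  | cons hadj p => exact absurd (HU_adj U hadj).2.1 hv

theorem comp_le : Nat.card (G.induce U).ConnectedComponent +
      Nat.card {v : V // v ∉ U ∧ ∃ w, G.Adj v w} ≤
    Nat.card (Quotient (RS G (SU G U))) + Nat.card {v : V // v ∈ U ∧ ∀ w, ¬ G.Adj v w} := by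
  rw [← Nat.card_sum, ← Nat.card_sum]
  have hout : ∀ c : (G.induce U).ConnectedComponent, ∃ v : U,
      (G.induce U).connectedComponentMk v = c := by
    intro c
    induction c using SimpleGraph.ConnectedComponent.ind with
    | h v => exact ⟨v, rfl⟩
  choose o ho using hout
  let f : (G.induce U).ConnectedComponent ⊕ {v : V // v ∉ U ∧ ∃ w, G.Adj v w} →
      Quotient (RS G (SU G U)) ⊕ {v : V // v ∈ U ∧ ∀ w, ¬ G.Adj v w} := fun x =>
    match x with
    | Sum.inl c => if h : ∃ w, G.Adj (o c).1 w then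
        Sum.inl (Quotient.mk _ ⟨((o c).1, h.choose), h.choose_spec⟩)
      else Sum.inr ⟨(o c).1, (o c).2, fun w hw => h ⟨w, hw⟩⟩
    | Sum.inr v => Sum.inl (Quotient.mk _ ⟨(v.1, v.2.2.choose), v.2.2.choose_spec⟩)
  apply Nat.card_le_card_of_injective f
  rintro (p | v) (q | w) h
  · simp only [f] at h
    split_ifs at h with h4 h5 h5
    · rw [Sum.inl.injEq] at h
      have h6 := Quotient.exact h
      have h7 : (G.induce U).Reachable (o p) (o q) := HU_reach U h6 (o p).2 (o q).2
      rw [← ho p, ← ho q, SimpleGraph.ConnectedComponent.eq.2 h7]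
    · rw [Sum.inr.injEq, Subtype.mk.injEq] at h
      have h7 : o p = o q := Subtype.ext h
      rw [← ho p, ← ho q, h7]
  · exfalso
    simp only [f] at h
    split_ifs at h with h4
    rw [Sum.inl.injEq] at h
    have h6 := Quotient.exact h.symm
    have h7 : w.1 = (o p).1 := HU_eq U h6 w.2.1
    exact w.2.1 (h7 ▸ (o p).2)
  · exfalso
    simp only [f] at h
    split_ifs at h with h4
    rw [Sum.inl.injEq] at h
    have h6 := Quotient.exact h
    have h7 : v.1 = (o q).1 := HU_eq U h6 v.2.1
    exact v.2.1 (h7 ▸ (o q).2)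
  · simp only [f] at h
    rw [Sum.inl.injEq] at h
    have h6 := Quotient.exact h
    have h7 : v.1 = w.1 := HU_eq U h6 v.2.1
    congr 1
    exact Subtype.ext h7

theorem edge_le : Nat.card (G.induce U).edgeSet ≤ (SU G U).card := by
  have h1 : Nat.card {e : Sym2 V // e ∈ SU G U} = (SU G U).card := by
    rw [Nat.card_eq_fintype_card, Fintype.card_coe]
  rw [← h1]
  have hm : ∀ e : Sym2 U, e ∈ (G.induce U).edgeSet → Sym2.map Subtype.val e ∈ SU G U := by
    intro e he
    induction e with
    | _ a b =>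
      have h2 : G.Adj a.1 b.1 := he
      rw [Sym2.map_mk]
      have h3 := (mem_SU G U ⟨(a.1, b.1), h2⟩).2 ⟨a.2, b.2⟩
      exact h3
  let f : (G.induce U).edgeSet → {e : Sym2 V // e ∈ SU G U} := fun e =>
    ⟨Sym2.map Subtype.val e.1, hm e.1 e.2⟩
  apply Nat.card_le_card_of_injective f
  intro e e' h
  simp only [f, Subtype.mk.injEq] at h
  exact Subtype.ext (Sym2.map.injective Subtype.val_injective h)

theorem count_le : Nat.card {v : V // MM G U v} + Nat.card V +
      2 * Nat.card {v : V // v ∈ U ∧ ∀ w, ¬ G.Adj v w} ≤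
    Nat.card {v : V // ∀ w, ¬ G.Adj v w} +
      Nat.card {v : U // ∀ w, ¬ (G.induce U).Adj v w} + Nat.card U +
      2 * Nat.card {v : V // v ∉ U ∧ ∃ w, G.Adj v w} := by
  have e1 : Nat.card {v : V // v ∈ U ∧ ∀ w, G.Adj v w → w ∉ U} ≤
      Nat.card {v : U // ∀ w, ¬ (G.induce U).Adj v w} := by
    let f : {v : V // v ∈ U ∧ ∀ w, G.Adj v w → w ∉ U} →
        {v : U // ∀ w, ¬ (G.induce U).Adj v w} := fun v =>
      ⟨⟨v.1, v.2.1⟩, fun w hw => v.2.2 w.1 hw w.2⟩
    apply Nat.card_le_card_of_injective f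
    intro v w h
    simp only [f, Subtype.mk.injEq] at h
    exact Subtype.ext h
  have e2 : Nat.card U = Nat.card {v : V // v ∈ U} := rfl
  have e3 : Nat.card V = Nat.card {v : V // True} :=
    Nat.card_congr (Equiv.subtypeUnivEquiv (fun _ => trivial)).symm
  have e4 : Nat.card {v : V // MM G U v} + Nat.card {v : V // True} +
      2 * Nat.card {v : V // v ∈ U ∧ ∀ w, ¬ G.Adj v w} ≤
    Nat.card {v : V // ∀ w, ¬ G.Adj v w} +
      Nat.card {v : V // v ∈ U ∧ ∀ w, G.Adj v w → w ∉ U} + Nat.card {v : V // v ∈ U} +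
      2 * Nat.card {v : V // v ∉ U ∧ ∃ w, G.Adj v w} := by
    simp only [Nat.card_eq_fintype_card, Fintype.card_subtype, Finset.card_filter]
    rw [← Finset.sum_add_distrib, Finset.mul_sum, ← Finset.sum_add_distrib,
      ← Finset.sum_add_distrib, ← Finset.sum_add_distrib, Finset.mul_sum,
      ← Finset.sum_add_distrib]
    apply Finset.sum_le_sum
    intro v _
    have h1 : MM G U v ↔ (∃ w, G.Adj v w) ∧ (v ∈ U → ∀ w, G.Adj v w → w ∉ U) := by
      unfold MM
      constructor
      · rintro ⟨h, h'⟩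
        exact ⟨h, fun hv w hw hwU => h' w hw ⟨hv, hwU⟩⟩
      · rintro ⟨h, h'⟩
        exact ⟨h, fun w hw hU => h' hU.1 w hw hU.2⟩
    by_cases a1 : v ∈ U
    · by_cases a2 : ∃ w, G.Adj v w
      · have a2' : ¬ ∀ w, ¬ G.Adj v w := by push Not; exact a2
        by_cases a3 : ∀ w, G.Adj v w → w ∉ U
        · have b1 : MM G U v := h1.2 ⟨a2, fun _ => a3⟩
          simp only [a1, a2, a2', b1, if_true, true_and, if_false, not_true, false_and]
          rw [if_pos a3]
        · have b1 : ¬ MM G U v := fun h => a3 ((h1.1 h).2 a1)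
          simp [a1, a2, a2', a3, b1]
      · have a2' : ∀ w, ¬ G.Adj v w := by push Not at a2; exact a2
        have a3 : ∀ w, G.Adj v w → w ∉ U := fun w hw => absurd hw (a2' w)
        have b1 : ¬ MM G U v := fun h => a2 (h1.1 h).1
        rw [if_neg b1, if_pos trivial, if_pos ⟨a1, a2'⟩, if_pos a2', if_pos ⟨a1, a3⟩, if_pos a1]
        omega
    · by_cases a2 : ∃ w, G.Adj v w
      · have a2' : ¬ ∀ w, ¬ G.Adj v w := by push Not; exact a2
        have b1 : MM G U v := h1.2 ⟨a2, fun h => absurd h a1⟩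
        simp [a1, a2, a2', b1]
      · have a2' : ∀ w, ¬ G.Adj v w := by push Not at a2; exact a2
        have b1 : ¬ MM G U v := fun h => a2 (h1.1 h).1
        simp [a1, a2', b1]
  omega

end induce

theorem isPlanar_induce {V : Type} [Fintype V] (G : SimpleGraph V) (h : IsPlanar G) (U : Set V) :
    IsPlanar (G.induce U) := by
  obtain ⟨σ, φ, h1, h2, h3, h4⟩ := h
  refine ⟨sU U σ, fU U σ, sU_fst U σ h1, sU_tr U σ h2, fU_apply U σ, ?_⟩
  have k1 := defect_planar σ φ h1 h3 h4 (SU G U) (SU_edge G U)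
  have k2 := cyc_tau_le U σ h2
  have k3 := comp_le (G := G) U
  have k4 := edge_le (G := G) U
  have k5 := count_le (G := G) U
  have k6 := genus_nonneg (sU U σ) (fU U σ) (sU_fst U σ h1) (sU_tr U σ h2) (fU_apply U σ)
  have k7 : cyc (fU U σ) = Nat.card (Quotient (SameCycle.setoid (fU U σ))) := rfl
  omega

end Pool.Agent.H99.SF
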