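import Pool.Agent.H99.SF.ElimA
import Pool.Agent.H99.SF.ElimB
import Pool.Agent.H99.SF.Hered
import Pool.Agent.H99.SF.FlatExists
import Pool.Agent.H99.SF.Clusters

/-!
# Assembly
-/

namespace Pool.Agent.H99.SF

open Classical
open Pool.Agent.H47.PT (IsPlanar)

theorem exists_KK : ∃ K : ℕ, K = 1600000000 := ⟨_, rfl⟩

/-- the number of steps -/
noncomputable def KK : ℕ := exists_KK.choose

theorem KK_eq : KK = 1600000000 := exists_KK.choose_spec

attribute [local irreducible] bb eps

/-! ### from cycles to adjacency -/

theorem free45_of {V : Type} {G : SimpleGraph V} (h4 : NoCyc G 4) (h5 : NoCyc G 5) :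
    Free45 G where
  c4 := by
    intro a b c d hab hbc hcd hda hac hbd
    let p : G.Walk a a := .cons hab (.cons hbc (.cons hcd (.cons hda .nil)))
    have hp : p.IsCycle := by
      rw [SimpleGraph.Walk.isCycle_def]
      refine ⟨?_, by simp [p], ?_⟩
      · rw [SimpleGraph.Walk.isTrail_def]
        simp only [p, SimpleGraph.Walk.edges_cons, SimpleGraph.Walk.edges_nil, List.nodup_cons,
          List.mem_cons, List.not_mem_nil, or_false, not_false_eq_true, List.nodup_nil, and_true,
          Sym2.eq_iff, not_or]
        have n1 := hab.ne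
        have n2 := hbc.ne
        have n3 := hcd.ne
        have n4 := hda.ne
        have n5 := hac
        have n6 := hbd
        grind
      · simp only [p, SimpleGraph.Walk.support_cons, SimpleGraph.Walk.support_nil, List.tail_cons,
          List.nodup_cons, List.mem_cons, List.not_mem_nil, or_false, not_false_eq_true,
          List.nodup_nil, and_true, not_or]
        have n1 := hab.ne
        have n2 := hbc.ne
        have n3 := hcd.ne
        have n4 := hda.ne
        grind
    exact h4 a p hp (by simp [p])
  c5 := by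
    intro a b c d e hab hbc hcd hde hea hac had hbd hbe hce
    let p : G.Walk a a := .cons hab (.cons hbc (.cons hcd (.cons hde (.cons hea .nil))))
    have hp : p.IsCycle := by
      rw [SimpleGraph.Walk.isCycle_def]
      refine ⟨?_, by simp [p], ?_⟩
      · rw [SimpleGraph.Walk.isTrail_def]
        simp only [p, SimpleGraph.Walk.edges_cons, SimpleGraph.Walk.edges_nil, List.nodup_cons,
          List.mem_cons, List.not_mem_nil, or_false, not_false_eq_true, List.nodup_nil, and_true,
          Sym2.eq_iff, not_or]
        have n1 := hab.ne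
        have n2 := hbc.ne
        have n3 := hcd.ne
        have n4 := hde.ne
        have n5 := hea.ne
        grind
      · simp only [p, SimpleGraph.Walk.support_cons, SimpleGraph.Walk.support_nil, List.tail_cons,
          List.nodup_cons, List.mem_cons, List.not_mem_nil, or_false, not_false_eq_true,
          List.nodup_nil, and_true, not_or]
        have n1 := hab.ne
        have n2 := hbc.ne
        have n3 := hcd.ne
        have n4 := hde.ne
        have n5 := hea.ne
        grind
    exact h5 a p hp (by simp [p])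

theorem free45_induce {V : Type} {G : SimpleGraph V} (h : Free45 G) (U : Set V) :
    Free45 (G.induce U) where
  c4 := fun a b c d h1 h2 h3 h4 h5 h6 => h.c4 a b c d h1 h2 h3 h4
    (fun e => h5 (Subtype.ext e)) (fun e => h6 (Subtype.ext e))
  c5 := fun a b c d e h1 h2 h3 h4 h5 h6 h7 h8 h9 h10 => h.c5 a b c d e h1 h2 h3 h4 h5
    (fun e => h6 (Subtype.ext e)) (fun e => h7 (Subtype.ext e)) (fun e => h8 (Subtype.ext e))
    (fun e => h9 (Subtype.ext e)) (fun e => h10 (Subtype.ext e))

/-! ### extension of colourings -/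

section
variable {V : Type} [Fintype V] {G : SimpleGraph V}

/-- colour `G - S` first, then `S` -/
theorem choosable_extend {a b : ℕ} (S : Finset V)
    (hrest : Choosable (G.induce {v | v ∉ S}) a b)
    (hS : ∀ L : V → Finset ℤ, (∀ v ∈ S, a ≤ (L v).card + out G S v * b) →
      ∃ φ : V → Finset ℤ, (∀ v ∈ S, φ v ⊆ L v ∧ (φ v).card = b) ∧
        ∀ u ∈ S, ∀ v ∈ S, G.Adj u v → Disjoint (φ u) (φ v)) : Choosable G a b := by
  intro L hL
  obtain ⟨T, hT1, hT2⟩ := hrest (fun v => L v.1) (fun v => hL v.1)
  let T' : V → Finset ℤ := fun v => if h : v ∉ S then T ⟨v, h⟩ else ∅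
  have hT'1 : ∀ v, v ∉ S → T' v ⊆ L v ∧ (T' v).card = b := by
    intro v hv
    simp only [T', dif_pos hv]
    exact hT1 ⟨v, hv⟩
  have hT'2 : ∀ u v, u ∉ S → v ∉ S → G.Adj u v → Disjoint (T' u) (T' v) := by
    intro u v hu hv huv
    simp only [T', dif_pos hu, dif_pos hv]
    exact hT2 ⟨u, hu⟩ ⟨v, hv⟩ huv
  let L' : V → Finset ℤ := fun v => L v \ (nb G v \ S).biUnion T'
  obtain ⟨φ, hφ1, hφ2⟩ := hS L' (by
    intro v hv
    have h1 : ((nb G v \ S).biUnion T').card ≤ out G S v * b := by
      unfold out
      refine Finset.card_biUnion_le_card_mul _ _ _ ?_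
      intro u hu
      rw [Finset.mem_sdiff] at hu
      exact (hT'1 u hu.2).2.le
    have h2 : (L v).card ≤ (L' v).card + ((nb G v \ S).biUnion T').card := by
      have := Finset.le_card_sdiff ((nb G v \ S).biUnion T') (L v)
      simp only [L']
      omega
    rw [hL v] at h2
    omega)
  refine ⟨fun v => if v ∈ S then φ v else T' v, ?_, ?_⟩
  · intro v
    by_cases hv : v ∈ S
    · simp only [if_pos hv]
      exact ⟨(hφ1 v hv).1.trans Finset.sdiff_subset, (hφ1 v hv).2⟩
    · simp only [if_neg hv]
      exact hT'1 v hv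
  · have key : ∀ u v, u ∈ S → v ∉ S → G.Adj u v → Disjoint (φ u) (T' v) := by
      intro u v hu hv huv
      rw [Finset.disjoint_left]
      intro x hx hx'
      have h1 := (hφ1 u hu).1 hx
      simp only [L', Finset.mem_sdiff, Finset.mem_biUnion, not_exists, not_and] at h1
      exact h1.2 v ⟨mem_nb.2 huv, hv⟩ hx'
    intro u v huv
    by_cases hu : u ∈ S <;> by_cases hv : v ∈ S
    · simp only [if_pos hu, if_pos hv]
      exact hφ2 u hu v hv huv
    · simp only [if_pos hu, if_neg hv]
      exact key u v hu hv huv
    · simp only [if_neg hu, if_pos hv]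
      exact (key v u hv hu huv.symm).symm
    · simp only [if_neg hu, if_neg hv]
      exact hT'2 u v hu hv huv

/-- a vertex of degree `< a / b` can be coloured last -/
theorem choosable_of_low {a b : ℕ} (v : V) (hv : ((nb G v).card + 1) * b ≤ a)
    (hrest : Choosable (G.induce {u | u ∉ ({v} : Finset V)}) a b) : Choosable G a b := by
  apply choosable_extend {v} hrest
  intro L hL
  have h1 := hL v (Finset.mem_singleton_self v)
  have h2 : out G {v} v ≤ (nb G v).card := Finset.card_le_card Finset.sdiff_subset
  have h3 : b ≤ (L v).card := by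
    have : out G {v} v * b ≤ (nb G v).card * b := Nat.mul_le_mul_right b h2
    rw [add_mul, one_mul] at hv
    omega
  obtain ⟨t, ht, ht'⟩ := Finset.exists_subset_card_eq h3
  refine ⟨fun _ => t, ?_, ?_⟩
  · intro u hu
    rw [Finset.mem_singleton] at hu
    subst hu
    exact ⟨ht, ht'⟩
  · intro u hu w hw huw
    rw [Finset.mem_singleton] at hu hw
    subst hu
    subst hw
    exact absurd huw (G.loopless.irrefl _)

/-- reducible sets -/
theorem choosable_of_good {a b k : ℕ} (S : Finset V) (hout : ∀ v ∈ S, out G S v ≤ 4)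
    (hS : Good G S (cc G S) k) (hb : bb k ≤ b) (hab : (4 - eps k) * b ≤ (a : ℝ))
    (hrest : Choosable (G.induce {u | u ∉ S}) a b) : Choosable G a b := by
  apply choosable_extend S hrest
  intro L hL
  obtain ⟨φ, h1, h2⟩ := hS b hb L (by
    intro v hv
    have h3 := hL v hv
    have h4 := hout v hv
    have h5 : ((cc G S v : ℕ) : ℝ) = 4 - (out G S v : ℝ) := by
      unfold cc
      rw [Nat.cast_sub h4]
      norm_num
    have h6 : (a : ℝ) ≤ ((L v).card : ℝ) + (out G S v : ℝ) * b := by exact_mod_cast h3
    rw [h5]
    nlinarith)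
  have h3 : ∀ v ∈ S, ∃ t : Finset ℤ, t ⊆ φ v ∧ t.card = b := by
    intro v hv
    apply Finset.exists_subset_card_eq
    have h4 := (h1 v hv).2
    have h5 : (b : ℝ) ≤ (1 + eps k) * b := by
      have := eps_pos k
      have hb0 : (0 : ℝ) ≤ b := Nat.cast_nonneg b
      nlinarith
    exact_mod_cast h5.trans h4
  choose! t ht1 ht2 using h3
  refine ⟨t, fun v hv => ⟨(ht1 v hv).trans (h1 v hv).1, ht2 v hv⟩, ?_⟩
  intro u hu v hv huv
  exact Finset.disjoint_of_subset_left (ht1 u hu)
    (Finset.disjoint_of_subset_right (ht1 v hv) (h2 u hu v hv huv))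

/-- two parts without edges between them -/
theorem choosable_of_split {a b : ℕ} (S : Finset V)
    (hno : ∀ u ∈ S, ∀ v, v ∉ S → ¬ G.Adj u v)
    (h1 : Choosable (G.induce {u | u ∈ S}) a b) (h2 : Choosable (G.induce {u | u ∉ S}) a b) :
    Choosable G a b := by
  intro L hL
  obtain ⟨T1, p1, q1⟩ := h1 (fun v => L v.1) (fun v => hL v.1)
  obtain ⟨T2, p2, q2⟩ := h2 (fun v => L v.1) (fun v => hL v.1)
  refine ⟨fun v => if h : v ∈ S then T1 ⟨v, h⟩ else T2 ⟨v, h⟩, ?_, ?_⟩
  · intro v
    by_cases hv : v ∈ S
    · simp only [dif_pos hv]; exact p1 ⟨v, hv⟩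
    · simp only [dif_neg hv]; exact p2 ⟨v, hv⟩
  · intro u v huv
    by_cases hu : u ∈ S <;> by_cases hv : v ∈ S
    · simp only [dif_pos hu, dif_pos hv]; exact q1 ⟨u, hu⟩ ⟨v, hv⟩ huv
    · exact absurd huv (hno u hu v hv)
    · exact absurd huv.symm (hno v hv u hu)
    · simp only [dif_neg hu, dif_neg hv]; exact q2 ⟨u, hu⟩ ⟨v, hv⟩ huv

/-- the rotation system of a connected planar graph without isolated vertices -/
theorem exists_rot (hp : IsPlanar G) (hc : G.Connected) (hd : ∀ v, 1 ≤ (nb G v).card) :
    ∃ R : Rot G, Fintype.card V + R.nf = ne G + 2 := by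
  obtain ⟨σ, φ, h1, h2, h3, h4⟩ := hp
  refine ⟨⟨σ, φ, h1, h2, h3⟩, ?_⟩
  unfold Rot.nf ne
  have e1 : Nat.card {v : V // ∀ w, ¬ G.Adj v w} = 0 := by
    rw [Nat.card_eq_zero]
    left
    constructor
    rintro ⟨v, hv⟩
    obtain ⟨u, hu⟩ := Finset.card_pos.1 (hd v)
    exact hv u (mem_nb.1 hu)
  have e2 : Nat.card G.ConnectedComponent = 1 := by
    rw [Nat.card_eq_one_iff_unique]
    have := hc.nonempty
    refine ⟨hc.preconnected.subsingleton_connectedComponent, ?_⟩
    exact ⟨G.connectedComponentMk (Classical.arbitrary V)⟩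
  rw [e1, e2, Nat.card_eq_fintype_card] at h4
  simpa using h4

end

/-! ### the main induction -/

theorem card_edges_darts {V : Type} [Fintype V] (G : SimpleGraph V) :
    ∑ v, (nb G v).card = 2 * ne G := by
  have h := G.sum_degrees_eq_twice_card_edges
  have e1 : ∀ v, (nb G v).card = G.degree v := by
    intro v
    rw [← SimpleGraph.card_neighborFinset_eq_degree]
    congr 1
    ext u
    simp
  have e2 : ne G = G.edgeFinset.card := by
    unfold ne
    rw [Nat.card_eq_fintype_card, SimpleGraph.edgeFinset_card]
  rw [e2, ← h]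
  exact Finset.sum_congr rfl (fun v _ => e1 v)

theorem main_core : ∀ (n : ℕ) (V : Type) [Fintype V] (G : SimpleGraph V), Fintype.card V = n →
    IsPlanar G → Free45 G → ∀ a b : ℕ, 1 ≤ b → (4 - eps (KK + 1)) * b ≤ (a : ℝ) →
      (b < bb KK → 4 * b ≤ a) → Choosable G a b := by
  intro n
  induction n using Nat.strong_induction_on with
  | _ n ih =>
    intro V _ G hn hp hf a b hb hab hsmall
    have hrec : ∀ U : Set V, (∃ v, v ∉ U) → Choosable (G.induce U) a b := by
      intro U hU
      have hlt : Fintype.card U < n := by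
        obtain ⟨v, hv⟩ := hU
        rw [← hn]
        exact Fintype.card_subtype_lt hv
      exact ih _ hlt U (G.induce U) rfl (isPlanar_induce G hp U) (free45_induce hf U) a b hb hab
        hsmall
    have he : eps (KK + 1) ≤ 1 / 1000 := eps_le _
    have hb1 : (1 : ℝ) ≤ b := by exact_mod_cast hb
    have h3a : 3 * b ≤ a := by
      have : (3 : ℝ) * b ≤ a := by nlinarith
      exact_mod_cast this
    -- low degree
    by_cases hlow : ∃ v, (nb G v).card ≤ 2
    · obtain ⟨v, hv⟩ := hlow
      apply choosable_of_low v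
      · have : ((nb G v).card + 1) * b ≤ 3 * b := Nat.mul_le_mul_right b (by omega)
        omega
      · exact hrec _ ⟨v, by simp⟩
    push Not at hlow
    have hd : ∀ v, 3 ≤ (nb G v).card := fun v => hlow v
    -- empty graph
    by_cases hne : IsEmpty V
    · intro L _
      exact ⟨fun _ => ∅, fun v => (hne.false v).elim, fun v => (hne.false v).elim⟩
    rw [not_isEmpty_iff] at hne
    -- disconnected
    by_cases hc : G.Connected
    swap
    · have hpre : ¬ G.Preconnected := fun h => hc ⟨h⟩
      have : ∃ u v : V, ¬ G.Reachable u v := by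
        by_contra hcon
        push Not at hcon
        exact hpre hcon
      obtain ⟨u, v, huv⟩ := this
      let S : Finset V := Finset.univ.filter (fun w => G.Reachable u w)
      apply choosable_of_split S
      · intro x hx y hy hxy
        simp only [S, Finset.mem_filter, Finset.mem_univ, true_and] at hx hy
        exact hy (hx.trans hxy.reachable)
      · exact hrec _ ⟨v, by simpa [S] using huv⟩
      · exact hrec _ ⟨u, by simp [S]⟩
    obtain ⟨R, hE⟩ := exists_rot hp hc (fun v => le_trans (by norm_num) (hd v))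
    have hEI := euler_ineq R hf hd hE
    have hcardpos : 0 < Fintype.card V := by
      haveI := hne
      exact Fintype.card_pos
    by_cases hbb : b < bb KK
    · -- small b : degree 3 vertex
      have h4 := hsmall hbb
      have : ∃ v, (nb G v).card ≤ 3 := by
        by_contra hcon
        push Not at hcon
        have h5 : ∑ v : V, 4 ≤ ∑ v, (nb G v).card := Finset.sum_le_sum (fun v _ => hcon v)
        rw [card_edges_darts, Finset.sum_const, smul_eq_mul, Finset.card_univ] at h5
        omega
      obtain ⟨v, hv⟩ := this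
      apply choosable_of_low v
      · have : ((nb G v).card + 1) * b ≤ 4 * b := Nat.mul_le_mul_right b (by omega)
        omega
      · exact hrec _ ⟨v, by simp⟩
    push Not at hbb
    have hab' : ∀ k, k ≤ KK → (4 - eps k) * b ≤ (a : ℝ) := by
      intro k hk
      refine le_trans ?_ hab
      apply mul_le_mul_of_nonneg_right _ (by linarith)
      have : eps (KK + 1) ≤ eps k := eps_anti (by omega)
      linarith
    have hn2 : 2 ≤ Fintype.card V := by
      obtain ⟨v⟩ := hne
      have h1 := hd v
      have h2 : (nb G v).card ≤ Fintype.card V := Finset.card_le_univ _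
      omega
    rcases sparse_or_flat R hf hd hE with hsp | ⟨v, w, a', b', c', hF⟩
    · obtain ⟨S0, hS0, hinc⟩ := decomp R hc hn2 hE 8000 400000000 (by norm_num) (by norm_num) (by
        nlinarith)
      obtain ⟨S, hSS, hSne, hout, hgood⟩ := elimA G hf S0 hinc
      have hcard : S.card ≤ KK := by
        have := Finset.card_le_card hSS
        rw [KK_eq]
        omega
      apply choosable_of_good S (fun v hv => (hout v hv).trans (by norm_num))
        (good_mono hcard hgood) hbb (hab' KK le_rfl)
      obtain ⟨x, hx⟩ := hSne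
      exact hrec _ ⟨x, by simpa using hx⟩
    · obtain ⟨S, hSne, hout, hgood⟩ := elimB G hf v w a' b' c' hF
      have h30 : 30 ≤ KK := by rw [KK_eq]; norm_num
      apply choosable_of_good S hout (good_mono h30 hgood) hbb (hab' KK le_rfl)
      obtain ⟨x, hx⟩ := hSne
      exact hrec _ ⟨x, by simpa using hx⟩

end Pool.Agent.H99.SF
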