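import Pool.Agent.H99.SF.Basic

/-!
# BFS structures
-/

namespace Pool.Agent.H99.SF

open Classical

/-- rooted BFS structure: root `r`, parent `p`, level `l` -/
structure Par {V : Type} (G : SimpleGraph V) where
  r : V
  p : V → V
  l : V → ℕ
  pr : p r = r
  lr : l r = 0
  adj : ∀ v, v ≠ r → G.Adj v (p v)
  lp : ∀ v, v ≠ r → l (p v) + 1 = l v
  ladj : ∀ u v, G.Adj u v → l u ≤ l v + 1

/-- the dart `d` lies over an edge of the BFS tree -/
def Par.tree {V : Type} {G : SimpleGraph V} (P : Par G) (d : G.Dart) : Prop :=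
  (d.fst ≠ P.r ∧ P.p d.fst = d.snd) ∨ (d.snd ≠ P.r ∧ P.p d.snd = d.fst)

/-- `u` is an ancestor (or equal) of a point of `X` -/
def Par.anc {V : Type} {G : SimpleGraph V} (P : Par G) (X : Finset V) (u : V) : Prop :=
  ∃ x ∈ X, ∃ k : ℕ, P.p^[k] x = u

theorem exists_closer {V : Type} (G : SimpleGraph V) (hc : G.Connected) (r v : V) (hv : v ≠ r) :
    ∃ u, G.Adj v u ∧ G.dist r u + 1 = G.dist r v := by
  obtain ⟨w, hw⟩ := (hc.preconnected v r).exists_walk_length_eq_dist
  cases w with
  | nil => exact absurd rfl hv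
  | cons h q =>
    rename_i u
    refine ⟨u, h, ?_⟩
    have h1 : G.dist u r ≤ q.length := SimpleGraph.dist_le q
    have h2 : q.length + 1 = G.dist v r := by
      rw [← hw, SimpleGraph.Walk.length_cons]
    have h3 : G.dist r v ≤ G.dist r u + G.dist u v := hc.dist_triangle
    have h4 : G.dist u v ≤ 1 := by
      have := SimpleGraph.dist_le (SimpleGraph.Walk.cons h.symm SimpleGraph.Walk.nil)
      simpa using this
    have h5 : G.dist u r = G.dist r u := SimpleGraph.dist_comm
    have h6 : G.dist v r = G.dist r v := SimpleGraph.dist_comm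
    omega

theorem exists_par {V : Type} [Fintype V] (G : SimpleGraph V) (hc : G.Connected) :
    Nonempty (Par G) := by
  obtain ⟨r⟩ := hc.nonempty
  have hex : ∀ v, ∃ u, (v = r → u = r) ∧ (v ≠ r → G.Adj v u ∧ G.dist r u + 1 = G.dist r v) := by
    intro v
    by_cases hv : v = r
    · exact ⟨r, fun _ => rfl, fun h => absurd hv h⟩
    · obtain ⟨u, hu⟩ := exists_closer G hc r v hv
      exact ⟨u, fun h => absurd h hv, fun _ => hu⟩
  choose p hp1 hp2 using hex
  refine ⟨⟨r, p, fun v => G.dist r v, hp1 r rfl, ?_, fun v hv => (hp2 v hv).1,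
    fun v hv => (hp2 v hv).2, ?_⟩⟩
  · exact SimpleGraph.dist_self
  · intro u v huv
    have h3 : G.dist r u ≤ G.dist r v + G.dist v u := hc.dist_triangle
    have h4 : G.dist v u ≤ 1 := by
      have := SimpleGraph.dist_le (SimpleGraph.Walk.cons huv.symm SimpleGraph.Walk.nil)
      simpa using this
    show G.dist r u ≤ G.dist r v + 1
    omega

/-- number of tree darts: `2 (n - 1)` -/
theorem card_tree_darts {V : Type} [Fintype V] {G : SimpleGraph V} (P : Par G) :
    (Finset.univ.filter (fun d : G.Dart => P.tree d)).card + 2 = 2 * Fintype.card V := by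
  have hU : (Finset.univ.filter (fun v : V => v ≠ P.r)).card + 1 = Fintype.card V := by
    rw [Finset.filter_ne' Finset.univ P.r, Finset.card_erase_add_one (Finset.mem_univ _)]
    rfl
  have hA : (Finset.univ.filter (fun d : G.Dart => d.fst ≠ P.r ∧ P.p d.fst = d.snd)).card =
      (Finset.univ.filter (fun v : V => v ≠ P.r)).card := by
    refine Finset.card_bij (fun d _ => d.fst) ?_ ?_ ?_
    · intro d hd
      rw [Finset.mem_filter] at hd ⊢
      exact ⟨Finset.mem_univ _, hd.2.1⟩
    · intro d hd e he h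
      rw [Finset.mem_filter] at hd he
      refine SimpleGraph.Dart.ext _ _ (Prod.ext h ?_)
      show d.snd = e.snd
      rw [← hd.2.2, ← he.2.2, h]
    · intro v hv
      rw [Finset.mem_filter] at hv
      refine ⟨⟨(v, P.p v), P.adj v hv.2⟩, ?_, rfl⟩
      rw [Finset.mem_filter]
      exact ⟨Finset.mem_univ _, hv.2, rfl⟩
  have hB : (Finset.univ.filter (fun d : G.Dart => d.snd ≠ P.r ∧ P.p d.snd = d.fst)).card =
      (Finset.univ.filter (fun v : V => v ≠ P.r)).card := by
    refine Finset.card_bij (fun d _ => d.snd) ?_ ?_ ?_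
    · intro d hd
      rw [Finset.mem_filter] at hd ⊢
      exact ⟨Finset.mem_univ _, hd.2.1⟩
    · intro d hd e he h
      rw [Finset.mem_filter] at hd he
      refine SimpleGraph.Dart.ext _ _ (Prod.ext ?_ h)
      show d.fst = e.fst
      rw [← hd.2.2, ← he.2.2, h]
    · intro v hv
      rw [Finset.mem_filter] at hv
      refine ⟨⟨(P.p v, v), (P.adj v hv.2).symm⟩, ?_, rfl⟩
      rw [Finset.mem_filter]
      exact ⟨Finset.mem_univ _, hv.2, rfl⟩
  have hsplit : Finset.univ.filter (fun d : G.Dart => P.tree d) =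
      Finset.univ.filter (fun d : G.Dart => d.fst ≠ P.r ∧ P.p d.fst = d.snd) ∪
      Finset.univ.filter (fun d : G.Dart => d.snd ≠ P.r ∧ P.p d.snd = d.fst) := by
    ext d
    rw [Finset.mem_union, Finset.mem_filter, Finset.mem_filter, Finset.mem_filter]
    constructor
    · rintro ⟨_, h | h⟩
      · exact Or.inl ⟨Finset.mem_univ _, h⟩
      · exact Or.inr ⟨Finset.mem_univ _, h⟩
    · rintro (h | h)
      · exact ⟨Finset.mem_univ _, Or.inl h.2⟩
      · exact ⟨Finset.mem_univ _, Or.inr h.2⟩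
  have hdis : Disjoint
      (Finset.univ.filter (fun d : G.Dart => d.fst ≠ P.r ∧ P.p d.fst = d.snd))
      (Finset.univ.filter (fun d : G.Dart => d.snd ≠ P.r ∧ P.p d.snd = d.fst)) := by
    rw [Finset.disjoint_left]
    intro d h h'
    rw [Finset.mem_filter] at h h'
    have h1 := P.lp d.fst h.2.1
    have h2 := P.lp d.snd h'.2.1
    rw [h.2.2] at h1
    rw [h'.2.2] at h2
    omega
  rw [hsplit, Finset.card_union_of_disjoint hdis, hA, hB]
  omega

theorem Par.l_p {V : Type} {G : SimpleGraph V} (P : Par G) (v : V) : P.l (P.p v) = P.l v - 1 := by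
  by_cases hv : v = P.r
  · rw [hv, P.pr, P.lr]
  · have := P.lp v hv
    omega

theorem Par.l_iter {V : Type} {G : SimpleGraph V} (P : Par G) (k : ℕ) (v : V) :
    P.l (P.p^[k] v) = P.l v - k := by
  induction k with
  | zero => rfl
  | succ k ih =>
    rw [Function.iterate_succ_apply', P.l_p, ih]
    omega

theorem Par.iter_r {V : Type} {G : SimpleGraph V} (P : Par G) (k : ℕ) :
    P.p^[k] P.r = P.r := by
  induction k with
  | zero => rfl
  | succ k ih => rw [Function.iterate_succ_apply', ih, P.pr]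

theorem Par.eq_r_of_l {V : Type} {G : SimpleGraph V} (P : Par G) (v : V) (h : P.l v = 0) :
    v = P.r := by
  by_contra hv
  have := P.lp v hv
  omega

theorem Par.anc_inj_aux {V : Type} {G : SimpleGraph V} (P : Par G) (x : V) (i j : ℕ)
    (h : P.l (P.p^[i] x) = P.l (P.p^[i + j] x)) : P.p^[i] x = P.p^[i + j] x := by
  rw [Nat.add_comm i j, Function.iterate_add_apply] at h ⊢
  have h1 := P.l_iter j (P.p^[i] x)
  rcases Nat.eq_zero_or_pos j with hj | hj
  · rw [hj]; rfl
  · have h2 : P.l (P.p^[i] x) = 0 := by omega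
    rw [P.eq_r_of_l _ h2, P.iter_r]

theorem Par.anc_inj {V : Type} {G : SimpleGraph V} (P : Par G) (x : V) (i j : ℕ)
    (h : P.l (P.p^[i] x) = P.l (P.p^[j] x)) : P.p^[i] x = P.p^[j] x := by
  rcases le_total i j with hij | hij
  · obtain ⟨k, rfl⟩ := Nat.exists_eq_add_of_le hij
    exact P.anc_inj_aux x i k h
  · obtain ⟨k, rfl⟩ := Nat.exists_eq_add_of_le hij
    exact (P.anc_inj_aux x j k h.symm).symm

/-- at most one ancestor per level: few ancestors in a range of `k` levels -/
theorem card_anc_le {V : Type} [Fintype V] {G : SimpleGraph V} (P : Par G) (X : Finset V)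
    (lo k : ℕ) :
    (Finset.univ.filter (fun u : V => P.anc X u ∧ lo ≤ P.l u ∧ P.l u < lo + k)).card
      ≤ X.card * k := by
  have hsub : Finset.univ.filter (fun u : V => P.anc X u ∧ lo ≤ P.l u ∧ P.l u < lo + k) ⊆
      X.biUnion (fun x => Finset.univ.filter
        (fun u : V => (∃ i : ℕ, P.p^[i] x = u) ∧ lo ≤ P.l u ∧ P.l u < lo + k)) := by
    intro u hu
    rw [Finset.mem_filter] at hu
    obtain ⟨_, ⟨x, hx, i, hi⟩, h⟩ := hu
    rw [Finset.mem_biUnion]
    refine ⟨x, hx, ?_⟩
    rw [Finset.mem_filter]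
    exact ⟨Finset.mem_univ _, ⟨i, hi⟩, h⟩
  refine (Finset.card_le_card hsub).trans (Finset.card_biUnion_le_card_mul _ _ _ ?_)
  intro x _
  have h1 : ((Finset.univ.filter
        (fun u : V => (∃ i : ℕ, P.p^[i] x = u) ∧ lo ≤ P.l u ∧ P.l u < lo + k)).image P.l).card ≤
        k := by
    have hs : (Finset.univ.filter
        (fun u : V => (∃ i : ℕ, P.p^[i] x = u) ∧ lo ≤ P.l u ∧ P.l u < lo + k)).image P.l ⊆
        Finset.Ico lo (lo + k) := by
      intro m hm
      rw [Finset.mem_image] at hm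
      obtain ⟨u, hu, rfl⟩ := hm
      rw [Finset.mem_filter] at hu
      rw [Finset.mem_Ico]
      exact hu.2.2
    refine (Finset.card_le_card hs).trans ?_
    rw [Nat.card_Ico]
    omega
  refine le_trans (le_of_eq ?_) h1
  symm
  apply Finset.card_image_of_injOn
  intro u hu v hv huv
  rw [Finset.mem_coe, Finset.mem_filter] at hu hv
  obtain ⟨_, ⟨i, rfl⟩, _⟩ := hu
  obtain ⟨_, ⟨j, rfl⟩, _⟩ := hv
  exact P.anc_inj x i j huv

end Pool.Agent.H99.SF
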