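import Pool.Agent.H99.SF.Par

/-!
# The parity lemma (paper: Claim C)
-/

namespace Pool.Agent.H99.SF

open Classical

theorem parity_other {V : Type} [Fintype V] {G : SimpleGraph V} (R : Rot G)
    (s : G.Dart → Prop) (u : V)
    (h1 : ∀ d : G.Dart, d.fst = u → (s (R.σ d) ↔ s d.symm))
    (d : G.Dart) (hd : d.fst = u) (hbad : ¬ (s d.symm ↔ s d)) :
    ∃ e : G.Dart, e.fst = u ∧ e ≠ d ∧ ¬ (s e.symm ↔ s e) := by
  have hcard : (Finset.univ.filter (fun d : G.Dart => d.fst = u ∧ s d)).card =
      (Finset.univ.filter (fun d : G.Dart => d.fst = u ∧ s d.symm)).card := by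
    symm
    refine Finset.card_bij (fun d _ => R.σ d) ?_ ?_ ?_
    · intro d hd
      rw [Finset.mem_filter] at hd ⊢
      exact ⟨Finset.mem_univ _, (R.hσ d).trans hd.2.1, (h1 d hd.2.1).mpr hd.2.2⟩
    · intro d _ e _ h
      exact R.σ.injective h
    · intro d hd
      rw [Finset.mem_filter] at hd
      have hf : (R.σ.symm d).fst = u := by
        rw [← R.hσ, Equiv.apply_symm_apply]
        exact hd.2.1
      refine ⟨R.σ.symm d, ?_, Equiv.apply_symm_apply _ _⟩
      rw [Finset.mem_filter]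
      refine ⟨Finset.mem_univ _, hf, ?_⟩
      rw [← h1 _ hf, Equiv.apply_symm_apply]
      exact hd.2.2
  have hsd := Finset.card_sdiff_comm hcard
  by_cases hs : s d
  · have hs' : ¬ s d.symm := fun h => hbad ⟨fun _ => hs, fun _ => h⟩
    have hmem : d ∈ Finset.univ.filter (fun d : G.Dart => d.fst = u ∧ s d) \
        Finset.univ.filter (fun d : G.Dart => d.fst = u ∧ s d.symm) := by
      rw [Finset.mem_sdiff, Finset.mem_filter, Finset.mem_filter]
      exact ⟨⟨Finset.mem_univ _, hd, hs⟩, fun h => hs' h.2.2⟩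
    have hpos := Finset.card_pos.mpr ⟨d, hmem⟩
    rw [hsd] at hpos
    obtain ⟨e, he⟩ := Finset.card_pos.mp hpos
    rw [Finset.mem_sdiff, Finset.mem_filter, Finset.mem_filter] at he
    refine ⟨e, he.1.2.1, ?_, ?_⟩
    · rintro rfl
      exact hs' he.1.2.2
    · intro h
      exact he.2 ⟨Finset.mem_univ _, he.1.2.1, h.mp he.1.2.2⟩
  · have hs' : s d.symm := by
      by_contra h
      exact hbad ⟨fun h' => absurd h' h, fun h' => absurd h' hs⟩
    have hmem : d ∈ Finset.univ.filter (fun d : G.Dart => d.fst = u ∧ s d.symm) \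
        Finset.univ.filter (fun d : G.Dart => d.fst = u ∧ s d) := by
      rw [Finset.mem_sdiff, Finset.mem_filter, Finset.mem_filter]
      exact ⟨⟨Finset.mem_univ _, hd, hs'⟩, fun h => hs h.2.2⟩
    have hpos := Finset.card_pos.mpr ⟨d, hmem⟩
    rw [← hsd] at hpos
    obtain ⟨e, he⟩ := Finset.card_pos.mp hpos
    rw [Finset.mem_sdiff, Finset.mem_filter, Finset.mem_filter] at he
    refine ⟨e, he.1.2.1, ?_, ?_⟩
    · rintro rfl
      exact hs he.1.2.2
    · intro h
      exact he.2 ⟨Finset.mem_univ _, he.1.2.1, h.mpr he.1.2.2⟩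

/-- If `s` changes at a corner only at vertices of `X`, and along non-tree edges only at vertices
of `X`, then around every vertex that is not an ancestor of a point of `X` nothing changes at all. -/
theorem parity {V : Type} [Fintype V] {G : SimpleGraph V} (R : Rot G) (P : Par G)
    (s : G.Dart → Prop) (X : Finset V)
    (h1 : ∀ z : G.Dart, z.snd ∉ X → (s (R.φ z) ↔ s z))
    (h2 : ∀ d : G.Dart, ¬ P.tree d → d.fst ∉ X → (s d.symm ↔ s d)) :
    ∀ d : G.Dart, ¬ P.anc X d.fst → (s d.symm ↔ s d) ∧ (s (R.σ d) ↔ s d) := by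
  have hself : ∀ u : V, ¬ P.anc X u → u ∉ X := fun u hu hX => hu ⟨u, hX, 0, rfl⟩
  have hσ : ∀ d : G.Dart, d.fst ∉ X → (s (R.σ d) ↔ s d.symm) := by
    intro d hd
    have := h1 d.symm hd
    rwa [R.hφ, SimpleGraph.Dart.symm_symm] at this
  have hgood : ∀ d : G.Dart, ¬ P.anc X d.fst → (s d.symm ↔ s d) := by
    by_contra hcon
    push Not at hcon
    obtain ⟨d0, hd0⟩ := hcon
    have hne : (Finset.univ.filter
        (fun d : G.Dart => ¬ P.anc X d.fst ∧ ¬ (s d.symm ↔ s d))).Nonempty := by
      refine ⟨d0, ?_⟩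
      rw [Finset.mem_filter]
      refine ⟨Finset.mem_univ _, hd0.1, ?_⟩
      intro h
      have := hd0.2
      tauto
    obtain ⟨d, hd, hmax⟩ := Finset.exists_max_image _ (fun d : G.Dart => P.l d.fst) hne
    rw [Finset.mem_filter] at hd
    obtain ⟨_, hanc, hbad⟩ := hd
    have hdX := hself _ hanc
    have hdown : ∀ f : G.Dart, f.fst = d.fst → ¬ (s f.symm ↔ s f) →
        ¬ (f.snd ≠ P.r ∧ P.p f.snd = f.fst) := by
      intro f hf hfb hfd
      have hmem : f.symm ∈ Finset.univ.filter
          (fun d : G.Dart => ¬ P.anc X d.fst ∧ ¬ (s d.symm ↔ s d)) := by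
        rw [Finset.mem_filter]
        refine ⟨Finset.mem_univ _, ?_, ?_⟩
        · rintro ⟨x, hx, k, hk⟩
          apply hanc
          refine ⟨x, hx, k + 1, ?_⟩
          rw [Function.iterate_succ_apply', hk, ← hf]
          exact hfd.2
        · rw [SimpleGraph.Dart.symm_symm]
          exact fun h => hfb h.symm
      have h3 := hmax _ hmem
      have h4 := P.lp f.snd hfd.1
      rw [hfd.2, hf] at h4
      have h5 : P.l f.snd ≤ P.l d.fst := h3
      omega
    have htree : ∀ f : G.Dart, f.fst = d.fst → ¬ (s f.symm ↔ s f) →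
        f.fst ≠ P.r ∧ P.p f.fst = f.snd := by
      intro f hf hfb
      have ht : P.tree f := by
        by_contra ht
        exact hfb (h2 f ht (by rw [hf]; exact hdX))
      rcases ht with h | h
      · exact h
      · exact absurd h (hdown f hf hfb)
    obtain ⟨e, he1, he2, he3⟩ := parity_other R s d.fst
      (fun f hf => hσ f (by rw [hf]; exact hdX)) d rfl hbad
    have hd1 := htree d rfl hbad
    have he4 := htree e he1 he3
    apply he2
    refine SimpleGraph.Dart.ext _ _ (Prod.ext he1 ?_)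
    show e.snd = d.snd
    rw [← hd1.2, ← he4.2, he1]
  intro d hd
  refine ⟨hgood d hd, ?_⟩
  rw [hσ d (hself _ hd)]
  exact hgood d hd

end Pool.Agent.H99.SF
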