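import Pool.Agent.H99.SF.Create
import Pool.Agent.H99.SF.C6

/-!
# The three extension rules (paper: R1, R2, R3)
-/

namespace Pool.Agent.H99.SF

open Classical

variable {V : Type} {G : SimpleGraph V} {S : Finset V} {c : V → ℕ} {k : ℕ}

/-- the common numerical set-up of one step -/
theorem step_numbers (k b : ℕ) (hb : bb (k + 1) ≤ b) :
    bb k ≤ b ∧ 10000 ≤ eps k * b ∧ ∃ m : ℕ, (1 + eps k / 700) * b ≤ (m : ℝ) ∧
      (m : ℝ) ≤ (1 + eps k / 350) * b := by
  have h0 := eps_pos k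
  have h1 : bb k ≤ b := (bb_le_succ k).trans hb
  have h2 : (10 : ℝ) ^ 9 ≤ eps k * b := by
    rw [← eps_bb k]
    apply mul_le_mul_of_nonneg_left _ h0.le
    exact_mod_cast h1
  have h3 : 10000 ≤ eps k * b := le_trans (by norm_num) h2
  refine ⟨h1, h3, ⌈(1 + eps k / 700) * b⌉₊, Nat.le_ceil _, ?_⟩
  have h4 := (Nat.ceil_lt_add_one (show (0 : ℝ) ≤ (1 + eps k / 700) * b by positivity)).le
  nlinarith

/-- truncation of a list -/
theorem truncate (L : Finset ℤ) (x : ℕ) (b : ℕ) (δ : ℝ) (hδ : 0 ≤ δ)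
    (h : ((x : ℝ) - δ) * b ≤ (L.card : ℝ)) :
    ∃ M : Finset ℤ, M ⊆ L ∧ ((x : ℝ) - δ) * b ≤ (M.card : ℝ) ∧ (M.card : ℝ) ≤ (x : ℝ) * b := by
  by_cases h1 : L.card ≤ x * b
  · exact ⟨L, Finset.Subset.refl _, h, by exact_mod_cast h1⟩
  · obtain ⟨M, hM, hM'⟩ := Finset.exists_subset_card_eq (show x * b ≤ L.card by omega)
    refine ⟨M, hM, ?_, ?_⟩
    · rw [hM']
      push_cast
      have hb : (0 : ℝ) ≤ b := Nat.cast_nonneg b
      nlinarith
    · rw [hM']
      push_cast
      exact le_refl _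

/-- adding one vertex to a colouring -/
theorem extend_one {v : V} (hv : v ∉ S) (L : V → Finset ℤ) (φ : V → Finset ℤ) (t : Finset ℤ) (r : ℝ)
    (h1 : ∀ w ∈ S, φ w ⊆ L w ∧ r ≤ ((φ w).card : ℝ))
    (h2 : ∀ u ∈ S, ∀ w ∈ S, G.Adj u w → Disjoint (φ u) (φ w))
    (ht : t ⊆ L v) (hr : r ≤ (t.card : ℝ)) (hd : ∀ u ∈ S, G.Adj v u → Disjoint t (φ u)) :
    ∃ ψ : V → Finset ℤ, (∀ w ∈ insert v S, ψ w ⊆ L w ∧ r ≤ ((ψ w).card : ℝ)) ∧
      ∀ u ∈ insert v S, ∀ w ∈ insert v S, G.Adj u w → Disjoint (ψ u) (ψ w) := by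
  have hne : ∀ w ∈ S, w ≠ v := fun w hw h => hv (h ▸ hw)
  refine ⟨fun w => if w = v then t else φ w, ?_, ?_⟩
  · intro w hw
    rw [Finset.mem_insert] at hw
    rcases hw with rfl | hw
    · simp only [if_pos rfl]; exact ⟨ht, hr⟩
    · simp only [if_neg (hne w hw)]; exact h1 w hw
  · intro u hu w hw huw
    rw [Finset.mem_insert] at hu hw
    rcases hu with rfl | hu <;> rcases hw with rfl | hw
    · exact absurd huw (G.loopless.irrefl _)
    · simp only [if_pos rfl, if_neg (hne w hw)]; exact hd w hw huw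
    · simp only [if_pos rfl, if_neg (hne u hu)]; exact (hd u hu huw.symm).symm
    · simp only [if_neg (hne u hu), if_neg (hne w hw)]; exact h2 u hu w hw huw

/-- a vertex with at least two units of room -/
theorem good_R1 (h : Good G S c k) (hc : ∀ v, c v ≤ 4) {v : V} (hv : v ∉ S)
    (hk : (S.filter (fun u => G.Adj v u)).card + 2 ≤ c v) : Good G (insert v S) c (k + 1) := by
  intro b hb L hL
  obtain ⟨hb1, hb2, m, hm, hm'⟩ := step_numbers k b hb
  have e0 := eps_pos k
  have e1 := eps_le k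
  have e2 := eps_succ k
  have hb0 : (0 : ℝ) ≤ b := Nat.cast_nonneg b
  rw [e2] at hL
  obtain ⟨φ, p1, p2, -⟩ := slack_creation G S c (eps k) (bb k) e0 e1 h 0 (by norm_num)
    (fun j => j.elim0) (fun j => j.elim0) (fun j => j.elim0) (fun j => j.elim0)
    (fun j => j.elim0) (fun j => j.elim0) (fun j => j.elim0) (fun j => j.elim0) b hb1 hb2 L
    (fun w hw => by
      refine le_trans ?_ (hL w (Finset.mem_insert_of_mem hw))
      apply mul_le_mul_of_nonneg_right _ hb0
      linarith)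
    (fun j => j.elim0) (fun j => j.elim0) m hm hm'
  let N := S.filter (fun u => G.Adj v u)
  have hU : (N.biUnion φ).card ≤ N.card * m := by
    apply Finset.card_biUnion_le_card_mul
    intro u hu
    exact (p1 u (Finset.mem_filter.1 hu).1).2.le
  have hLv := hL v (Finset.mem_insert_self _ _)
  have hsd := Finset.le_card_sdiff (N.biUnion φ) (L v)
  have hmt : m ≤ (L v \ N.biUnion φ).card := by
    have h1 : ((L v).card : ℝ) ≤ ((L v \ N.biUnion φ).card : ℝ) + (N.card : ℝ) * m := by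
      have : (L v).card ≤ (L v \ N.biUnion φ).card + N.card * m := by omega
      exact_mod_cast this
    have h2 : (N.card : ℝ) + 2 ≤ c v := by exact_mod_cast hk
    have h3 : (c v : ℝ) ≤ 4 := by exact_mod_cast hc v
    have hm0 : (0 : ℝ) ≤ m := Nat.cast_nonneg m
    have h4 : (N.card : ℝ) * m ≤ ((c v : ℝ) - 2) * m := mul_le_mul_of_nonneg_right (by linarith) hm0
    have h5 : (m : ℝ) ≤ ((L v \ N.biUnion φ).card : ℝ) := by
      have h6 : ((c v : ℝ) - 1) * m ≤ ((c v : ℝ) - 1) * ((1 + eps k / 350) * b) := by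
        apply mul_le_mul_of_nonneg_left hm'
        have : (0 : ℝ) ≤ N.card := Nat.cast_nonneg _
        linarith
      have h7 : ((c v : ℝ) - 1) * ((1 + eps k / 350) * b) ≤ ((c v : ℝ) - eps k / 1000) * b := by
        have h8 : ((c v : ℝ) - 1) * (1 + eps k / 350) ≤ (c v : ℝ) - eps k / 1000 := by nlinarith
        calc ((c v : ℝ) - 1) * ((1 + eps k / 350) * b) = (((c v : ℝ) - 1) * (1 + eps k / 350)) * b := by ring
          _ ≤ _ := mul_le_mul_of_nonneg_right h8 hb0
      linarith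
    exact_mod_cast h5
  have hr : (1 + eps (k + 1)) * b ≤ (m : ℝ) := by
    refine le_trans ?_ hm
    apply mul_le_mul_of_nonneg_right _ hb0
    rw [e2]; linarith
  apply extend_one hv L φ (L v \ N.biUnion φ) ((1 + eps (k + 1)) * b)
  · intro w hw
    exact ⟨(p1 w hw).1, by rw [(p1 w hw).2]; exact hr⟩
  · exact p2
  · exact Finset.sdiff_subset
  · refine hr.trans ?_
    exact_mod_cast hmt
  · intro u hu hvu
    rw [Finset.disjoint_left]
    intro y hy hy'
    exact (Finset.mem_sdiff.1 hy).2 (Finset.mem_biUnion.2 ⟨u, Finset.mem_filter.2 ⟨hu, hvu⟩, hy'⟩)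

/-- a vertex with exactly one unit of room (or more) and two non-adjacent coloured neighbours
whose residual sizes add up to more than its own -/
theorem good_R2 (h : Good G S c k) (hc : ∀ v, c v ≤ 4) {v : V} (hv : v ∉ S)
    (hk : (S.filter (fun u => G.Adj v u)).card + 1 ≤ c v) {u u' : V} (hu : u ∈ S) (hu' : u' ∈ S)
    (hvu : G.Adj v u) (hvu' : G.Adj v u') (hne : u ≠ u') (hna : ¬ G.Adj u u')
    (hcc : c v + 1 ≤ c u + c u') : Good G (insert v S) c (k + 1) := by
  intro b hb L hL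
  obtain ⟨hb1, hb2, m, hm, hm'⟩ := step_numbers k b hb
  have e0 := eps_pos k
  have e1 := eps_le k
  have e2 := eps_succ k
  have hb0 : (0 : ℝ) ≤ b := Nat.cast_nonneg b
  rw [e2] at hL
  obtain ⟨M, hM1, hM2, hM3⟩ := truncate (L v) (c v) b (eps k / 1000) (by positivity)
    (hL v (Finset.mem_insert_self _ _))
  obtain ⟨φ, p1, p2, p3⟩ := slack_creation G S c (eps k) (bb k) e0 e1 h 1 (by norm_num)
    (fun _ => c v) (fun _ => u) (fun _ => u') (fun _ => hu)
    (fun _ => hu') (fun _ => hne) (fun _ => hna) (fun _ => hcc) b hb1 hb2 L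
    (fun w hw => by
      refine le_trans ?_ (hL w (Finset.mem_insert_of_mem hw))
      apply mul_le_mul_of_nonneg_right _ hb0
      linarith)
    (fun _ => M) (fun _ => hM3) m hm hm'
  have p3' := p3 0
  let N := S.filter (fun u => G.Adj v u)
  let N' := (N.erase u).erase u'
  have hN' : N'.card + 2 = N.card := by
    have huN : u ∈ N := Finset.mem_filter.2 ⟨hu, hvu⟩
    have hu'N : u' ∈ N.erase u := Finset.mem_erase.2 ⟨hne.symm, Finset.mem_filter.2 ⟨hu', hvu'⟩⟩
    have h1 := Finset.card_erase_add_one huN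
    have h2 := Finset.card_erase_add_one hu'N
    simp only [N']
    omega
  have hU : (N'.biUnion φ).card ≤ N'.card * m := by
    apply Finset.card_biUnion_le_card_mul
    intro w hw
    have : w ∈ N := Finset.mem_of_mem_erase (Finset.mem_of_mem_erase hw)
    exact (p1 w (Finset.mem_filter.1 this).1).2.le
  have hmt : m ≤ (M \ N.biUnion φ).card := by
    have h0 : M \ (((φ u ∪ φ u') ∩ M) ∪ N'.biUnion φ) ⊆ M \ N.biUnion φ := by
      intro y hy
      rw [Finset.mem_sdiff] at hy ⊢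
      refine ⟨hy.1, fun h1 => hy.2 ?_⟩
      rw [Finset.mem_biUnion] at h1
      obtain ⟨w, hw, hyw⟩ := h1
      rw [Finset.mem_union, Finset.mem_inter, Finset.mem_union]
      by_cases hwu : w = u
      · left; exact ⟨Or.inl (hwu ▸ hyw), hy.1⟩
      by_cases hwu' : w = u'
      · left; exact ⟨Or.inr (hwu' ▸ hyw), hy.1⟩
      · right
        exact Finset.mem_biUnion.2 ⟨w, Finset.mem_erase.2 ⟨hwu', Finset.mem_erase.2 ⟨hwu, hw⟩⟩, hyw⟩
    have h1 := Finset.card_le_card h0
    have h2 := Finset.le_card_sdiff (((φ u ∪ φ u') ∩ M) ∪ N'.biUnion φ) M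
    have h3 := Finset.card_union_le ((φ u ∪ φ u') ∩ M) (N'.biUnion φ)
    have h4 : M.card ≤ (M \ N.biUnion φ).card + ((φ u ∪ φ u') ∩ M).card + N'.card * m := by omega
    have h5 : (M.card : ℝ) ≤ ((M \ N.biUnion φ).card : ℝ) + (((φ u ∪ φ u') ∩ M).card : ℝ)
        + (N'.card : ℝ) * m := by exact_mod_cast h4
    have h6 : (N'.card : ℝ) + 3 ≤ c v := by
      have hk' : N.card + 1 ≤ c v := hk
      have : N'.card + 3 ≤ c v := by omega
      exact_mod_cast this
    have h7 : (c v : ℝ) ≤ 4 := by exact_mod_cast hc v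
    have hm0 : (0 : ℝ) ≤ m := Nat.cast_nonneg m
    have h8 : (N'.card : ℝ) * m ≤ ((c v : ℝ) - 3) * m := mul_le_mul_of_nonneg_right (by linarith) hm0
    have h9 : (c v : ℝ) * m ≤ (c v : ℝ) * ((1 + eps k / 350) * b) := by
      apply mul_le_mul_of_nonneg_left hm'
      positivity
    have h10 : (c v : ℝ) * ((1 + eps k / 350) * b) ≤ ((c v : ℝ) - eps k / 1000 + eps k / 70) * b := by
      have h11 : (c v : ℝ) * (1 + eps k / 350) ≤ (c v : ℝ) - eps k / 1000 + eps k / 70 := by nlinarith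
      calc (c v : ℝ) * ((1 + eps k / 350) * b) = ((c v : ℝ) * (1 + eps k / 350)) * b := by ring
        _ ≤ _ := mul_le_mul_of_nonneg_right h11 hb0
    have h12 : (m : ℝ) ≤ ((M \ N.biUnion φ).card : ℝ) := by linarith
    exact_mod_cast h12
  have hr : (1 + eps (k + 1)) * b ≤ (m : ℝ) := by
    refine le_trans ?_ hm
    apply mul_le_mul_of_nonneg_right _ hb0
    rw [e2]; linarith
  apply extend_one hv L φ (M \ N.biUnion φ) ((1 + eps (k + 1)) * b)
  · intro w hw
    exact ⟨(p1 w hw).1, by rw [(p1 w hw).2]; exact hr⟩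
  · exact p2
  · exact Finset.sdiff_subset.trans hM1
  · refine hr.trans ?_
    exact_mod_cast hmt
  · intro w hw hvw
    rw [Finset.disjoint_left]
    intro y hy hy'
    exact (Finset.mem_sdiff.1 hy).2 (Finset.mem_biUnion.2 ⟨w, Finset.mem_filter.2 ⟨hw, hvw⟩, hy'⟩)

/-- an induced 6-cycle `v`, each vertex `v i` having exactly the two coloured neighbours
`w (i-1)` and `w i` -/
theorem good_R3 (h : Good G S c k) (hc : ∀ v, c v ≤ 4) (v w : Fin 6 → V)
    (hinj : Function.Injective v) (hvS : ∀ i, v i ∉ S)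
    (hadj : ∀ i j, G.Adj (v i) (v j) → j = i + 1 ∨ i = j + 1)
    (hcv : ∀ i, c (v i) = 4) (hw : ∀ i, w i ∈ S)
    (hN : ∀ i, ∀ u ∈ S, G.Adj (v i) u → u = w i ∨ u = w (i - 1))
    (hne : ∀ i, w (i - 1) ≠ w i) (hna : ∀ i, ¬ G.Adj (w (i - 1)) (w i))
    (hcw : ∀ i, 3 ≤ c (w i)) : Good G (S ∪ Finset.univ.image v) c (k + 1) := by
  intro b hb L hL
  obtain ⟨hb1, hb2, m, hm, hm'⟩ := step_numbers k b hb
  have e0 := eps_pos k
  have e1 := eps_le k
  have e2 := eps_succ k
  have hb0 : (0 : ℝ) ≤ b := Nat.cast_nonneg b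
  rw [e2] at hL
  have hvm : ∀ i, v i ∈ S ∪ Finset.univ.image v := fun i =>
    Finset.mem_union_right _ (Finset.mem_image_of_mem v (Finset.mem_univ i))
  have htr : ∀ i, ∃ M : Finset ℤ, M ⊆ L (v i) ∧ ((4 : ℝ) - eps k / 1000) * b ≤ (M.card : ℝ) ∧
      (M.card : ℝ) ≤ (4 : ℝ) * b := by
    intro i
    have h1 := hL (v i) (hvm i)
    rw [hcv i] at h1
    have := truncate (L (v i)) 4 b (eps k / 1000) (by positivity) h1
    simpa using this
  choose M hM1 hM2 hM3 using htr
  obtain ⟨φ, p1, p2, p3⟩ := slack_creation G S c (eps k) (bb k) e0 e1 h 6 le_rfl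
    (fun _ => 4) (fun i => w (i - 1)) (fun i => w i) (fun i => hw _)
    (fun i => hw _) hne hna (fun i => by
      have h1 := hcw (i - 1)
      have h2 := hcw i
      omega) b hb1 hb2 L
    (fun x hx => by
      refine le_trans ?_ (hL x (Finset.mem_union_left _ hx))
      apply mul_le_mul_of_nonneg_right _ hb0
      linarith)
    M (fun i => by simpa using hM3 i) m hm hm'
  have hres : ∀ i, 2 * m ≤ (M i \ (φ (w (i - 1)) ∪ φ (w i))).card := by
    intro i
    have h0 : M i \ ((φ (w (i - 1)) ∪ φ (w i)) ∩ M i) ⊆ M i \ (φ (w (i - 1)) ∪ φ (w i)) := by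
      intro y hy
      rw [Finset.mem_sdiff] at hy ⊢
      exact ⟨hy.1, fun h1 => hy.2 (Finset.mem_inter.2 ⟨h1, hy.1⟩)⟩
    have h1 := Finset.card_le_card h0
    have h2 := Finset.le_card_sdiff ((φ (w (i - 1)) ∪ φ (w i)) ∩ M i) (M i)
    have h3 : (M i).card ≤ (M i \ (φ (w (i - 1)) ∪ φ (w i))).card +
        ((φ (w (i - 1)) ∪ φ (w i)) ∩ M i).card := by omega
    have h4 : ((M i).card : ℝ) ≤ ((M i \ (φ (w (i - 1)) ∪ φ (w i))).card : ℝ) +
        (((φ (w (i - 1)) ∪ φ (w i)) ∩ M i).card : ℝ) := by exact_mod_cast h3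
    have h5 := hM2 i
    have h6 := p3 i
    have h7 : (2 : ℝ) * m ≤ ((M i \ (φ (w (i - 1)) ∪ φ (w i))).card : ℝ) := by nlinarith
    exact_mod_cast h7
  obtain ⟨ψ, q1, q2⟩ := c6 m (fun i => M i \ (φ (w (i - 1)) ∪ φ (w i))) hres
  have hr : (1 + eps (k + 1)) * b ≤ (m : ℝ) := by
    refine le_trans ?_ hm
    apply mul_le_mul_of_nonneg_right _ hb0
    rw [e2]; linarith
  let idx : V → Fin 6 := Function.invFun v
  have hidx : ∀ i, idx (v i) = i := fun i => Function.leftInverse_invFun hinj i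
  refine ⟨fun x => if x ∈ S then φ x else ψ (idx x), ?_, ?_⟩
  · intro x hx
    rw [Finset.mem_union] at hx
    by_cases hxS : x ∈ S
    · simp only [if_pos hxS]
      exact ⟨(p1 x hxS).1, by rw [(p1 x hxS).2]; exact hr⟩
    · simp only [if_neg hxS]
      rcases hx with hx | hx
      · exact absurd hx hxS
      rw [Finset.mem_image] at hx
      obtain ⟨i, -, rfl⟩ := hx
      rw [hidx]
      refine ⟨((q1 i).1.trans Finset.sdiff_subset).trans (hM1 i), ?_⟩
      rw [(q1 i).2]
      exact hr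
  · have hSv : ∀ x ∈ S, ∀ i, G.Adj x (v i) → Disjoint (φ x) (ψ i) := by
      intro x hx i hxi
      rw [Finset.disjoint_left]
      intro y hy hy'
      have h1 := (q1 i).1 hy'
      rw [Finset.mem_sdiff, Finset.mem_union] at h1
      rcases hN i x hx hxi.symm with h2 | h2
      · exact h1.2 (Or.inr (h2 ▸ hy))
      · exact h1.2 (Or.inl (h2 ▸ hy))
    intro x hx y hy hxy
    rw [Finset.mem_union] at hx hy
    by_cases hxS : x ∈ S <;> by_cases hyS : y ∈ S
    · simp only [if_pos hxS, if_pos hyS]; exact p2 x hxS y hyS hxy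
    · simp only [if_pos hxS, if_neg hyS]
      rcases hy with hy | hy
      · exact absurd hy hyS
      rw [Finset.mem_image] at hy
      obtain ⟨i, -, rfl⟩ := hy
      rw [hidx]
      exact hSv x hxS i hxy
    · simp only [if_neg hxS, if_pos hyS]
      rcases hx with hx | hx
      · exact absurd hx hxS
      rw [Finset.mem_image] at hx
      obtain ⟨i, -, rfl⟩ := hx
      rw [hidx]
      exact (hSv y hyS i hxy.symm).symm
    · simp only [if_neg hxS, if_neg hyS]
      rcases hx with hx | hx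
      · exact absurd hx hxS
      rcases hy with hy | hy
      · exact absurd hy hyS
      rw [Finset.mem_image] at hx hy
      obtain ⟨i, -, rfl⟩ := hx
      obtain ⟨j, -, rfl⟩ := hy
      rw [hidx, hidx]
      rcases hadj i j hxy with h1 | h1
      · rw [h1]; exact q2 i
      · rw [h1]; exact (q2 j).symm

end Pool.Agent.H99.SF
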