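import Pool.Agent.H99.SF.Basic

/-!
# Slack colourings (paper section 0): statements
-/

namespace Pool.Agent.H99.SF

open Classical

section
variable {V : Type}

/-- slack colourability of `S` with residual sizes `c` -/
def Ext (G : SimpleGraph V) (S : Finset V) (c : V → ℕ) (ε : ℝ) (b0 : ℕ) : Prop :=
  ∀ b : ℕ, b0 ≤ b → ∀ L : V → Finset ℤ, (∀ v ∈ S, ((c v : ℝ) - ε) * b ≤ ((L v).card : ℝ)) →
    ∃ φ : V → Finset ℤ, (∀ v ∈ S, φ v ⊆ L v ∧ (1 + ε) * b ≤ ((φ v).card : ℝ)) ∧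
      ∀ u ∈ S, ∀ v ∈ S, G.Adj u v → Disjoint (φ u) (φ v)

noncomputable def eps (k : ℕ) : ℝ := (1 / 1000 : ℝ) ^ (k + 1)

def bb (k : ℕ) : ℕ := 10 ^ (3 * k + 12)

/-- slack colourable in `k` steps -/
def Good (G : SimpleGraph V) (S : Finset V) (c : V → ℕ) (k : ℕ) : Prop := Ext G S c (eps k) (bb k)

theorem eps_pos (k : ℕ) : 0 < eps k := by unfold eps; positivity

theorem eps_succ (k : ℕ) : eps (k + 1) = eps k / 1000 := by
  unfold eps
  rw [pow_succ (1 / 1000 : ℝ) (k + 1)]; ring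

theorem eps_le (k : ℕ) : eps k ≤ 1 / 1000 := by
  unfold eps
  have h0 : (0 : ℝ) ≤ 1 / 1000 := by norm_num
  have h1 : (1 / 1000 : ℝ) ≤ 1 := by norm_num
  calc (1 / 1000 : ℝ) ^ (k + 1) ≤ (1 / 1000 : ℝ) ^ 1 :=
        pow_le_pow_of_le_one h0 h1 (by omega)
    _ = 1 / 1000 := by rw [pow_one]

theorem eps_anti {k l : ℕ} (h : k ≤ l) : eps l ≤ eps k := by
  unfold eps
  apply pow_le_pow_of_le_one (by norm_num) (by norm_num)
  omega

/-- `eps k * bb k = 10^9` -/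
theorem eps_bb (k : ℕ) : eps k * (bb k : ℝ) = 10 ^ 9 := by
  unfold eps bb
  have h : (1 / 1000 : ℝ) ^ (k + 1) = 1 / (10 ^ (3 * k + 3) : ℝ) := by
    rw [one_div, inv_pow, one_div, show (1000 : ℝ) = 10 ^ 3 by norm_num, ← pow_mul]
    congr 2
  rw [h]
  push_cast
  rw [show (10 : ℝ) ^ (3 * k + 12) = 10 ^ (3 * k + 3) * 10 ^ 9 by rw [← pow_add]]
  have h2 : (10 : ℝ) ^ (3 * k + 3) ≠ 0 := by positivity
  rw [one_div, ← mul_assoc, inv_mul_cancel₀ h2, one_mul]

theorem bb_le_succ (k : ℕ) : bb k ≤ bb (k + 1) := by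
  unfold bb
  exact Nat.pow_le_pow_right (by norm_num) (by omega)

theorem good_empty (G : SimpleGraph V) (c : V → ℕ) (k : ℕ) : Good G ∅ c k := by
  intro b _ L _
  exact ⟨fun _ => ∅, by simp, by simp⟩

theorem good_succ {G : SimpleGraph V} {S : Finset V} {c : V → ℕ} {k : ℕ} (h : Good G S c k) :
    Good G S c (k + 1) := by
  intro b hb L hL
  have hb0 : (0 : ℝ) ≤ b := Nat.cast_nonneg b
  have e0 := eps_pos k
  have e1 : eps (k + 1) ≤ eps k := by rw [eps_succ]; linarith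
  obtain ⟨φ, h1, h2⟩ := h b ((bb_le_succ k).trans hb) L (fun v hv => by
    refine le_trans ?_ (hL v hv)
    apply mul_le_mul_of_nonneg_right _ hb0
    linarith)
  refine ⟨φ, fun v hv => ⟨(h1 v hv).1, le_trans ?_ (h1 v hv).2⟩, h2⟩
  apply mul_le_mul_of_nonneg_right _ hb0
  linarith

theorem good_mono {G : SimpleGraph V} {S : Finset V} {c : V → ℕ} {k l : ℕ} (hkl : k ≤ l)
    (h : Good G S c k) : Good G S c l := by
  induction hkl with
  | refl => exact h
  | step _ ih => exact good_succ ih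

end

end Pool.Agent.H99.SF
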